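import Pool.Agent.K6.H73.TB.Stm

set_option autoImplicit false

/-!
`S_ARI`: the arithmetic of the parameters.
-/

namespace Pool.Agent.K6.H73.TB

theorem t_ARI : S_ARI := by
  intro r hr
  obtain ⟨e, he⟩ : ∃ e : ℕ, e = 32 * r ^ 4 + r + 1 := ⟨_, rfl⟩
  obtain ⟨K, hK⟩ : ∃ K : ℕ, K = 4096 * r ^ 5 := ⟨_, rfl⟩
  refine ⟨(e + 1) + K ^ (e + 1) + 4, ?_⟩
  intro n m t₁ t₂ hCn hnm hlog ht₁ ht₂
  obtain ⟨L, hL⟩ : ∃ L : ℕ, L = Nat.log 2 m := ⟨_, rfl⟩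
  rw [← hL] at hlog ht₁
  have hm : 4 ≤ m := by omega
  have hL2 : 2 ≤ L := by
    rw [hL]
    exact Nat.le_log_of_pow_le (by norm_num) (by simpa using hm)
  have ht1 : t₁ ≤ 2 * L := by omega
  have ht1' : 1 ≤ t₁ := by omega
  -- the powers of `r`
  have r1 : 1 ≤ r ^ 2 := Nat.one_le_pow _ _ hr
  have r3 : 1 ≤ r ^ 3 := Nat.one_le_pow _ _ hr
  have h2t2 : 2 ^ t₂ ≤ 128 * r ^ 3 * L := by
    have h1 : 2 ^ Nat.log 2 (32 * r ^ 3 * t₁) ≤ 32 * r ^ 3 * t₁ :=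
      Nat.pow_log_le_self 2 (by positivity)
    rw [ht₂, pow_succ]
    nlinarith
  have ht2 : t₂ ≤ 128 * r ^ 3 * L := (Nat.lt_two_pow_self).le.trans h2t2
  obtain ⟨x, hx⟩ : ∃ x : ℕ, x = K * L := ⟨_, rfl⟩
  have hr5 : 1 ≤ r ^ 5 := Nat.one_le_pow _ _ hr
  have hx4 : 8192 ≤ x := by
    rw [hx, hK]
    nlinarith
  have p25 : r ^ 2 ≤ r ^ 5 := Nat.pow_le_pow_right hr (by norm_num)
  have p35 : r ^ 3 ≤ r ^ 5 := Nat.pow_le_pow_right hr (by norm_num)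
  have p45 : r ^ 4 ≤ r ^ 5 := Nat.pow_le_pow_right hr (by norm_num)
  have p15 : r ≤ r ^ 5 := Nat.le_self_pow (by norm_num) r
  have xL : x = 4096 * (r ^ 5 * L) := by rw [hx, hK]; ring
  have q2 : r ^ 2 * L ≤ r ^ 5 * L := Nat.mul_le_mul_right _ p25
  have q3 : r ^ 3 * L ≤ r ^ 5 * L := Nat.mul_le_mul_right _ p35
  have q4 : r ^ 4 * L ≤ r ^ 5 * L := Nat.mul_le_mul_right _ p45
  have q1 : r * L ≤ r ^ 5 * L := Nat.mul_le_mul_right _ p15
  have hx1 : 1 ≤ x := by omega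
  -- the four terms
  have T1 : (32 * r ^ 2 * t₁) ^ (r + 1) ≤ x ^ e := by
    have h1 : 32 * r ^ 2 * t₁ ≤ x := by
      have : 32 * r ^ 2 * t₁ ≤ 32 * r ^ 2 * (2 * L) := Nat.mul_le_mul_left _ ht1
      have h2 : 32 * r ^ 2 * (2 * L) = 64 * (r ^ 2 * L) := by ring
      omega
    exact (Nat.pow_le_pow_left h1 _).trans (Nat.pow_le_pow_right hx1 (by omega))
  have T2 : (32 * r ^ 2 * t₂) ^ (r + 1) ≤ x ^ e := by
    have h1 : 32 * r ^ 2 * t₂ ≤ x := by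
      have : 32 * r ^ 2 * t₂ ≤ 32 * r ^ 2 * (128 * r ^ 3 * L) := Nat.mul_le_mul_left _ ht2
      have h2 : 32 * r ^ 2 * (128 * r ^ 3 * L) = 4096 * (r ^ 5 * L) := by ring
      omega
    exact (Nat.pow_le_pow_left h1 _).trans (Nat.pow_le_pow_right hx1 (by omega))
  have T3 : r ^ (32 * r ^ 3 * t₂) * r ≤ x ^ e := by
    have h1 : r ≤ 2 ^ r := (Nat.lt_two_pow_self).le
    have h2 : r ^ (32 * r ^ 3 * t₂) ≤ x ^ (32 * r ^ 4) := by
      calc r ^ (32 * r ^ 3 * t₂) ≤ (2 ^ r) ^ (32 * r ^ 3 * t₂) := Nat.pow_le_pow_left h1 _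
        _ = (2 ^ t₂) ^ (32 * r ^ 4) := by
            rw [← pow_mul, ← pow_mul]
            congr 1
            ring
        _ ≤ x ^ (32 * r ^ 4) := by
            refine Nat.pow_le_pow_left (h2t2.trans ?_) _
            have : 128 * r ^ 3 * L = 128 * (r ^ 3 * L) := by ring
            omega
    have h3 : r ≤ x ^ 1 := by
      rw [pow_one]
      have : r ≤ r * L := Nat.le_mul_of_pos_right _ (by omega)
      omega
    calc r ^ (32 * r ^ 3 * t₂) * r ≤ x ^ (32 * r ^ 4) * x ^ 1 := Nat.mul_le_mul h2 h3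
      _ = x ^ (32 * r ^ 4 + 1) := by rw [← pow_add]
      _ ≤ x ^ e := Nat.pow_le_pow_right hx1 (by omega)
  have T4 : 2 * ((r + 8 * r * t₁) + (r + 8 * r * t₂) + r) ≤ x ^ e := by
    have h1 : 8 * r * t₁ ≤ 16 * (r * L) := by
      have := Nat.mul_le_mul_left (8 * r) ht1
      have h2 : 8 * r * (2 * L) = 16 * (r * L) := by ring
      omega
    have h2 : 8 * r * t₂ ≤ 1024 * (r ^ 4 * L) := by
      have := Nat.mul_le_mul_left (8 * r) ht2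
      have h2 : 8 * r * (128 * r ^ 3 * L) = 1024 * (r ^ 4 * L) := by ring
      omega
    have h3 : r ≤ r * L := Nat.le_mul_of_pos_right _ (by omega)
    have h4 : x ≤ x ^ e := Nat.le_self_pow (by omega) x
    omega
  have hK1 : 1 ≤ K := by
    rw [hK]
    omega
  calc _ ≤ x ^ e + x ^ e + x ^ e + x ^ e :=
        Nat.add_le_add (Nat.add_le_add (Nat.add_le_add T1 T2) T3) T4
    _ = 4 * x ^ e := by ring
    _ ≤ x * x ^ e := Nat.mul_le_mul_right _ (by omega)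
    _ = x ^ (e + 1) := by ring
    _ = K ^ (e + 1) * L ^ (e + 1) := by rw [hx, mul_pow]
    _ ≤ L ^ (K ^ (e + 1)) * L ^ (e + 1) := by
        refine Nat.mul_le_mul_right _ ?_
        calc K ^ (e + 1) ≤ 2 ^ (K ^ (e + 1)) := (Nat.lt_two_pow_self).le
          _ ≤ L ^ (K ^ (e + 1)) := Nat.pow_le_pow_left hL2 _
    _ = L ^ (K ^ (e + 1) + (e + 1)) := by rw [← pow_add]
    _ ≤ L ^ ((e + 1) + K ^ (e + 1) + 4) := Nat.pow_le_pow_right (by omega) (by omega)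
    _ ≤ n := hlog

end Pool.Agent.K6.H73.TB
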