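import Pool.Agent.K6.H73.TB.Stm2

set_option autoImplicit false

/-! Piece AVG: choice of colours from lists, by the method of conditional expectations. -/

namespace Pool.Agent.K6.H73.TB

namespace AVG

theorem main (X Y : Type) [DecidableEq X] [DecidableEq Y] (r : ℕ)
    (χ : X → Y → Fin r) (L : X → Finset (Fin r)) (q : ℝ) (hq0 : 0 ≤ q) (hq : (r : ℝ) * q = r - 1)
    (hr : 1 ≤ r) (V : Finset X) :
    ∀ W : Finset Y, (∀ x ∈ V, (L x).Nonempty) →
    ∑ y ∈ W, q ^ (V.filter (fun x => χ x y ∈ L x)).card < 1 →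
    ∃ c : X → Fin r, (∀ x ∈ V, c x ∈ L x) ∧ ∀ y ∈ W, ∃ x ∈ V, c x = χ x y := by
  have hr' : (1 : ℝ) ≤ r := by exact_mod_cast hr
  have hq1 : q ≤ 1 := by nlinarith
  induction V using Finset.induction_on with
  | empty =>
    intro W _ h
    have hW : W = ∅ := by
      have h1 : (W.card : ℝ) < 1 := by simpa using h
      have h2 : W.card < 1 := by exact_mod_cast h1
      exact Finset.card_eq_zero.1 (by omega)
    subst hW
    exact ⟨fun _ => ⟨0, hr⟩, by simp, by simp⟩
  | insert a V' ha ih =>
    intro W hL h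
    have hLa : (L a).Nonempty := hL a (Finset.mem_insert_self _ _)
    have hcard : ∀ y, ((insert a V').filter (fun x => χ x y ∈ L x)).card =
        (V'.filter (fun x => χ x y ∈ L x)).card + (if χ a y ∈ L a then 1 else 0) := by
      intro y
      rw [Finset.filter_insert]
      split_ifs with h1
      · rw [Finset.card_insert_of_notMem]
        simp [ha]
      · rfl
    have hsum : ∑ i ∈ L a, ∑ y ∈ W.filter (fun y => χ a y ≠ i),
        q ^ (V'.filter (fun x => χ x y ∈ L x)).card ≤
        ∑ _i ∈ L a, ∑ y ∈ W, q ^ ((insert a V').filter (fun x => χ x y ∈ L x)).card := by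
      simp_rw [Finset.sum_filter]
      rw [Finset.sum_comm]
      rw [Finset.sum_comm (s := L a)]
      refine Finset.sum_le_sum fun y _ => ?_
      rw [Finset.sum_const, hcard y]
      set A : ℝ := q ^ (V'.filter (fun x => χ x y ∈ L x)).card with hA
      have hA0 : 0 ≤ A := by positivity
      have h1 : ∑ i ∈ L a, (if χ a y ≠ i then A else 0) =
          ((L a).card : ℝ) * A - (if χ a y ∈ L a then A else 0) := by
        have h2 : ∀ i ∈ L a, (if χ a y ≠ i then A else 0) = A - (if χ a y = i then A else 0) := by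
          intro i _
          by_cases h3 : χ a y = i
          · simp [h3]
          · simp [h3]
        rw [Finset.sum_congr rfl h2, Finset.sum_sub_distrib, Finset.sum_const, nsmul_eq_mul,
          Finset.sum_ite_eq]
      rw [h1, nsmul_eq_mul]
      have hcl : ((L a).card : ℝ) ≤ r := by
        have : (L a).card ≤ Fintype.card (Fin r) := Finset.card_le_univ _
        rw [Fintype.card_fin] at this
        exact_mod_cast this
      split_ifs with h3
      · rw [pow_succ, ← hA]
        have h4 : ((L a).card : ℝ) * (1 - q) ≤ 1 := by nlinarith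
        nlinarith [mul_le_mul_of_nonneg_left h4 hA0]
      · rw [Nat.add_zero, ← hA, sub_zero]
    obtain ⟨i, hi, hile⟩ := Finset.exists_le_of_sum_le hLa hsum
    obtain ⟨c', hc1, hc2⟩ := ih (W.filter (fun y => χ a y ≠ i))
      (fun x hx => hL x (Finset.mem_insert_of_mem hx)) (lt_of_le_of_lt hile h)
    refine ⟨Function.update c' a i, ?_, ?_⟩
    · intro x hx
      by_cases hxa : x = a
      · subst hxa
        rw [Function.update_self]
        exact hi
      · rw [Function.update_of_ne hxa]
        exact hc1 x ((Finset.mem_insert.1 hx).resolve_left hxa)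
    · intro y hy
      by_cases h5 : χ a y = i
      · exact ⟨a, Finset.mem_insert_self _ _, by rw [Function.update_self]; exact h5.symm⟩
      · obtain ⟨x, hx, hxc⟩ := hc2 y (Finset.mem_filter.2 ⟨hy, h5⟩)
        have hxa : x ≠ a := fun h6 => ha (h6 ▸ hx)
        exact ⟨x, Finset.mem_insert_of_mem hx, by rw [Function.update_of_ne hxa]; exact hxc⟩

end AVG

theorem t_AVG : S_AVG := by
  intro X Y _ _ r g χ L V W hr hL hg hW
  have hr' : (1 : ℝ) ≤ r := by exact_mod_cast hr
  have hr0 : (0 : ℝ) < r := by linarith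
  have hq : (r : ℝ) * (((r : ℝ) - 1) / r) = r - 1 := by field_simp
  have hq0 : 0 ≤ ((r : ℝ) - 1) / r := div_nonneg (by linarith) hr0.le
  have hq1 : ((r : ℝ) - 1) / r ≤ 1 := by
    rw [div_le_one hr0]
    linarith
  refine AVG.main X Y r χ L (((r : ℝ) - 1) / r) hq0 hq hr V W hL ?_
  have h1 : ∑ y ∈ W, (((r : ℝ) - 1) / r) ^ (V.filter (fun x => χ x y ∈ L x)).card ≤
      ∑ _y ∈ W, (((r : ℝ) - 1) / r) ^ g :=
    Finset.sum_le_sum fun y hy => pow_le_pow_of_le_one hq0 hq1 (hg y hy)
  refine lt_of_le_of_lt h1 ?_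
  rw [Finset.sum_const, nsmul_eq_mul, div_pow, mul_div_assoc', div_lt_one (by positivity)]
  have h2 : ((W.card * (r - 1) ^ g : ℕ) : ℝ) < ((r ^ g : ℕ) : ℝ) := by exact_mod_cast hW
  push_cast [Nat.cast_sub hr] at h2
  exact h2

end Pool.Agent.K6.H73.TB
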