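import Pool.Agent.K6.H73.TB.Stm

/-!
# COMB
-/

set_option autoImplicit false

namespace Pool.Agent.K6.H73.TB

open Pool.Agent.H948R3.TP Sum

theorem t_COMB : S_COMB := by
  intro X Y _ _ r q q' N N' e e' χ P Z h1 h2
  classical
  obtain ⟨E, hE, hEc, C, col, hd, hc, hs, hN, hz⟩ := h1
  set F : Finset (X ⊕ Y) := Finset.univ.biUnion C with hF
  have hCF : ∀ s, C s ⊆ F := fun s => Finset.subset_biUnion_of_mem C (Finset.mem_univ s)
  obtain ⟨E', hE', hEc', C', col', hd', hc', hs', hN', hz'⟩ :=
    h2 (P.filter fun x => (inl x : X ⊕ Y) ∉ F) (Finset.filter_subset _ _)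
      (E.filter fun z => (inr z : X ⊕ Y) ∉ F) ((Finset.filter_subset _ _).trans hE)
      (by
        have h3 := Finset.card_filter_add_card_filter_not (s := P)
          (fun x => (inl x : X ⊕ Y) ∈ F)
        have h4 : (P.filter fun x => (inl x : X ⊕ Y) ∈ F).card ≤ F.card := by
          refine Finset.card_le_card_of_injOn inl ?_ ?_
          · intro x hx
            exact (Finset.mem_filter.1 hx).2
          · intro x _ y _ hxy
            exact Sum.inl.inj hxy
        omega)
      ((Finset.card_le_card (Finset.filter_subset _ _)).trans hEc)
  have hE'Z : E' ⊆ Z := hE'.trans ((Finset.filter_subset _ _).trans hE)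
  have hdisj : ∀ t, Disjoint (C' t) F := by
    intro t
    rw [Finset.disjoint_left]
    intro v hv hvF
    have h3 := hs' t hv
    rcases v with x | z
    · rw [Finset.inl_mem_disjSum, Finset.mem_filter] at h3
      exact h3.2 hvF
    · rw [Finset.inr_mem_disjSum, Finset.mem_filter] at h3
      exact h3.2 hvF
  refine ⟨E', hE'Z, hEc', Fin.append C C', Fin.append col col', ?_, ?_, ?_, ?_, ?_⟩
  · intro s t hst
    induction s using Fin.addCases with
    | left s =>
      induction t using Fin.addCases with
      | left t =>
        rw [Fin.append_left, Fin.append_left]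
        exact hd s t fun h => hst (by rw [h])
      | right t =>
        rw [Fin.append_left, Fin.append_right]
        exact (Finset.disjoint_of_subset_right (hCF s) (hdisj t)).symm
    | right s =>
      induction t using Fin.addCases with
      | left t =>
        rw [Fin.append_right, Fin.append_left]
        exact Finset.disjoint_of_subset_right (hCF t) (hdisj s)
      | right t =>
        rw [Fin.append_right, Fin.append_right]
        exact hd' s t fun h => hst (by rw [h])
  · intro s
    induction s using Fin.addCases with
    | left s =>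
      rw [Fin.append_left, Fin.append_left]
      exact hc s
    | right s =>
      rw [Fin.append_right, Fin.append_right]
      exact hc' s
  · intro s
    induction s using Fin.addCases with
    | left s =>
      rw [Fin.append_left]
      exact hs s
    | right s =>
      rw [Fin.append_right]
      exact (hs' s).trans (Finset.disjSum_mono (Finset.filter_subset _ _)
        ((Finset.filter_subset _ _).trans hE))
  · have h3 : (Finset.univ.biUnion (Fin.append C C')) ⊆ F ∪ Finset.univ.biUnion C' := by
      intro v hv
      rw [Finset.mem_biUnion] at hv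
      obtain ⟨s, -, hv⟩ := hv
      rw [Finset.mem_union]
      induction s using Fin.addCases with
      | left s =>
        rw [Fin.append_left] at hv
        exact Or.inl (hCF s hv)
      | right s =>
        rw [Fin.append_right] at hv
        exact Or.inr (Finset.mem_biUnion.2 ⟨s, Finset.mem_univ _, hv⟩)
    exact (Finset.card_le_card h3).trans ((Finset.card_union_le _ _).trans (add_le_add hN hN'))
  · intro z hzZ hzE'
    by_cases hzE : z ∈ E
    · by_cases hzF : (inr z : X ⊕ Y) ∈ F
      · rw [hF, Finset.mem_biUnion] at hzF
        obtain ⟨s, -, hsz⟩ := hzF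
        exact Or.inl ⟨Fin.castAdd q' s, by rw [Fin.append_left]; exact hsz⟩
      · rcases hz' z (Finset.mem_filter.2 ⟨hzE, hzF⟩) hzE' with ⟨s, hsz⟩ | ⟨s, x, hx, hxz⟩
        · exact Or.inl ⟨Fin.natAdd q s, by rw [Fin.append_right]; exact hsz⟩
        · exact Or.inr ⟨Fin.natAdd q s, x, by rw [Fin.append_right]; exact hx,
            by rw [Fin.append_right]; exact hxz⟩
    · rcases hz z hzZ hzE with ⟨s, hsz⟩ | ⟨s, x, hx, hxz⟩
      · exact Or.inl ⟨Fin.castAdd q' s, by rw [Fin.append_left]; exact hsz⟩
      · exact Or.inr ⟨Fin.castAdd q' s, x, by rw [Fin.append_left]; exact hx,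
          by rw [Fin.append_left]; exact hxz⟩

end Pool.Agent.K6.H73.TB
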