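import Pool.Agent.K6.H73.TB.Stm

/-!
# `S_CON`: connectors (written by helper58)
-/

set_option autoImplicit false

namespace Pool.Agent.K6.H73.TB

open Pool.Agent.H948R3.TP Sum

namespace CON

/-- the set of the root, the vertices of colour `i` and their connectors -/
def co {X Y : Type} [DecidableEq X] [DecidableEq Y] {r : ℕ} (A : Finset (Fin r)) (root : Fin r → X)
    (K : Finset X) (c : X → Fin r) (q : {x // x ∈ K} → Y) (i : Fin r) : Finset (X ⊕ Y) :=
  if i ∈ A then insert (inl (root i))
    (((K.attach.filter fun x => c x.1 = i).image fun x => (inl x.1 : X ⊕ Y)) ∪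
      ((K.attach.filter fun x => c x.1 = i).image fun x => (inr (q x) : X ⊕ Y))) else ∅

theorem mem_co {X Y : Type} [DecidableEq X] [DecidableEq Y] {r : ℕ} (A : Finset (Fin r))
    (root : Fin r → X) (K : Finset X) (c : X → Fin r) (q : {x // x ∈ K} → Y) (i : Fin r)
    (v : X ⊕ Y) : v ∈ co A root K c q i ↔ i ∈ A ∧ (v = inl (root i) ∨
      (∃ x : {x // x ∈ K}, c x.1 = i ∧ v = inl x.1) ∨
      ∃ x : {x // x ∈ K}, c x.1 = i ∧ v = inr (q x)) := by
  unfold co
  split_ifs with h
  · simp only [Finset.mem_insert, Finset.mem_union, Finset.mem_image, Finset.mem_filter,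
      Finset.mem_attach, true_and, h]
    constructor
    · rintro (h1 | ⟨x, h1, h2⟩ | ⟨x, h1, h2⟩)
      · exact Or.inl h1
      · exact Or.inr (Or.inl ⟨x, h1, h2.symm⟩)
      · exact Or.inr (Or.inr ⟨x, h1, h2.symm⟩)
    · rintro (h1 | ⟨x, h1, h2⟩ | ⟨x, h1, h2⟩)
      · exact Or.inl h1
      · exact Or.inr (Or.inl ⟨x, h1, h2.symm⟩)
      · exact Or.inr (Or.inr ⟨x, h1, h2.symm⟩)
  · simp [h]

end CON

open CON in
theorem t_CON : S_CON := by
  intro X Y _ _ r k χ P Z A root K c hKP hKk hroot hinj hK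
  -- Hall's theorem
  have hall : ∃ q : {x // x ∈ K} → Y, Function.Injective q ∧
      ∀ x, q x ∈ Z.filter (fun z => χ (root (c x.1)) z = c x.1 ∧ χ x.1 z = c x.1) := by
    rw [← Finset.all_card_le_biUnion_card_iff_exists_injective]
    intro s
    rcases s.eq_empty_or_nonempty with rfl | ⟨x, hx⟩
    · simp
    · have h1 : s.card ≤ K.card := by
        have := Finset.card_le_univ s
        simpa using this
      have h2 := (hK x.1 x.2).2
      refine h1.trans (hKk.trans (h2.trans (Finset.card_le_card ?_)))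
      exact Finset.subset_biUnion_of_mem
        (fun x : {x // x ∈ K} =>
          Z.filter (fun z => χ (root (c x.1)) z = c x.1 ∧ χ x.1 z = c x.1)) hx
  obtain ⟨q, hq, hqZ⟩ := hall
  simp only [Finset.mem_filter] at hqZ
  refine ⟨co A root K c q, ?_, ?_, ?_, ?_, ?_⟩
  · intro i j hij
    rw [Finset.disjoint_left]
    intro v hvi hvj
    rw [mem_co] at hvi hvj
    obtain ⟨hi, hvi⟩ := hvi
    obtain ⟨hj, hvj⟩ := hvj
    rcases hvi with rfl | ⟨x, hx, rfl⟩ | ⟨x, hx, rfl⟩
    · rcases hvj with h | ⟨y, hy, h⟩ | ⟨y, hy, h⟩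
      · exact hij (hinj i hi j hj (inl.inj h))
      · exact (hroot i hi).2 (by rw [inl.inj h]; exact y.2)
      · cases h
    · rcases hvj with h | ⟨y, hy, h⟩ | ⟨y, hy, h⟩
      · exact (hroot j hj).2 (by rw [← inl.inj h]; exact x.2)
      · apply hij
        rw [← hx, ← hy, inl.inj h]
      · cases h
    · rcases hvj with h | ⟨y, hy, h⟩ | ⟨y, hy, h⟩
      · cases h
      · cases h
      · apply hij
        rw [← hx, ← hy, hq (inr.inj h)]
  · rintro i ⟨v0, hv0⟩
    have hi : i ∈ A := ((mem_co _ _ _ _ _ _ _).1 hv0).1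
    refine conn_x χ i _ (root i) ?_ ?_ ?_
    · rw [Finset.mem_coe, mem_co]
      exact ⟨hi, Or.inl rfl⟩
    · intro y hy
      rw [Finset.mem_coe, mem_co] at hy
      rcases hy.2 with h | ⟨x, hx, h⟩ | ⟨x, hx, h⟩
      · cases h
      · cases h
      · rw [inr.inj h, ← hx]
        exact (hqZ x).2.1
    · intro x hx
      rw [Finset.mem_coe, mem_co] at hx
      rcases hx.2 with h | ⟨y, hy, h⟩ | ⟨y, hy, h⟩
      · exact Or.inl (inl.inj h)
      · refine Or.inr ⟨q y, ?_, ?_⟩
        · rw [Finset.mem_coe, mem_co]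
          exact ⟨hi, Or.inr (Or.inr ⟨y, hy, rfl⟩)⟩
        · rw [inl.inj h, ← hy]
          exact (hqZ y).2.2
      · cases h
  · intro i v hv
    rw [mem_co] at hv
    rcases hv.2 with rfl | ⟨x, hx, rfl⟩ | ⟨x, hx, rfl⟩
    · exact Finset.inl_mem_disjSum.2 (hroot i hv.1).1
    · exact Finset.inl_mem_disjSum.2 (hKP x.2)
    · exact Finset.inr_mem_disjSum.2 (hqZ x).1
  · have hsub : Finset.univ.biUnion (co A root K c q) ⊆
        ((Finset.univ.image fun i : Fin r => (inl (root i) : X ⊕ Y)) ∪
          (K.attach.image fun x => (inl x.1 : X ⊕ Y))) ∪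
          (K.attach.image fun x => (inr (q x) : X ⊕ Y)) := by
      intro v hv
      simp only [Finset.mem_biUnion, Finset.mem_univ, true_and] at hv
      obtain ⟨i, hv⟩ := hv
      rw [mem_co] at hv
      rcases hv.2 with rfl | ⟨x, hx, rfl⟩ | ⟨x, hx, rfl⟩
      · exact Finset.mem_union_left _ (Finset.mem_union_left _
          (Finset.mem_image_of_mem (fun i : Fin r => (inl (root i) : X ⊕ Y)) (Finset.mem_univ i)))
      · exact Finset.mem_union_left _ (Finset.mem_union_right _
          (Finset.mem_image_of_mem (fun x : {x // x ∈ K} => (inl x.1 : X ⊕ Y))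
            (Finset.mem_attach K x)))
      · exact Finset.mem_union_right _
          (Finset.mem_image_of_mem (fun x : {x // x ∈ K} => (inr (q x) : X ⊕ Y))
            (Finset.mem_attach K x))
    refine (Finset.card_le_card hsub).trans ?_
    have c1 : (Finset.univ.image fun i : Fin r => (inl (root i) : X ⊕ Y)).card ≤ r := by
      refine Finset.card_image_le.trans ?_
      simp
    have c2 : (K.attach.image fun x => (inl x.1 : X ⊕ Y)).card ≤ k := by
      refine Finset.card_image_le.trans ?_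
      simpa using hKk
    have c3 : (K.attach.image fun x => (inr (q x) : X ⊕ Y)).card ≤ k := by
      refine Finset.card_image_le.trans ?_
      simpa using hKk
    have c4 := Finset.card_union_le ((Finset.univ.image fun i : Fin r => (inl (root i) : X ⊕ Y)) ∪
          (K.attach.image fun x => (inl x.1 : X ⊕ Y))) (K.attach.image fun x => (inr (q x) : X ⊕ Y))
    have c5 := Finset.card_union_le (Finset.univ.image fun i : Fin r => (inl (root i) : X ⊕ Y))
          (K.attach.image fun x => (inl x.1 : X ⊕ Y))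
    omega
  · intro x hx
    rw [mem_co]
    exact ⟨(hK x hx).1, Or.inr (Or.inl ⟨⟨x, hx⟩, rfl, rfl⟩)⟩

end Pool.Agent.K6.H73.TB
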