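import Pool.Agent.K6.H73.TB.Stm

set_option autoImplicit false

/-!
Few exceptional vertices (double counting and the inequality between the mean and the quadratic
mean).
-/

namespace Pool.Agent.K6.H73.TB

namespace EXC

open Finset

theorem offdiag_count {X : Type} [DecidableEq X] (T : Finset X) (p : X → Prop)
    [DecidablePred p] :
    (T.offDiag.filter (fun q => p q.1 ∧ p q.2)).card =
      (T.filter p).card * (T.filter p).card - (T.filter p).card := by
  have h : T.offDiag.filter (fun q => p q.1 ∧ p q.2) = (T.filter p).offDiag := by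
    ext ⟨a, b⟩
    simp only [Finset.mem_filter, Finset.mem_offDiag]
    tauto
  rw [h, Finset.offDiag_card]

theorem point {X Y : Type} [DecidableEq X] (r s : ℕ) (χ : X → Y → Fin r)
    (T : Finset X) (B : Finset (Fin r)) (z : Y) (hr : 4 * r ≤ s)
    (hz : s < 2 * (T.filter (fun x => χ x z ∈ B)).card) :
    s ^ 2 ≤ 8 * r * ∑ j ∈ B, (T.offDiag.filter (fun q => χ q.1 z = j ∧ χ q.2 z = j)).card := by
  have hD : (T.filter (fun x => χ x z ∈ B)).card =
      ∑ j ∈ B, (T.filter (fun x => χ x z = j)).card := by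
    rw [Finset.card_eq_sum_card_fiberwise (f := fun x => χ x z) (t := B)]
    · apply Finset.sum_congr rfl
      intro j hj
      congr 1
      ext x
      simp only [Finset.mem_filter]
      constructor
      · rintro ⟨⟨a, _⟩, c⟩
        exact ⟨a, c⟩
      · rintro ⟨a, c⟩
        exact ⟨⟨a, by rw [c]; exact hj⟩, c⟩
    · intro x hx
      have := (Finset.mem_filter.1 (Finset.mem_coe.1 hx)).2
      exact Finset.mem_coe.2 this
  have hcnt : ∀ j ∈ B, ((T.offDiag.filter (fun q => χ q.1 z = j ∧ χ q.2 z = j)).card : ℤ) =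
      ((T.filter (fun x => χ x z = j)).card : ℤ) ^ 2 - ((T.filter (fun x => χ x z = j)).card : ℤ) := by
    intro j _
    rw [offdiag_count T (fun x => χ x z = j)]
    have : (T.filter (fun x => χ x z = j)).card ≤
        (T.filter (fun x => χ x z = j)).card * (T.filter (fun x => χ x z = j)).card :=
      Nat.le_mul_self _
    rw [Nat.cast_sub this]
    push_cast
    ring
  have hCS : ((∑ j ∈ B, ((T.filter (fun x => χ x z = j)).card : ℤ)) ^ 2) ≤
      (B.card : ℤ) * ∑ j ∈ B, ((T.filter (fun x => χ x z = j)).card : ℤ) ^ 2 :=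
    sq_sum_le_card_mul_sum_sq
  have hB : (B.card : ℤ) ≤ r := by
    have := Finset.card_le_univ B
    rw [Fintype.card_fin] at this
    exact_mod_cast this
  have hQ : 0 ≤ ∑ j ∈ B, ((T.filter (fun x => χ x z = j)).card : ℤ) ^ 2 :=
    Finset.sum_nonneg fun j _ => by positivity
  have hDZ : ((T.filter (fun x => χ x z ∈ B)).card : ℤ) =
      ∑ j ∈ B, ((T.filter (fun x => χ x z = j)).card : ℤ) := by
    rw [hD]; push_cast; rfl
  have hsum : (∑ j ∈ B, ((T.offDiag.filter (fun q => χ q.1 z = j ∧ χ q.2 z = j)).card : ℤ)) =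
      (∑ j ∈ B, ((T.filter (fun x => χ x z = j)).card : ℤ) ^ 2) -
        ∑ j ∈ B, ((T.filter (fun x => χ x z = j)).card : ℤ) := by
    rw [Finset.sum_congr rfl hcnt, Finset.sum_sub_distrib]
  have key : ((s : ℤ)) ^ 2 ≤ 8 * r *
      ∑ j ∈ B, ((T.offDiag.filter (fun q => χ q.1 z = j ∧ χ q.2 z = j)).card : ℤ) := by
    rw [hsum, ← hDZ]
    rw [← hDZ] at hCS
    have hz' : (s : ℤ) < 2 * ((T.filter (fun x => χ x z ∈ B)).card : ℤ) := by exact_mod_cast hz
    have hr' : 4 * (r : ℤ) ≤ s := by exact_mod_cast hr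
    have hr0 : (0 : ℤ) ≤ r := by positivity
    have hs0 : (0 : ℤ) ≤ s := by positivity
    generalize ((T.filter (fun x => χ x z ∈ B)).card : ℤ) = D at *
    generalize (∑ j ∈ B, ((T.filter (fun x => χ x z = j)).card : ℤ) ^ 2) = Q at *
    generalize (B.card : ℤ) = b at *
    have h1 : D ^ 2 ≤ r * Q := hCS.trans (mul_le_mul_of_nonneg_right hB hQ)
    have h2 : (s : ℤ) ^ 2 ≤ 8 * (D * (D - r)) := by nlinarith
    nlinarith
  exact_mod_cast key

end EXC

open Finset in
theorem t_EXC : S_EXC := by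
  intro X Y _ _ r s k χ T Z B hr hs hT hk
  set E := Z.filter (fun z => s < 2 * (T.filter (fun x => χ x z ∈ B)).card) with hE
  have h1 : E.card * s ^ 2 ≤ ∑ z ∈ E, 8 * r *
      ∑ j ∈ B, (T.offDiag.filter (fun q => χ q.1 z = j ∧ χ q.2 z = j)).card := by
    rw [← smul_eq_mul, ← Finset.sum_const]
    apply Finset.sum_le_sum
    intro z hz
    exact EXC.point r s χ T B z hs (Finset.mem_filter.1 hz).2
  have h2 : ∑ z ∈ E, ∑ j ∈ B,
      (T.offDiag.filter (fun q => χ q.1 z = j ∧ χ q.2 z = j)).card ≤ r * s ^ 2 * k := by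
    rw [Finset.sum_comm]
    have h3 : ∀ j ∈ B, ∑ z ∈ E, (T.offDiag.filter (fun q => χ q.1 z = j ∧ χ q.2 z = j)).card ≤
        s ^ 2 * k := by
      intro j hj
      have h4 : ∑ z ∈ E, (T.offDiag.filter (fun q => χ q.1 z = j ∧ χ q.2 z = j)).card =
          ∑ q ∈ T.offDiag, (E.filter (fun z => χ q.1 z = j ∧ χ q.2 z = j)).card := by
        simp only [Finset.card_filter]
        rw [Finset.sum_comm]
      rw [h4]
      calc ∑ q ∈ T.offDiag, (E.filter (fun z => χ q.1 z = j ∧ χ q.2 z = j)).card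
          ≤ ∑ q ∈ T.offDiag, k := by
            apply Finset.sum_le_sum
            intro q hq
            rw [Finset.mem_offDiag] at hq
            refine le_trans (Finset.card_le_card ?_) (hk j hj q.1 hq.1 q.2 hq.2.1 hq.2.2)
            exact Finset.filter_subset_filter _ (Finset.filter_subset _ _)
        _ = T.offDiag.card * k := by rw [Finset.sum_const, smul_eq_mul]
        _ ≤ s ^ 2 * k := by
            apply Nat.mul_le_mul_right
            rw [Finset.offDiag_card, hT, sq]
            exact Nat.sub_le _ _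
    calc ∑ j ∈ B, ∑ z ∈ E, (T.offDiag.filter (fun q => χ q.1 z = j ∧ χ q.2 z = j)).card
        ≤ ∑ j ∈ B, s ^ 2 * k := Finset.sum_le_sum h3
      _ = B.card * (s ^ 2 * k) := by rw [Finset.sum_const, smul_eq_mul]
      _ ≤ r * (s ^ 2 * k) := by
          apply Nat.mul_le_mul_right
          have := Finset.card_le_univ B
          rwa [Fintype.card_fin] at this
      _ = r * s ^ 2 * k := by ring
  rw [← Finset.mul_sum] at h1
  have h5 : E.card * s ^ 2 ≤ (8 * r ^ 2 * k) * s ^ 2 := by
    calc E.card * s ^ 2 ≤ 8 * r * _ := h1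
      _ ≤ 8 * r * (r * s ^ 2 * k) := Nat.mul_le_mul_left _ h2
      _ = (8 * r ^ 2 * k) * s ^ 2 := by ring
  have hs0 : 0 < s := by omega
  exact Nat.le_of_mul_le_mul_right h5 (by positivity)

end Pool.Agent.K6.H73.TB
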