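import Pool.Agent.K6.H73.TB.Stm

set_option autoImplicit false

namespace Pool.Agent.K6.H73.TB

open Pool.Agent.H948R3.TP Sum

/-- the bound -/
def S_FIN : Prop := ∀ r : ℕ, 1 ≤ r → ∃ C : ℕ, ∀ n m : ℕ, C ≤ n → n ≤ m →
  Nat.log 2 m ^ C ≤ n → tp r n m ≤ 6 * r

namespace FIN

theorem side (hC : S_COMB) (hP : S_PIG) (hR : S_ROUND) {X Y : Type} [DecidableEq X]
    [DecidableEq Y] {r : ℕ} (hr : 1 ≤ r) (t₁ t₂ : ℕ) (h1 : 1 ≤ t₁) (h2 : 1 ≤ t₂)
    (ht : 32 * r ^ 3 * t₁ < 2 ^ t₂) (χ : X → Y → Fin r) (P : Finset X) (Z : Finset Y)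
    (hZ : Z.card < 2 ^ t₁)
    (hb : (32 * r ^ 2 * t₁) ^ (r + 1) + (32 * r ^ 2 * t₂) ^ (r + 1) +
      r ^ (32 * r ^ 3 * t₂) * r + ((r + 8 * r * t₁) + (r + 8 * r * t₂)) ≤ P.card) :
    Side χ P Z (r + (r + r)) ((r + 8 * r * t₁) + ((r + 8 * r * t₂) + r)) 0 := by
  refine hC X Y r r (r + r) (r + 8 * r * t₁) ((r + 8 * r * t₂) + r) (32 * r ^ 3 * t₁) 0 χ P Z
    (hR X Y r t₁ χ P Z hr h1 hZ (by omega)) ?_
  intro P' _ Z' _ hPc hZc
  refine hC X Y r r r (r + 8 * r * t₂) r (32 * r ^ 3 * t₂) 0 χ P' Z'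
    (hR X Y r t₂ χ P' Z' hr h2 (by omega) (by omega)) ?_
  intro P'' _ Z'' _ hPc' hZc'
  refine hP X Y r χ P'' Z'' hr ?_
  have h3 : r ^ Z''.card * r ≤ r ^ (32 * r ^ 3 * t₂) * r :=
    Nat.mul_le_mul_right _ (Nat.pow_le_pow_right hr hZc')
  omega

end FIN

theorem t_FIN (hT : S_TWO) (hC : S_COMB) (hP : S_PIG) (hR : S_ROUND) (hA : S_ARI) : S_FIN := by
  classical
  intro r hr
  obtain ⟨C, hC0⟩ := hA r hr
  refine ⟨C, ?_⟩
  intro n m hn hnm hlog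
  set t₁ := Nat.log 2 m + 1 with ht₁
  set t₂ := Nat.log 2 (32 * r ^ 3 * t₁) + 1 with ht₂
  have hmain := hC0 n m t₁ t₂ hn hnm hlog ht₁ ht₂
  have hm1 : m < 2 ^ t₁ := Nat.lt_pow_succ_log_self (by norm_num) m
  have he1 : 32 * r ^ 3 * t₁ < 2 ^ t₂ := Nat.lt_pow_succ_log_self (by norm_num) _
  have hkey : tp r n m ≤ (r + (r + r)) + (r + (r + r)) := by
    apply tp_le
    intro χ
    refine hT (Fin n) (Fin m) r (r + (r + r)) (r + (r + r))
      ((r + 8 * r * t₁) + ((r + 8 * r * t₂) + r)) ((r + 8 * r * t₁) + ((r + 8 * r * t₂) + r)) χ ?_ ?_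
    · apply FIN.side hC hP hR hr t₁ t₂ (by omega) (by omega) he1
      · rw [Finset.card_univ, Fintype.card_fin]
        exact hm1
      · rw [Finset.card_univ, Fintype.card_fin]
        omega
    · intro P Z hPc
      rw [Fintype.card_fin] at hPc
      apply FIN.side hC hP hR hr t₁ t₂ (by omega) (by omega) he1
      · have : Z.card ≤ n := by
          have := Finset.card_le_univ Z
          rwa [Fintype.card_fin] at this
        omega
      · omega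
  omega

end Pool.Agent.K6.H73.TB
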