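import Pool.Agent.K6.H73.TB.Stm

set_option autoImplicit false

/-!
Greedy choice of centres with colours.
-/

namespace Pool.Agent.K6.H73.TB

namespace GRE

theorem bern (a n : ℕ) : a ^ (n + 1) + (n + 1) * a ^ n ≤ (a + 1) ^ (n + 1) := by
  induction n with
  | zero => simp
  | succ n ih =>
    calc a ^ (n + 1 + 1) + (n + 1 + 1) * a ^ (n + 1)
        ≤ (a + 1) * (a ^ (n + 1) + (n + 1) * a ^ n) := by
          have : (a + 1) * (a ^ (n + 1) + (n + 1) * a ^ n) =
            a ^ (n + 1 + 1) + (n + 1 + 1) * a ^ (n + 1) + (n + 1) * a ^ n := by ring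
          omega
      _ ≤ (a + 1) * (a + 1) ^ (n + 1) := Nat.mul_le_mul le_rfl ih
      _ = (a + 1) ^ (n + 1 + 1) := by ring

theorem two_pow_le (a : ℕ) : 2 * a ^ (a + 1) ≤ (a + 1) ^ (a + 1) := by
  have h1 := bern a a
  have h2 : a ^ (a + 1) ≤ (a + 1) * a ^ a := by
    rw [pow_succ, mul_comm]
    exact Nat.mul_le_mul (by omega) le_rfl
  omega

open Classical in
theorem step {X Y : Type} [DecidableEq X] [DecidableEq Y] (r t : ℕ)
    (χ : X → Y → Fin r) (T : Finset X) (W : Finset Y) (A : Finset (Fin r))
    (hr : 1 ≤ r) (hT : 16 * r * t ≤ T.card)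
    (hz : ∀ z ∈ W, T.card ≤ 2 * (T.filter (fun x => χ x z ∈ A)).card) (m : ℕ)
    (hm : m ≤ 4 * r * t) :
    ∃ (K : Finset X) (c : X → Fin r), K ⊆ T ∧ K.card ≤ m ∧ (∀ x ∈ K, c x ∈ A) ∧
      (W.filter (fun z => ¬ ∃ x ∈ K, χ x z = c x)).card * (4 * r) ^ m ≤
        (4 * r - 1) ^ m * W.card := by
  induction m with
  | zero =>
    refine ⟨∅, fun _ => ⟨0, hr⟩, by simp, by simp, by simp, ?_⟩
    simp
  | succ m ih =>
    obtain ⟨K, c, hK, hKm, hc, hU⟩ := ih (by omega)
    set U := W.filter (fun z => ¬ ∃ x ∈ K, χ x z = c x) with hUdef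
    by_cases hU0 : U.card = 0
    · refine ⟨K, c, hK, by omega, hc, ?_⟩
      rw [← hUdef, hU0, zero_mul]
      exact Nat.zero_le _
    have hTpos : 0 < T.card := by
      have : 0 < 16 * r * t := by
        have h1 : 0 < 4 * r * t := by omega
        nlinarith
      omega
    -- the good pair
    have hex : ∃ x ∈ T \ K, ∃ i ∈ A,
        U.card ≤ 4 * r * (U.filter (fun z => χ x z = i)).card := by
      by_contra hcon
      push Not at hcon
      have h1 : ∀ z ∈ U, T.card ≤ 4 * ((T \ K).filter (fun x => χ x z ∈ A)).card := by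
        intro z hzU
        have hzW : z ∈ W := (Finset.mem_filter.1 hzU).1
        have h2 := hz z hzW
        have h3 : (T.filter (fun x => χ x z ∈ A)).card ≤
            ((T \ K).filter (fun x => χ x z ∈ A)).card + K.card := by
          refine le_trans (Finset.card_le_card ?_) (Finset.card_union_le _ _)
          intro x hx
          rw [Finset.mem_filter] at hx
          rw [Finset.mem_union, Finset.mem_filter, Finset.mem_sdiff]
          by_cases hxK : x ∈ K
          · exact Or.inr hxK
          · exact Or.inl ⟨⟨hx.1, hxK⟩, hx.2⟩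
        have h4 : 16 * r * t = 4 * (4 * r * t) := by ring
        omega
      have h2 : U.card * T.card ≤
          4 * ∑ z ∈ U, ((T \ K).filter (fun x => χ x z ∈ A)).card := by
        rw [Finset.mul_sum, ← smul_eq_mul, ← Finset.sum_const]
        exact Finset.sum_le_sum h1
      have h3 : ∑ z ∈ U, ((T \ K).filter (fun x => χ x z ∈ A)).card =
          ∑ x ∈ T \ K, ∑ i ∈ A, (U.filter (fun z => χ x z = i)).card := by
        have e1 : ∀ z, ((T \ K).filter (fun x => χ x z ∈ A)).card =
            ∑ x ∈ T \ K, ∑ i ∈ A, if χ x z = i then 1 else 0 := by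
          intro z
          rw [Finset.card_filter]
          refine Finset.sum_congr rfl fun x _ => ?_
          rw [Finset.sum_ite_eq]
        simp_rw [e1, Finset.card_filter]
        rw [Finset.sum_comm]
        refine Finset.sum_congr rfl fun x _ => ?_
        rw [Finset.sum_comm]
      have h4 : 4 * r * ∑ x ∈ T \ K, ∑ i ∈ A, (U.filter (fun z => χ x z = i)).card ≤
          (T.card * r) * (U.card - 1) := by
        rw [Finset.mul_sum]
        have e2 : ∀ x ∈ T \ K, 4 * r * ∑ i ∈ A, (U.filter (fun z => χ x z = i)).card ≤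
            r * (U.card - 1) := by
          intro x hx
          rw [Finset.mul_sum]
          calc ∑ i ∈ A, 4 * r * (U.filter (fun z => χ x z = i)).card
              ≤ ∑ i ∈ A, (U.card - 1) := Finset.sum_le_sum fun i hi => by
                have := hcon x hx i hi
                omega
            _ = A.card * (U.card - 1) := by rw [Finset.sum_const, smul_eq_mul]
            _ ≤ r * (U.card - 1) := by
                refine Nat.mul_le_mul ?_ le_rfl
                simpa using Finset.card_le_univ A
        calc ∑ x ∈ T \ K, 4 * r * ∑ i ∈ A, (U.filter (fun z => χ x z = i)).card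
            ≤ ∑ x ∈ T \ K, r * (U.card - 1) := Finset.sum_le_sum e2
          _ = (T \ K).card * (r * (U.card - 1)) := by rw [Finset.sum_const, smul_eq_mul]
          _ ≤ T.card * (r * (U.card - 1)) :=
              Nat.mul_le_mul (Finset.card_le_card Finset.sdiff_subset) le_rfl
          _ = _ := by ring
      rw [h3] at h2
      have h5 : r * (U.card * T.card) ≤ (T.card * r) * (U.card - 1) := by
        calc r * (U.card * T.card)
            ≤ r * (4 * ∑ x ∈ T \ K, ∑ i ∈ A, (U.filter (fun z => χ x z = i)).card) :=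
              Nat.mul_le_mul le_rfl h2
          _ = 4 * r * ∑ x ∈ T \ K, ∑ i ∈ A, (U.filter (fun z => χ x z = i)).card := by ring
          _ ≤ _ := h4
      have h6 : (T.card * r) * (U.card - 1) < (T.card * r) * U.card :=
        Nat.mul_lt_mul_of_pos_left (by omega) (Nat.mul_pos hTpos (by omega))
      have h7 : r * (U.card * T.card) = (T.card * r) * U.card := by ring
      omega
    obtain ⟨x, hx, i, hi, hxi⟩ := hex
    rw [Finset.mem_sdiff] at hx
    refine ⟨insert x K, Function.update c x i, ?_, ?_, ?_, ?_⟩
    · exact Finset.insert_subset hx.1 hK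
    · exact le_trans (Finset.card_insert_le _ _) (by omega)
    · intro y hy
      rcases Finset.mem_insert.1 hy with h | h
      · rw [h, Function.update_self]
        exact hi
      · have hne : y ≠ x := fun he => hx.2 (he ▸ h)
        rw [Function.update_of_ne hne]
        exact hc y h
    · set U' := W.filter (fun z => ¬ ∃ y ∈ insert x K, χ y z = Function.update c x i y)
        with hU'def
      have h1 : U'.card + (U.filter (fun z => χ x z = i)).card ≤ U.card := by
        rw [← Finset.card_union_of_disjoint]
        · refine Finset.card_le_card ?_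
          intro z hz'
          rcases Finset.mem_union.1 hz' with h | h
          · rw [hU'def, Finset.mem_filter] at h
            rw [hUdef, Finset.mem_filter]
            refine ⟨h.1, ?_⟩
            rintro ⟨y, hy, hyz⟩
            apply h.2
            have hne : y ≠ x := fun he => hx.2 (he ▸ hy)
            exact ⟨y, Finset.mem_insert_of_mem hy, by rw [Function.update_of_ne hne]; exact hyz⟩
          · exact (Finset.mem_filter.1 h).1
        · rw [Finset.disjoint_left]
          intro z hz1 hz2
          rw [hU'def, Finset.mem_filter] at hz1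
          apply hz1.2
          exact ⟨x, Finset.mem_insert_self _ _, by
            rw [Function.update_self]; exact (Finset.mem_filter.1 hz2).2⟩
      have h2 : 4 * r * U'.card ≤ (4 * r - 1) * U.card := by
        have e1 : 4 * r * U'.card + 4 * r * (U.filter (fun z => χ x z = i)).card ≤
            4 * r * U.card := by
          rw [← mul_add]
          exact Nat.mul_le_mul le_rfl h1
        rw [Nat.sub_mul, one_mul]
        omega
      calc U'.card * (4 * r) ^ (m + 1) = (4 * r * U'.card) * (4 * r) ^ m := by ring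
        _ ≤ ((4 * r - 1) * U.card) * (4 * r) ^ m := Nat.mul_le_mul h2 le_rfl
        _ = (4 * r - 1) * (U.card * (4 * r) ^ m) := by ring
        _ ≤ (4 * r - 1) * ((4 * r - 1) ^ m * W.card) := Nat.mul_le_mul le_rfl hU
        _ = (4 * r - 1) ^ (m + 1) * W.card := by ring

end GRE

open GRE

theorem t_GRE : S_GRE := by
  classical
  intro X Y _ _ r t χ T W A hr hW hT hz
  obtain ⟨K, c, hK, hKm, hc, hU⟩ := step r t χ T W A hr hT hz (4 * r * t) le_rfl
  refine ⟨K, c, hK, hKm, hc, ?_⟩
  set U := W.filter (fun z => ¬ ∃ x ∈ K, χ x z = c x) with hUdef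
  have h0 : U.card = 0 := by
    by_contra hne
    have hpos : 0 < U.card := Nat.pos_of_ne_zero hne
    have h1 : 2 ^ t * (4 * r - 1) ^ (4 * r * t) ≤ (4 * r) ^ (4 * r * t) := by
      have h2 := two_pow_le (4 * r - 1)
      have h3 : 4 * r - 1 + 1 = 4 * r := by omega
      rw [h3] at h2
      rw [pow_mul (4 * r - 1), pow_mul (4 * r), ← mul_pow]
      exact Nat.pow_le_pow_left h2 t
    have h4 : 0 < (4 * r - 1) ^ (4 * r * t) := Nat.pow_pos (by omega)
    have h5 : (4 * r - 1) ^ (4 * r * t) * (U.card * 2 ^ t) ≤
        (4 * r - 1) ^ (4 * r * t) * W.card := by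
      calc (4 * r - 1) ^ (4 * r * t) * (U.card * 2 ^ t)
          = U.card * (2 ^ t * (4 * r - 1) ^ (4 * r * t)) := by ring
        _ ≤ U.card * (4 * r) ^ (4 * r * t) := Nat.mul_le_mul le_rfl h1
        _ ≤ _ := hU
    have h6 := Nat.le_of_mul_le_mul_left h5 h4
    have h7 : 2 ^ t ≤ U.card * 2 ^ t := Nat.le_mul_of_pos_left _ hpos
    omega
  intro z hzW
  by_contra hcon
  have : z ∈ U := Finset.mem_filter.2 ⟨hzW, hcon⟩
  rw [Finset.card_eq_zero.1 h0] at this
  exact absurd this (Finset.notMem_empty _)

end Pool.Agent.K6.H73.TB
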