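import Pool.Agent.K6.H73.TB.Stm

set_option autoImplicit false

/-!
`S_IND`: an independent set for sparse relations.
-/

namespace Pool.Agent.K6.H73.TB

theorem t_IND : S_IND := by
  intro X _ r s H _ B S hsym hsp hS
  have key : ∀ m ≤ s, ∃ T ⊆ S, T.card = m ∧ ∀ j ∈ B, ∀ x ∈ T, ∀ y ∈ T, x ≠ y → ¬ H j x y := by
    intro m
    induction m with
    | zero => exact fun _ => ⟨∅, by simp, by simp, by simp⟩
    | succ m ih =>
      intro hm
      obtain ⟨T, hTS, hTc, hT⟩ := ih (by omega)
      let F : Finset X := T ∪ T.biUnion (fun x => B.biUnion (fun j => S.filter (H j x)))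
      let Q : ℕ := ∑ x ∈ T, ∑ j ∈ B, (S.filter (H j x)).card
      have hF : F.card ≤ m + Q := by
        refine (Finset.card_union_le _ _).trans ?_
        rw [hTc]
        refine Nat.add_le_add_left ?_ m
        refine Finset.card_biUnion_le.trans (Finset.sum_le_sum fun x _ => ?_)
        exact Finset.card_biUnion_le
      have hQ : 2 * s * Q ≤ m * S.card := by
        rcases Nat.eq_zero_or_pos r with hr | hr
        · have hB : B = ∅ := by
            subst hr
            ext j
            exact j.elim0
          simp [Q, hB]
        · have h1 : r * (2 * s * Q) ≤ r * (m * S.card) := by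
            calc r * (2 * s * Q) = ∑ x ∈ T, ∑ j ∈ B, 2 * r * s * (S.filter (H j x)).card := by
                  simp only [Q, Finset.mul_sum]
                  refine Finset.sum_congr rfl fun x _ => Finset.sum_congr rfl fun j _ => ?_
                  ring
              _ ≤ ∑ x ∈ T, ∑ j ∈ B, S.card :=
                  Finset.sum_le_sum fun x hx => Finset.sum_le_sum fun j hj => hsp j hj x (hTS hx)
              _ = m * (B.card * S.card) := by
                  rw [Finset.sum_const, Finset.sum_const, smul_eq_mul, smul_eq_mul, hTc]
              _ ≤ m * (r * S.card) := by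
                  refine Nat.mul_le_mul_left _ (Nat.mul_le_mul_right _ ?_)
                  have := Finset.card_le_univ B
                  rwa [Fintype.card_fin] at this
              _ = r * (m * S.card) := by ring
          exact Nat.le_of_mul_le_mul_left h1 hr
      have hlt : F.card < S.card := by
        have h0 : 0 < S.card := by omega
        have h1 : 2 * s * (m + Q) < 2 * s * S.card := by
          have h2 : 2 * s * m ≤ S.card * m := Nat.mul_le_mul_right m hS
          have h3 : 2 * (m * S.card) < 2 * (s * S.card) := by
            have := Nat.mul_lt_mul_of_pos_right (show m < s by omega) h0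
            omega
          nlinarith
        exact lt_of_le_of_lt hF (Nat.lt_of_mul_lt_mul_left h1)
      obtain ⟨y, hyS, hyF⟩ := Finset.exists_mem_notMem_of_card_lt_card hlt
      have hyT : y ∉ T := fun h => hyF (Finset.mem_union_left _ h)
      have hyH : ∀ x ∈ T, ∀ j ∈ B, ¬ H j x y := by
        intro x hx j hj h
        apply hyF
        refine Finset.mem_union_right _ ?_
        rw [Finset.mem_biUnion]
        refine ⟨x, hx, ?_⟩
        rw [Finset.mem_biUnion]
        exact ⟨j, hj, Finset.mem_filter.2 ⟨hyS, h⟩⟩
      refine ⟨insert y T, Finset.insert_subset hyS hTS, by rw [Finset.card_insert_of_notMem hyT, hTc],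
        ?_⟩
      intro j hj x hx x' hx' hne
      rcases Finset.mem_insert.1 hx with h1 | h1
      · rcases Finset.mem_insert.1 hx' with h2 | h2
        · exact absurd (h1.trans h2.symm) hne
        · rw [h1]
          exact fun h => hyH x' h2 j hj (hsym j _ _ h)
      · rcases Finset.mem_insert.1 hx' with h2 | h2
        · rw [h2]
          exact hyH x h1 j hj
        · exact hT j hj x h1 x' h2 hne
  exact key s le_rfl

end Pool.Agent.K6.H73.TB
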