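import Pool.Agent.K6.H73.TB.Stm

/-!
# PIG
-/

set_option autoImplicit false

namespace Pool.Agent.K6.H73.TB

open Pool.Agent.H948R3.TP Sum

theorem t_PIG : S_PIG := by
  intro X Y _ _ r χ P Z hr hP
  classical
  obtain ⟨p, -, hp⟩ := Finset.exists_le_card_fiber_of_mul_le_card_of_maps_to
    (s := P) (t := (Finset.univ : Finset (Z → Fin r))) (n := r)
    (f := fun x (z : Z) => χ x z.1) (fun _ _ => Finset.mem_univ _)
    ⟨fun _ => ⟨0, hr⟩, Finset.mem_univ _⟩ (by simpa using hP)
  obtain ⟨T, hT, hTc⟩ := Finset.exists_subset_card_eq hp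
  let e : Fin r ≃ T := (T.equivFinOfCardEq hTc).symm
  have hmem : ∀ s : Fin r, ((e s : X) ∈ P) ∧ (fun z : Z => χ (e s : X) z.1) = p := by
    intro s
    exact Finset.mem_filter.1 (hT (e s).2)
  refine ⟨∅, Finset.empty_subset _, by simp, fun s => {inl (e s : X)}, id, ?_, ?_, ?_, ?_, ?_⟩
  · intro s t hst
    rw [Finset.disjoint_singleton]
    intro h
    exact hst (e.injective (Subtype.ext (Sum.inl.inj h)))
  · intro s _
    refine conn_x χ _ _ (e s : X) (by simp) ?_ ?_
    · intro y hy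
      simp at hy
    · intro x hx
      left
      simpa using hx
  · intro s
    rw [Finset.singleton_subset_iff, Finset.inl_mem_disjSum]
    exact (hmem s).1
  · refine Finset.card_biUnion_le.trans ?_
    simp
  · intro z hz _
    right
    refine ⟨p ⟨z, hz⟩, (e (p ⟨z, hz⟩) : X), by simp, ?_⟩
    exact congrFun (hmem (p ⟨z, hz⟩)).2 ⟨z, hz⟩

end Pool.Agent.K6.H73.TB
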