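import Pool.Agent.K6.H73.TB.Stm

set_option autoImplicit false

namespace Pool.Agent.K6.H73.TB

open Pool.Agent.H948R3.TP Sum

theorem t_ROUND (h1 : S_SEL) (h2 : S_IND) (h3 : S_EXC) (h4 : S_GRE) (h5 : S_CON) : S_ROUND := by
  classical
  intro X Y _ _ r t χ P Z hr ht hZ hP
  set k := 4 * r * t with hk
  set s := 16 * r * t with hs
  set d := 2 * r * s with hd
  have hdd : d = 32 * r ^ 2 * t := by rw [hd, hs]; ring
  have hrt : 1 ≤ r * t := Nat.mul_pos hr ht
  have hs1 : 16 ≤ s := by rw [hs]; nlinarith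
  have hd1 : 1 ≤ d := by rw [hd]; nlinarith
  have hPne : P.Nonempty := by
    rw [← Finset.card_pos]
    refine lt_of_lt_of_le ?_ hP
    apply Nat.pow_pos
    rw [← hdd]
    exact hd1
  let H : Fin r → X → X → Prop := fun j x y => x ≠ y ∧
    k ≤ (Z.filter (fun z => χ x z = j ∧ χ y z = j)).card
  obtain ⟨A, S, root, hSP, hcard, hroot, hdist, hsparse⟩ := h1 X r d H P hd1 hPne
    (fun i x h => h.1 rfl)
  have hScard : d ≤ S.card := by
    rw [← hdd, pow_succ] at hP
    have h6 : d ^ r * d ≤ d ^ r * S.card := hP.trans hcard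
    exact Nat.le_of_mul_le_mul_left h6 (Nat.pow_pos hd1)
  have h2s : 2 * s ≤ S.card := by
    refine le_trans ?_ hScard
    rw [hd]
    nlinarith
  obtain ⟨T, hTS, hTcard, hTind⟩ := h2 X r s H Aᶜ S
    (by
      rintro i x y ⟨hne, hle⟩
      refine ⟨hne.symm, ?_⟩
      have e : Z.filter (fun z => χ y z = i ∧ χ x z = i) =
          Z.filter (fun z => χ x z = i ∧ χ y z = i) := by
        ext z
        simp only [Finset.mem_filter, and_comm]
      rw [e]
      exact hle)
    (by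
      intro j hj x hx
      exact hsparse j (Finset.mem_compl.1 hj) x hx) h2s
  set E := Z.filter (fun z => s < 2 * (T.filter (fun x => χ x z ∈ Aᶜ)).card) with hE
  have hEcard : E.card ≤ 8 * r ^ 2 * k := by
    apply h3 X Y r s k χ T Z Aᶜ hr (by rw [hs]; nlinarith) hTcard
    intro j hj x hx y hy hne
    by_contra hcon
    push Not at hcon
    exact hTind j hj x hx y hy hne ⟨hne, hcon.le⟩
  obtain ⟨K, c, hKT, hKcard, hcA, hcov⟩ := h4 X Y r t χ T (Z \ E) A hr
    (lt_of_le_of_lt (Finset.card_le_card Finset.sdiff_subset) hZ) (by rw [hTcard])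
    (by
      intro z hz
      rw [Finset.mem_sdiff, hE, Finset.mem_filter] at hz
      have h6 : ¬ s < 2 * (T.filter (fun x => χ x z ∈ Aᶜ)).card := fun h => hz.2 ⟨hz.1, h⟩
      have h7 := Finset.card_filter_add_card_filter_not (s := T) (fun x => χ x z ∈ A)
      have h8 : (T.filter (fun x => χ x z ∈ Aᶜ)) = T.filter (fun x => ¬ χ x z ∈ A) := by
        ext x
        simp only [Finset.mem_filter, Finset.mem_compl]
      rw [h8] at h6
      rw [hTcard] at h7 ⊢
      omega)
  obtain ⟨C, hC1, hC2, hC3, hC4, hC5⟩ := h5 X Y r k χ P Z A root K c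
    ((hKT.trans hTS).trans hSP) hKcard
    (fun i hi => ⟨(hroot i hi).1, fun h => (hroot i hi).2.1 (hTS (hKT h))⟩)
    hdist
    (fun x hx => ⟨hcA x hx, ((hroot (c x) (hcA x hx)).2.2 x (hTS (hKT hx))).2⟩)
  refine ⟨E, Finset.filter_subset _ _, ?_, C, id, hC1, hC2, hC3, ?_, ?_⟩
  · refine hEcard.trans (le_of_eq ?_)
    rw [hk]; ring
  · refine hC4.trans (le_of_eq ?_)
    rw [hk]; ring
  · intro z hz hzE
    right
    obtain ⟨x, hx, hxz⟩ := hcov z (Finset.mem_sdiff.2 ⟨hz, hzE⟩)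
    exact ⟨c x, x, hC5 x hx, hxz⟩

end Pool.Agent.K6.H73.TB
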