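import Pool.Agent.K6.H73.TB.Stm

set_option autoImplicit false

/-!
`S_SEL`: choice of a large set and of a set of colours with roots.
-/

namespace Pool.Agent.K6.H73.TB

namespace SEL

theorem aux {X : Type} [DecidableEq X] {r d : ℕ} (H : Fin r → X → X → Prop)
    [∀ i x, DecidablePred (H i x)] (P : Finset X) (hd : 1 ≤ d) (hirr : ∀ i x, ¬ H i x x) :
    ∀ (k : ℕ) (A : Finset (Fin r)) (S : Finset X) (root : Fin r → X), r ≤ A.card + k →
      S ⊆ P → P.card ≤ d ^ A.card * S.card →
      (∀ i ∈ A, root i ∈ P ∧ root i ∉ S ∧ ∀ y ∈ S, H i (root i) y) →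
      (∀ i ∈ A, ∀ j ∈ A, root i = root j → i = j) →
      ∃ (A : Finset (Fin r)) (S : Finset X) (root : Fin r → X), S ⊆ P ∧
        P.card ≤ d ^ r * S.card ∧
        (∀ i ∈ A, root i ∈ P ∧ root i ∉ S ∧ ∀ y ∈ S, H i (root i) y) ∧
        (∀ i ∈ A, ∀ j ∈ A, root i = root j → i = j) ∧
        ∀ j, j ∉ A → ∀ x ∈ S, d * (S.filter (H j x)).card ≤ S.card := by
  intro k
  induction k with
  | zero =>
    intro A S root hk hSP hc h1 h2
    have hA : A = Finset.univ := by
      apply Finset.eq_univ_of_card
      rw [Fintype.card_fin]
      have := Finset.card_le_univ A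
      rw [Fintype.card_fin] at this
      omega
    have hcr : A.card = r := by rw [hA, Finset.card_univ, Fintype.card_fin]
    refine ⟨A, S, root, hSP, by rw [hcr] at hc; exact hc, h1, h2, ?_⟩
    intro j hj
    exact absurd (by rw [hA]; exact Finset.mem_univ j) hj
  | succ k ih =>
    intro A S root hk hSP hc h1 h2
    by_cases hf : ∀ j, j ∉ A → ∀ x ∈ S, d * (S.filter (H j x)).card ≤ S.card
    · refine ⟨A, S, root, hSP, hc.trans (Nat.mul_le_mul_right _ (Nat.pow_le_pow_right hd ?_)), h1, h2,
        hf⟩
      have := Finset.card_le_univ A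
      rwa [Fintype.card_fin] at this
    · push Not at hf
      obtain ⟨j, hj, x, hx, hlt⟩ := hf
      have hsub : S.filter (H j x) ⊆ S := Finset.filter_subset _ _
      refine ih (insert j A) (S.filter (H j x)) (Function.update root j x) ?_ (hsub.trans hSP) ?_ ?_ ?_
      · rw [Finset.card_insert_of_notMem hj]
        omega
      · rw [Finset.card_insert_of_notMem hj, pow_succ, mul_assoc]
        exact hc.trans (Nat.mul_le_mul_left _ hlt.le)
      · intro i hi
        by_cases hij : i = j
        · subst hij
          rw [Function.update_self]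
          refine ⟨hSP hx, ?_, ?_⟩
          · intro hmem
            exact hirr i x (Finset.mem_filter.1 hmem).2
          · intro y hy
            exact (Finset.mem_filter.1 hy).2
        · rw [Function.update_of_ne hij]
          have hi' : i ∈ A := (Finset.mem_insert.1 hi).resolve_left hij
          obtain ⟨a1, a2, a3⟩ := h1 i hi'
          exact ⟨a1, fun hmem => a2 (hsub hmem), fun y hy => a3 y (hsub hy)⟩
      · intro i hi i' hi' he
        by_cases hij : i = j
        · by_cases hij' : i' = j
          · rw [hij, hij']
          · exfalso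
            have hm' : i' ∈ A := (Finset.mem_insert.1 hi').resolve_left hij'
            rw [hij, Function.update_self, Function.update_of_ne hij'] at he
            exact (h1 i' hm').2.1 (he ▸ hx)
        · have hm : i ∈ A := (Finset.mem_insert.1 hi).resolve_left hij
          by_cases hij' : i' = j
          · exfalso
            rw [hij', Function.update_self, Function.update_of_ne hij] at he
            exact (h1 i hm).2.1 (he ▸ hx)
          · have hm' : i' ∈ A := (Finset.mem_insert.1 hi').resolve_left hij'
            rw [Function.update_of_ne hij, Function.update_of_ne hij'] at he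
            exact h2 i hm i' hm' he

end SEL

theorem t_SEL : S_SEL := by
  intro X _ r d H _ P hd hP hirr
  obtain ⟨x0, _⟩ := hP
  refine SEL.aux H P hd hirr r ∅ P (fun _ => x0) (by simp) (Finset.Subset.refl _) (by simp) ?_ ?_
  · intro i hi
    simp at hi
  · intro i hi
    simp at hi

end Pool.Agent.K6.H73.TB
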