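import Pool.Agent.K6.H73.TB.Stm

/-!
# TWO
-/

set_option autoImplicit false

namespace Pool.Agent.K6.H73.TB

open Pool.Agent.H948R3.TP Sum

private theorem conn_swap {X Y : Type} {r : ℕ} (χ : X → Y → Fin r) (i : Fin r)
    (S : Set (Y ⊕ X)) (h : ((colG (fun y x => χ x y) i).induce S).Connected) :
    ((colG χ i).induce {v | v.swap ∈ S}).Connected := by
  let e : ((colG (fun y x => χ x y) i).induce S) →g ((colG χ i).induce {v | v.swap ∈ S}) :=
    { toFun := fun v => ⟨v.1.swap, by
        show v.1.swap.swap ∈ S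
        rw [Sum.swap_swap]
        exact v.2⟩
      map_rel' := by
        rintro ⟨u, hu⟩ ⟨w, hw⟩ huw
        change (colG (fun y x => χ x y) i).Adj u w at huw
        show (colG χ i).Adj u.swap w.swap
        rcases huw with ⟨x, y, h1, h2, h3⟩ | ⟨x, y, h1, h2, h3⟩
        · subst h1; subst h2; exact adj_rl.2 h3
        · subst h1; subst h2; exact adj_lr.2 h3 }
  refine SimpleGraph.Connected.map e ?_ h
  rintro ⟨w, hw⟩
  exact ⟨⟨w.swap, hw⟩, by simp [e]⟩

theorem t_TWO (h : S_GLUE) : S_TWO := by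
  intro X Y _ _ _ _ r q q' N N' χ h1 h2
  classical
  obtain ⟨E, hE, hEc, C, col, hd, hc, hs, hN, hz⟩ := h1
  have hE0 : E = ∅ := Finset.card_eq_zero.1 (Nat.le_zero.1 hEc)
  subst hE0
  set F : Finset (X ⊕ Y) := Finset.univ.biUnion C with hF
  have hCF : ∀ s, C s ⊆ F := fun s => Finset.subset_biUnion_of_mem C (Finset.mem_univ s)
  obtain ⟨E', hE', hEc', C', col', hd', hc', hs', hN', hz'⟩ :=
    h2 (Finset.univ.filter fun y => (inr y : X ⊕ Y) ∉ F)
      (Finset.univ.filter fun x => (inl x : X ⊕ Y) ∉ F)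
      (by
        have h3 := Finset.card_filter_add_card_filter_not (s := (Finset.univ : Finset Y))
          (fun y => (inr y : X ⊕ Y) ∈ F)
        have h4 : (Finset.univ.filter fun y => (inr y : X ⊕ Y) ∈ F).card ≤ F.card := by
          refine Finset.card_le_card_of_injOn inr ?_ ?_
          · intro x hx
            exact (Finset.mem_filter.1 hx).2
          · intro x _ y _ hxy
            exact Sum.inr.inj hxy
        rw [Finset.card_univ] at h3
        omega)
  have hE0 : E' = ∅ := Finset.card_eq_zero.1 (Nat.le_zero.1 hEc')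
  subst hE0
  have hdisj : ∀ t, ∀ v : X ⊕ Y, v.swap ∈ C' t → v ∉ F := by
    intro t v hv
    have h3 := hs' t hv
    rcases v with x | z
    · rw [Sum.swap_inl, Finset.inr_mem_disjSum, Finset.mem_filter] at h3
      exact h3.2
    · rw [Sum.swap_inr, Finset.inl_mem_disjSum, Finset.mem_filter] at h3
      exact h3.2
  refine h X Y (Fin q ⊕ Fin q') r (q + q') χ
    (Sum.elim (fun s => (C s : Set (X ⊕ Y))) fun t => {v | v.swap ∈ (C' t : Set (Y ⊕ X))})
    (Sum.elim col col') (by simp) ?_ ?_ ?_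
  · rintro (s | s) (t | t) hst
    · exact Finset.disjoint_coe.2 (hd s t fun h => hst (by rw [h]))
    · rw [Set.disjoint_left]
      intro v hv hv'
      exact hdisj t v hv' (hCF s hv)
    · rw [Set.disjoint_left]
      intro v hv hv'
      exact hdisj s v hv (hCF t hv')
    · rw [Set.disjoint_left]
      intro v hv hv'
      exact Finset.disjoint_left.1 (hd' s t fun h => hst (by rw [h])) hv hv'
  · rintro (s | s) hne
    · exact hc s hne
    · obtain ⟨v, hv⟩ := hne
      exact conn_swap χ (col' s) _ (hc' s ⟨v.swap, hv⟩)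
  · rintro (x | z)
    · by_cases hxF : (inl x : X ⊕ Y) ∈ F
      · rw [hF, Finset.mem_biUnion] at hxF
        obtain ⟨s, -, hsx⟩ := hxF
        exact Or.inl ⟨inl s, hsx⟩
      · rcases hz' x (Finset.mem_filter.2 ⟨Finset.mem_univ _, hxF⟩) (Finset.notMem_empty _) with
          ⟨s, hsz⟩ | ⟨s, y, hy, hxy⟩
        · exact Or.inl ⟨inr s, hsz⟩
        · exact Or.inr ⟨inr s, inr y, hy, adj_lr.2 hxy⟩
    · rcases hz z (Finset.mem_univ _) (Finset.notMem_empty _) with ⟨s, hsz⟩ | ⟨s, x, hx, hxz⟩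
      · exact Or.inl ⟨inl s, hsz⟩
      · exact Or.inr ⟨inl s, inl x, hx, adj_rl.2 hxz⟩

end Pool.Agent.K6.H73.TB
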