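import Pool.Agent.K6.H73.TB.GLUE
import Pool.Agent.K6.H73.TB.TWO
import Pool.Agent.K6.H73.TB.COMB
import Pool.Agent.K6.H73.TB.PIG
import Pool.Agent.K6.H73.TB.SEL
import Pool.Agent.K6.H73.TB.IND
import Pool.Agent.K6.H73.TB.EXC
import Pool.Agent.K6.H73.TB.GRE
import Pool.Agent.K6.H73.TB.CONN
import Pool.Agent.K6.H73.TB.ARI
import Pool.Agent.K6.H73.TB.ROUND
import Pool.Agent.K6.H73.TB.FIN

set_option autoImplicit false

namespace Pool.Agent.K6.H73.TB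

theorem p_ROUND : S_ROUND := t_ROUND t_SEL t_IND t_EXC t_GRE t_CON

theorem p_FIN : S_FIN := t_FIN (t_TWO t_GLUE) t_COMB t_PIG p_ROUND t_ARI

end Pool.Agent.K6.H73.TB
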