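import Pool.Agent.K6.H73.TB.Stm2

set_option autoImplicit false

/-!
Few vertices are not structured.
-/

namespace Pool.Agent.K6.H73.TB

open Finset in
theorem t_EX2 : S_EX2 := by
  classical
  intro X Y _ _ r q χ
  set P : Finset (Fin r × X × X) :=
    (univ : Finset (Fin r × X × X)).filter fun p => p.2.1 ≠ p.2.2 ∧ com χ p.1 p.2.1 p.2.2 < q
    with hP
  refine ⟨P.biUnion fun p => univ.filter fun z => χ p.2.1 z = p.1 ∧ χ p.2.2 z = p.1, ?_, ?_⟩
  · have h1 : ∀ p ∈ P, (univ.filter fun z => χ p.2.1 z = p.1 ∧ χ p.2.2 z = p.1).card ≤ q := by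
      intro p hp
      have := (mem_filter.1 hp).2.2
      unfold com at this
      exact this.le
    have h2 : P.card ≤ r * Fintype.card X ^ 2 := by
      refine (card_le_univ P).trans ?_
      simp [Fintype.card_prod, sq]
    exact (card_biUnion_le_card_mul _ _ _ h1).trans (Nat.mul_le_mul_right _ h2)
  · intro y hy x x' hne he
    by_contra hlt
    apply hy
    rw [mem_biUnion]
    refine ⟨(χ x y, x, x'), ?_, ?_⟩
    · rw [hP, mem_filter]
      exact ⟨mem_univ _, hne, not_le.1 hlt⟩
    · rw [mem_filter]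
      exact ⟨mem_univ _, rfl, he.symm⟩

end Pool.Agent.K6.H73.TB
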