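import Pool.Agent.K6.H73.TB.Stm2
import Pool.Agent.K6.H73.TB.FIN

set_option autoImplicit false

namespace Pool.Agent.K6.H73.TB

open Pool.Agent.H948R3.TP Sum

/-- the bound up to the threshold -/
def S_FIN2 : Prop := ∀ r D : ℕ, 2 ≤ r → 1 ≤ D → ∃ B : ℕ, ∀ n m : ℕ, B ≤ n → n ≤ m →
  m ^ D * (r - 1) ^ ((D - 1) * n) ≤ r ^ ((D - 1) * n) → tp r n m ≤ 6 * r + 16 * r ^ 2 * D

theorem t_FIN2 (hGL : S_GLU3) (hEX : S_EX2) (hSTR : S_STR) (hC : S_COMB) (hP : S_PIG)
    (hR : S_ROUND) (hF : S_FIN) (hLOG : S_LOG) (hNUM : S_NUM) : S_FIN2 := by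
  classical
  intro r D hr hD
  obtain ⟨n₀, hn₀⟩ := hNUM r D hr hD
  obtain ⟨C₁, hC₁⟩ := hF r (by omega)
  obtain ⟨n₁, hn₁⟩ := hLOG 3 C₁
  set B := n₀ + n₁ + C₁ + 2 with hB
  refine ⟨B, ?_⟩
  intro n m hnB hnm hm
  have hrest : tp r n m ≤ r * 3 + r * (8 * (2 * r * D)) + r * 3 := by
    by_cases h4 : m ≤ 4 * n
    · -- nearly balanced
      refine (hC₁ n m (by omega) hnm ?_).trans (by
        have : 0 ≤ r * (8 * (2 * r * D)) := Nat.zero_le _
        omega)
      have h5 := hn₁ n (by omega)
      refine le_trans ?_ h5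
      apply Nat.pow_le_pow_left
      have h6 : Nat.log 2 m ≤ Nat.log 2 (4 * n) := Nat.log_mono_right h4
      have h7 : Nat.log 2 (4 * n) = Nat.log 2 n + 2 := by
        have hn0 : n ≠ 0 := by omega
        have e : 4 * n = n * 2 * 2 := by ring
        rw [e, Nat.log_mul_base (by norm_num) (by omega), Nat.log_mul_base (by norm_num) hn0]
      omega
    · push Not at h4
      set t := Nat.log 2 n + 1 with ht
      set t₁ := Nat.log 2 (2 * r * n ^ 3) + 1 with ht₁
      set t₂ := Nat.log 2 (32 * r ^ 3 * t₁) + 1 with ht₂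
      set N := (r + 8 * r * t₁) + ((r + 8 * r * t₂) + r) with hN
      set a := 2 * r * D with ha
      set h := r * (8 * a + 64 * a ^ 2 * t) with hh
      obtain ⟨hk1, hk2, hk3, hk4, g, hg1, hg2⟩ := hn₀ n t t₁ t₂ N h a (by omega) ht ht₁ ht₂ hN ha hh
      have ha1 : 1 ≤ a := by
        rw [ha]
        exact Nat.mul_pos (by omega) hD
      have he1 : 32 * r ^ 3 * t₁ < 2 ^ t₂ := Nat.lt_pow_succ_log_self (by norm_num) _
      have ht1' : 2 * r * n ^ 3 < 2 ^ t₁ := Nat.lt_pow_succ_log_self (by norm_num) _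
      have hn2 : 2 ≤ n := by omega
      have hnt1 : n < 2 ^ t₁ := by
        refine lt_of_le_of_lt ?_ ht1'
        calc n ≤ n ^ 3 := Nat.le_self_pow (by norm_num) n
          _ = 1 * n ^ 3 := by ring
          _ ≤ 2 * r * n ^ 3 := Nat.mul_le_mul_right _ (by omega)
      have hmg : m * (r - 1) ^ g < r ^ g := by
        have h5 : (m * (r - 1) ^ g) ^ D < (r ^ g) ^ D := by
          obtain ⟨s, hs⟩ : ∃ s, D * g = (D - 1) * n + (s + 1) := ⟨D * g - ((D - 1) * n + 1), by omega⟩
          have e1 : (m * (r - 1) ^ g) ^ D = m ^ D * (r - 1) ^ ((D - 1) * n) * (r - 1) ^ (s + 1) := by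
            rw [mul_pow, ← pow_mul, mul_comm g D, hs, pow_add]
            ring
          have e2 : (r ^ g) ^ D = r ^ ((D - 1) * n) * r ^ (s + 1) := by
            rw [← pow_mul, mul_comm g D, hs, pow_add]
          rw [e1, e2]
          have h6 : (r - 1) ^ (s + 1) < r ^ (s + 1) := Nat.pow_lt_pow_left (by omega) (by omega)
          calc m ^ D * (r - 1) ^ ((D - 1) * n) * (r - 1) ^ (s + 1)
              ≤ r ^ ((D - 1) * n) * (r - 1) ^ (s + 1) := Nat.mul_le_mul_right _ hm
            _ < r ^ ((D - 1) * n) * r ^ (s + 1) :=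
              Nat.mul_lt_mul_of_pos_left h6 (Nat.pow_pos (by omega))
        exact lt_of_pow_lt_pow_left₀ D (Nat.zero_le _) h5
      have hfin : tp r n m ≤ (r + (r + r)) + r * (8 * a) + (r + (r + r)) := by
        apply tp_le
        intro χ
        obtain ⟨E, hE, hEs⟩ := hEX (Fin n) (Fin m) r (n + N) χ
        rw [Fintype.card_fin] at hE
        have hE2 : E.card < 2 ^ t₁ := by
          refine lt_of_le_of_lt (hE.trans ?_) ht1'
          calc r * n ^ 2 * (n + N) ≤ r * n ^ 2 * (2 * n) := Nat.mul_le_mul_left _ (by omega)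
            _ = 2 * r * n ^ 3 := by ring
        refine hGL (Fin n) (Fin m) r (r + (r + r)) (r * (8 * a)) (r + (r + r)) N (2 * n) χ E ?_ ?_ ?_
        · apply FIN.side hC hP hR (by omega) t₁ t₂ (by omega) (by omega) he1 χ Finset.univ E hE2
          rw [Finset.card_univ, Fintype.card_fin]
          exact hk1
        · intro FX FY hFF
          have h5 := hSTR (Fin n) (Fin m) r a t N g χ FX FY E (by omega) ha1
            (by rw [Fintype.card_fin]; exact Nat.lt_pow_succ_log_self (by norm_num) _)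
            (by rw [Fintype.card_fin]; exact hk4) hFF
            (by rw [Fintype.card_fin]; exact hEs)
            (by rw [Fintype.card_fin]; exact hk3)
            (by rw [Fintype.card_fin]; exact hg2)
            (by rw [Fintype.card_fin]; exact hmg)
          rw [Fintype.card_fin] at h5
          exact h5
        · intro P Z hPc
          rw [Fintype.card_fin] at hPc
          refine ⟨_, FIN.side hC hP hR (by omega) t₁ t₂ (by omega) (by omega) he1 _ P Z ?_ ?_⟩
          · have : Z.card ≤ n := by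
              have := Finset.card_le_univ Z
              rwa [Fintype.card_fin] at this
            omega
          · omega
      refine hfin.trans (le_of_eq ?_)
      rw [ha]
      ring
  refine hrest.trans (le_of_eq ?_)
  ring

end Pool.Agent.K6.H73.TB
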