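import Pool.Agent.K6.H73.TB.Stm2

/-!
# `S_FOR`: connectors for a forest (written by helper70)
-/

set_option autoImplicit false

namespace Pool.Agent.K6.H73.TB

open Pool.Agent.H948R3.TP Sum

namespace FOR

/-- the vertices with root `ρ` and their connectors -/
def co {X Y : Type} [DecidableEq X] [DecidableEq Y] (K R : Finset X) (rt : X → X)
    (q : {x // x ∈ K \ R} → Y) (ρ : X) : Finset (X ⊕ Y) :=
  ((K.filter fun x => rt x = ρ).image fun x => (inl x : X ⊕ Y)) ∪
    (((K \ R).attach.filter fun x => rt x.1 = ρ).image fun x => (inr (q x) : X ⊕ Y))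

theorem mem_l {X Y : Type} [DecidableEq X] [DecidableEq Y] {K R : Finset X} {rt : X → X}
    {q : {x // x ∈ K \ R} → Y} {ρ : X} {x : X} :
    (inl x : X ⊕ Y) ∈ co K R rt q ρ ↔ x ∈ K ∧ rt x = ρ := by
  unfold co
  simp

theorem mem_r {X Y : Type} [DecidableEq X] [DecidableEq Y] {K R : Finset X} {rt : X → X}
    {q : {x // x ∈ K \ R} → Y} {ρ : X} {y : Y} :
    (inr y : X ⊕ Y) ∈ co K R rt q ρ ↔ ∃ x : {x // x ∈ K \ R}, rt x.1 = ρ ∧ q x = y := by
  unfold co
  simp only [Finset.mem_union, Finset.mem_image, Finset.mem_filter, Finset.mem_attach, true_and,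
    reduceCtorEq, and_false, exists_false, false_or, Sum.inr.injEq]

end FOR

open FOR in
theorem t_FOR : S_FOR := by
  intro X Y _ _ r k χ K R Zc c par dep rt hRK hKk hrt hrtK hK
  -- Hall's theorem
  have hall : ∃ q : {x // x ∈ K \ R} → Y, Function.Injective q ∧
      ∀ x, q x ∈ Zc.filter (fun z => χ (par x.1) z = c x.1 ∧ χ x.1 z = c x.1) := by
    rw [← Finset.all_card_le_biUnion_card_iff_exists_injective]
    intro s
    rcases s.eq_empty_or_nonempty with rfl | ⟨x, hx⟩
    · simp
    · have h1 : s.card ≤ (K \ R).card := by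
        have := Finset.card_le_univ s
        simpa using this
      have h1' : (K \ R).card ≤ K.card := Finset.card_le_card Finset.sdiff_subset
      have hx' := Finset.mem_sdiff.1 x.2
      have h2 := (hK x.1 hx'.1 hx'.2).2.2.2.2
      refine h1.trans (h1'.trans (hKk.trans (h2.trans (Finset.card_le_card ?_))))
      exact Finset.subset_biUnion_of_mem
        (fun x : {x // x ∈ K \ R} =>
          Zc.filter (fun z => χ (par x.1) z = c x.1 ∧ χ x.1 z = c x.1)) hx
  obtain ⟨q, hq, hqZ⟩ := hall
  simp only [Finset.mem_filter] at hqZ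
  -- the colour of the root
  have hc : ∀ n : ℕ, ∀ x ∈ K, dep x < n → c (rt x) = c x := by
    intro n
    induction n with
    | zero => intro x _ h; omega
    | succ n ih =>
      intro x hx hd
      by_cases hxR : x ∈ R
      · rw [hrt x hxR]
      · obtain ⟨h1, h2, h3, h4, -⟩ := hK x hx hxR
        rw [← h3, ← h4]
        exact ih (par x) h1 (by omega)
  have hc' : ∀ x ∈ K, c (rt x) = c x := fun x hx => hc _ x hx (Nat.lt_succ_self _)
  refine ⟨co K R rt q, ?_, ?_, ?_, ?_, ?_, hc'⟩
  · intro ρ _ σ _ hρσ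
    rw [Finset.disjoint_left]
    rintro (x | y) h1 h2
    · rw [mem_l] at h1 h2
      exact hρσ (h1.2.symm.trans h2.2)
    · rw [mem_r] at h1 h2
      obtain ⟨x, hx, hxy⟩ := h1
      obtain ⟨x', hx', hxy'⟩ := h2
      have : x = x' := hq (hxy.trans hxy'.symm)
      subst this
      exact hρσ (hx.symm.trans hx')
  · intro ρ hρ
    rw [SimpleGraph.connected_iff_exists_forall_reachable]
    have hρm : (inl ρ : X ⊕ Y) ∈ (co K R rt q ρ : Set (X ⊕ Y)) := by
      rw [Finset.mem_coe, mem_l]
      exact ⟨hRK hρ, hrt ρ hρ⟩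
    refine ⟨⟨inl ρ, hρm⟩, ?_⟩
    have hl : ∀ n : ℕ, ∀ x : X, ∀ hx : (inl x : X ⊕ Y) ∈ (co K R rt q ρ : Set (X ⊕ Y)),
        dep x < n →
        ((colG χ (c ρ)).induce (co K R rt q ρ : Set (X ⊕ Y))).Reachable ⟨inl ρ, hρm⟩
          ⟨inl x, hx⟩ := by
      intro n
      induction n with
      | zero => intro x _ h; omega
      | succ n ih =>
        intro x hx hd
        have hx2 := hx
        rw [Finset.mem_coe, mem_l] at hx2
        by_cases hxR : x ∈ R
        · have hxρ : x = ρ := (hrt x hxR).symm.trans hx2.2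
          subst hxρ
          exact SimpleGraph.Reachable.refl _
        · obtain ⟨h1, h2, h3, h4, -⟩ := hK x hx2.1 hxR
          have hxs : x ∈ K \ R := Finset.mem_sdiff.2 ⟨hx2.1, hxR⟩
          have hqx := hqZ ⟨x, hxs⟩
          have hcx : c x = c ρ := by rw [← hc' x hx2.1, hx2.2]
          have hpar : (inl (par x) : X ⊕ Y) ∈ (co K R rt q ρ : Set (X ⊕ Y)) := by
            rw [Finset.mem_coe, mem_l]
            exact ⟨h1, h3.trans hx2.2⟩
          have hmid : (inr (q ⟨x, hxs⟩) : X ⊕ Y) ∈ (co K R rt q ρ : Set (X ⊕ Y)) := by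
            rw [Finset.mem_coe, mem_r]
            exact ⟨⟨x, hxs⟩, hx2.2, rfl⟩
          refine (ih (par x) hpar (by omega)).trans ?_
          refine SimpleGraph.Reachable.trans (v := ⟨inr (q ⟨x, hxs⟩), hmid⟩) ?_ ?_
          · apply SimpleGraph.Adj.reachable
            show (colG χ (c ρ)).Adj (inl (par x)) (inr (q ⟨x, hxs⟩))
            rw [adj_lr, ← hcx]
            exact hqx.2.1
          · apply SimpleGraph.Adj.reachable
            show (colG χ (c ρ)).Adj (inr (q ⟨x, hxs⟩)) (inl x)
            rw [adj_rl, ← hcx]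
            exact hqx.2.2
    rintro ⟨x | y, hv⟩
    · exact hl _ x hv (Nat.lt_succ_self _)
    · have hv2 := hv
      rw [Finset.mem_coe, mem_r] at hv2
      obtain ⟨x, hx, hxy⟩ := hv2
      have hxK := (Finset.mem_sdiff.1 x.2).1
      have hxm : (inl x.1 : X ⊕ Y) ∈ (co K R rt q ρ : Set (X ⊕ Y)) := by
        rw [Finset.mem_coe, mem_l]
        exact ⟨hxK, hx⟩
      refine (hl _ x.1 hxm (Nat.lt_succ_self _)).trans ?_
      apply SimpleGraph.Adj.reachable
      show (colG χ (c ρ)).Adj (inl x.1) (inr y)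
      rw [adj_lr, ← hxy, ← hx, hc' x.1 hxK]
      exact (hqZ x).2.2
  · intro ρ _ v hv
    rcases v with x | y
    · rw [mem_l] at hv
      exact Finset.inl_mem_disjSum.2 hv.1
    · rw [mem_r] at hv
      obtain ⟨x, -, rfl⟩ := hv
      exact Finset.inr_mem_disjSum.2 (hqZ x).1
  · have hsub : R.biUnion (co K R rt q) ⊆
        (K.image fun x => (inl x : X ⊕ Y)) ∪
          ((K \ R).attach.image fun x => (inr (q x) : X ⊕ Y)) := by
      intro v hv
      rw [Finset.mem_biUnion] at hv
      obtain ⟨ρ, -, hv⟩ := hv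
      rcases v with x | y
      · rw [mem_l] at hv
        exact Finset.mem_union_left _ (Finset.mem_image_of_mem _ hv.1)
      · rw [mem_r] at hv
        obtain ⟨x, -, rfl⟩ := hv
        exact Finset.mem_union_right _
          (Finset.mem_image_of_mem (fun x : {x // x ∈ K \ R} => (inr (q x) : X ⊕ Y))
            (Finset.mem_attach _ x))
    refine (Finset.card_le_card hsub).trans ((Finset.card_union_le _ _).trans ?_)
    have c1 : (K.image fun x => (inl x : X ⊕ Y)).card ≤ k := Finset.card_image_le.trans hKk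
    have c2 : ((K \ R).attach.image fun x => (inr (q x) : X ⊕ Y)).card ≤ k := by
      refine Finset.card_image_le.trans ?_
      rw [Finset.card_attach]
      exact (Finset.card_le_card Finset.sdiff_subset).trans hKk
    omega
  · intro x hx
    rw [mem_l]
    exact ⟨hx, rfl⟩

end Pool.Agent.K6.H73.TB
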