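import Pool.Agent.K6.H73.TB.Stm2

/-!
# GLU3
-/

set_option autoImplicit false

namespace Pool.Agent.K6.H73.TB

open Pool.Agent.H948R3.TP Sum

namespace GLU3

theorem conn_swap {X Y : Type} {r : ℕ} (χ : X → Y → Fin r) (i : Fin r)
    (S : Set (Y ⊕ X)) (h : ((colG (fun y x => χ x y) i).induce S).Connected) :
    ((colG χ i).induce {v | v.swap ∈ S}).Connected := by
  let e : ((colG (fun y x => χ x y) i).induce S) →g ((colG χ i).induce {v | v.swap ∈ S}) :=
    { toFun := fun v => ⟨v.1.swap, by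
        show v.1.swap.swap ∈ S
        rw [Sum.swap_swap]
        exact v.2⟩
      map_rel' := by
        rintro ⟨u, hu⟩ ⟨w, hw⟩ huw
        change (colG (fun y x => χ x y) i).Adj u w at huw
        show (colG χ i).Adj u.swap w.swap
        rcases huw with ⟨x, y, h1, h2, h3⟩ | ⟨x, y, h1, h2, h3⟩
        · subst h1; subst h2; exact adj_rl.2 h3
        · subst h1; subst h2; exact adj_lr.2 h3 }
  refine SimpleGraph.Connected.map e ?_ h
  rintro ⟨w, hw⟩
  exact ⟨⟨w.swap, hw⟩, by simp [e]⟩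

end GLU3

theorem t_GLU3 (h : S_GLUE) : S_GLU3 := by
  intro X Y _ _ _ _ r q₁ q₂ q₃ N M χ E h1 h2 h3
  classical
  obtain ⟨E0, hE0, hE0c, C, col, hd, hc, hs, hN, hz⟩ := h1
  have hE00 : E0 = ∅ := Finset.card_eq_zero.1 (Nat.le_zero.1 hE0c)
  subst hE00
  set F : Finset (X ⊕ Y) := Finset.univ.biUnion C with hF
  have hCF : ∀ s, C s ⊆ F := fun s => Finset.subset_biUnion_of_mem C (Finset.mem_univ s)
  set FX : Finset X := Finset.univ.filter fun x => (inl x : X ⊕ Y) ∈ F with hFX
  set FY : Finset Y := Finset.univ.filter fun y => (inr y : X ⊕ Y) ∈ F with hFY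
  have hFeq : FX.disjSum FY = F := by
    ext v
    rcases v with x | y
    · rw [Finset.inl_mem_disjSum, hFX, Finset.mem_filter]
      exact ⟨fun h => h.2, fun h => ⟨Finset.mem_univ _, h⟩⟩
    · rw [Finset.inr_mem_disjSum, hFY, Finset.mem_filter]
      exact ⟨fun h => h.2, fun h => ⟨Finset.mem_univ _, h⟩⟩
  obtain ⟨R, D, dol, hRc, hDd, hDc, hDF, hDM, hDy⟩ := h2 FX FY (by
    rw [← Finset.card_disjSum, hFeq]
    exact hN)
  rw [hFeq] at hDF
  set G : Finset (X ⊕ Y) := R.biUnion D with hG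
  have hDG : ∀ ρ ∈ R, D ρ ⊆ G := fun ρ hρ => Finset.subset_biUnion_of_mem D hρ
  obtain ⟨N', E', hE', hEc', C', col', hd', hc', hs', hN', hz'⟩ :=
    h3 (Finset.univ.filter fun y => (inr y : X ⊕ Y) ∉ F ∪ G)
      (Finset.univ.filter fun x => (inl x : X ⊕ Y) ∉ F ∪ G)
      (by
        have h3 := Finset.card_filter_add_card_filter_not (s := (Finset.univ : Finset Y))
          (fun y => (inr y : X ⊕ Y) ∈ F ∪ G)
        have h4 : (Finset.univ.filter fun y => (inr y : X ⊕ Y) ∈ F ∪ G).card ≤ (F ∪ G).card := by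
          refine Finset.card_le_card_of_injOn inr ?_ ?_
          · intro x hx
            exact (Finset.mem_filter.1 hx).2
          · intro x _ y _ hxy
            exact Sum.inr.inj hxy
        have h5 := Finset.card_union_le F G
        rw [Finset.card_univ] at h3
        omega)
  have hE0 : E' = ∅ := Finset.card_eq_zero.1 (Nat.le_zero.1 hEc')
  subst hE0
  have hdisj : ∀ t, ∀ v : X ⊕ Y, v.swap ∈ C' t → v ∉ F ∪ G := by
    intro t v hv
    have h3 := hs' t hv
    rcases v with x | z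
    · rw [Sum.swap_inl, Finset.inr_mem_disjSum, Finset.mem_filter] at h3
      exact h3.2
    · rw [Sum.swap_inr, Finset.inl_mem_disjSum, Finset.mem_filter] at h3
      exact h3.2
  refine h X Y (Fin q₁ ⊕ ({ρ // ρ ∈ R} ⊕ Fin q₃)) r (q₁ + q₂ + q₃) χ
    (Sum.elim (fun s => (C s : Set (X ⊕ Y)))
      (Sum.elim (fun ρ => (D ρ.1 : Set (X ⊕ Y)))
        fun t => {v | v.swap ∈ (C' t : Set (Y ⊕ X))}))
    (Sum.elim col (Sum.elim (fun ρ => dol ρ.1) col')) ?_ ?_ ?_ ?_
  · rw [Fintype.card_sum, Fintype.card_sum, Fintype.card_fin, Fintype.card_fin,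
      Fintype.card_coe]
    omega
  · rintro (s | s | s) (t | t | t) hst
    · exact Finset.disjoint_coe.2 (hd s t fun h => hst (by rw [h]))
    · exact Finset.disjoint_coe.2
        (Finset.disjoint_of_subset_left (hCF s) (hDF t.1 t.2).symm)
    · rw [Set.disjoint_left]
      intro v hv hv'
      exact hdisj t v hv' (Finset.mem_union_left _ (hCF s hv))
    · exact Finset.disjoint_coe.2
        (Finset.disjoint_of_subset_left (hCF t) (hDF s.1 s.2).symm).symm
    · exact Finset.disjoint_coe.2 (hDd s.1 s.2 t.1 t.2 fun h => hst (by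
        rw [Subtype.ext h]))
    · rw [Set.disjoint_left]
      intro v hv hv'
      exact hdisj t v hv' (Finset.mem_union_right _ (hDG s.1 s.2 hv))
    · rw [Set.disjoint_left]
      intro v hv hv'
      exact hdisj s v hv (Finset.mem_union_left _ (hCF t hv'))
    · rw [Set.disjoint_left]
      intro v hv hv'
      exact hdisj s v hv (Finset.mem_union_right _ (hDG t.1 t.2 hv'))
    · rw [Set.disjoint_left]
      intro v hv hv'
      exact Finset.disjoint_left.1 (hd' s t fun h => hst (by rw [h])) hv hv'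
  · rintro (s | s | s) hne
    · exact hc s hne
    · exact hDc s.1 s.2
    · obtain ⟨v, hv⟩ := hne
      exact GLU3.conn_swap χ (col' s) _ (hc' s ⟨v.swap, hv⟩)
  · rintro (x | z)
    · by_cases hxF : (inl x : X ⊕ Y) ∈ F ∪ G
      · rcases Finset.mem_union.1 hxF with hxF | hxF
        · rw [hF, Finset.mem_biUnion] at hxF
          obtain ⟨s, -, hsx⟩ := hxF
          exact Or.inl ⟨inl s, hsx⟩
        · rw [hG, Finset.mem_biUnion] at hxF
          obtain ⟨s, hs, hsx⟩ := hxF
          exact Or.inl ⟨inr (inl ⟨s, hs⟩), hsx⟩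
      · rcases hz' x (Finset.mem_filter.2 ⟨Finset.mem_univ _, hxF⟩) (Finset.notMem_empty _) with
          ⟨s, hsz⟩ | ⟨s, y, hy, hxy⟩
        · exact Or.inl ⟨inr (inr s), hsz⟩
        · exact Or.inr ⟨inr (inr s), inr y, hy, adj_lr.2 hxy⟩
    · by_cases hzE : z ∈ E
      · rcases hz z hzE (Finset.notMem_empty _) with ⟨s, hsz⟩ | ⟨s, x, hx, hxz⟩
        · exact Or.inl ⟨inl s, hsz⟩
        · exact Or.inr ⟨inl s, inl x, hx, adj_rl.2 hxz⟩
      · by_cases hzF : z ∈ FY
        · rw [hFY, Finset.mem_filter, hF, Finset.mem_biUnion] at hzF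
          obtain ⟨-, s, -, hsz⟩ := hzF
          exact Or.inl ⟨inl s, hsz⟩
        · rcases hDy z hzE hzF with ⟨ρ, hρ, hz1⟩ | ⟨ρ, hρ, x, hx, hxz⟩
          · exact Or.inl ⟨inr (inl ⟨ρ, hρ⟩), hz1⟩
          · exact Or.inr ⟨inr (inl ⟨ρ, hρ⟩), inl x, hx, adj_rl.2 hxz⟩

end Pool.Agent.K6.H73.TB
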