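import Pool.Agent.K6.H73.TB.Stm2

set_option autoImplicit false

/-!
Greedy hitting sets.
-/

namespace Pool.Agent.K6.H73.TB

namespace HIT

theorem bern (a n : ℕ) : a ^ (n + 1) + (n + 1) * a ^ n ≤ (a + 1) ^ (n + 1) := by
  induction n with
  | zero => simp
  | succ n ih =>
    calc a ^ (n + 1 + 1) + (n + 1 + 1) * a ^ (n + 1)
        ≤ (a + 1) * (a ^ (n + 1) + (n + 1) * a ^ n) := by
          have : (a + 1) * (a ^ (n + 1) + (n + 1) * a ^ n) =
            a ^ (n + 1 + 1) + (n + 1 + 1) * a ^ (n + 1) + (n + 1) * a ^ n := by ring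
          omega
      _ ≤ (a + 1) * (a + 1) ^ (n + 1) := Nat.mul_le_mul le_rfl ih
      _ = (a + 1) ^ (n + 1 + 1) := by ring

theorem two_pow_le (a : ℕ) : 2 * a ^ (a + 1) ≤ (a + 1) ^ (a + 1) := by
  have h1 := bern a a
  have h2 : a ^ (a + 1) ≤ (a + 1) * a ^ a := by
    rw [pow_succ, mul_comm]
    exact Nat.mul_le_mul (by omega) le_rfl
  omega

open Classical in
theorem step {X ι : Type} [DecidableEq X] (V : Finset X) (I : Finset ι)
    (S : ι → Finset X) (y : ℕ) (hy : 1 ≤ y)
    (hS : ∀ i ∈ I, S i ⊆ V ∧ V.card ≤ y * (S i).card ∧ (S i).Nonempty) (m : ℕ) :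
    ∃ W ⊆ I.biUnion S, W.card ≤ m ∧
      (I.filter (fun i => ¬ ∃ w ∈ W, w ∈ S i)).card * y ^ m ≤ (y - 1) ^ m * I.card := by
  induction m with
  | zero =>
    refine ⟨∅, by simp, by simp, ?_⟩
    simp
  | succ m ih =>
    obtain ⟨W, hW, hWm, hU⟩ := ih
    set U := I.filter (fun i => ¬ ∃ w ∈ W, w ∈ S i) with hUdef
    have hUI : ∀ i ∈ U, i ∈ I := fun i hi => (Finset.mem_filter.1 hi).1
    by_cases hU0 : U.card = 0
    · refine ⟨W, hW, by omega, ?_⟩
      rw [← hUdef, hU0, zero_mul]
      exact Nat.zero_le _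
    obtain ⟨i0, hi0⟩ := Finset.card_pos.1 (Nat.pos_of_ne_zero hU0)
    have hVpos : 0 < V.card := by
      have h := hS i0 (hUI i0 hi0)
      exact lt_of_lt_of_le h.2.2.card_pos (Finset.card_le_card h.1)
    have hex : ∃ x ∈ V, U.card ≤ y * (U.filter (fun i => x ∈ S i)).card := by
      by_contra hcon
      push Not at hcon
      have h1 : ∑ x ∈ V, (U.filter (fun i => x ∈ S i)).card = ∑ i ∈ U, (S i).card := by
        simp_rw [Finset.card_filter]
        rw [Finset.sum_comm]
        refine Finset.sum_congr rfl fun i hi => ?_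
        rw [← Finset.card_filter]
        congr 1
        ext x
        rw [Finset.mem_filter]
        exact ⟨fun h => h.2, fun h => ⟨(hS i (hUI i hi)).1 h, h⟩⟩
      have h2 : U.card * V.card ≤ y * ∑ i ∈ U, (S i).card := by
        rw [Finset.mul_sum, ← smul_eq_mul, ← Finset.sum_const]
        exact Finset.sum_le_sum fun i hi => (hS i (hUI i hi)).2.1
      have h3 : y * ∑ x ∈ V, (U.filter (fun i => x ∈ S i)).card ≤ V.card * (U.card - 1) := by
        rw [Finset.mul_sum, ← smul_eq_mul, ← Finset.sum_const]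
        exact Finset.sum_le_sum fun x hx => by
          have := hcon x hx
          omega
      rw [h1] at h3
      have h4 : V.card * (U.card - 1) < V.card * U.card :=
        Nat.mul_lt_mul_of_pos_left (by omega) hVpos
      have h5 : U.card * V.card = V.card * U.card := by ring
      omega
    obtain ⟨x, hxV, hx⟩ := hex
    have hxpos : 0 < (U.filter (fun i => x ∈ S i)).card := by
      rcases Nat.eq_zero_or_pos (U.filter (fun i => x ∈ S i)).card with h | h
      · rw [h, mul_zero] at hx
        omega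
      · exact h
    obtain ⟨j, hj⟩ := Finset.card_pos.1 hxpos
    rw [Finset.mem_filter] at hj
    refine ⟨insert x W, ?_, ?_, ?_⟩
    · exact Finset.insert_subset (Finset.mem_biUnion.2 ⟨j, hUI j hj.1, hj.2⟩) hW
    · exact le_trans (Finset.card_insert_le _ _) (by omega)
    · set U' := I.filter (fun i => ¬ ∃ w ∈ insert x W, w ∈ S i) with hU'def
      have h1 : U'.card + (U.filter (fun i => x ∈ S i)).card ≤ U.card := by
        rw [← Finset.card_union_of_disjoint]
        · refine Finset.card_le_card ?_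
          intro z hz'
          rcases Finset.mem_union.1 hz' with h | h
          · rw [hU'def, Finset.mem_filter] at h
            rw [hUdef, Finset.mem_filter]
            refine ⟨h.1, ?_⟩
            rintro ⟨w, hw, hwz⟩
            exact h.2 ⟨w, Finset.mem_insert_of_mem hw, hwz⟩
          · exact (Finset.mem_filter.1 h).1
        · rw [Finset.disjoint_left]
          intro z hz1 hz2
          rw [hU'def, Finset.mem_filter] at hz1
          exact hz1.2 ⟨x, Finset.mem_insert_self _ _, (Finset.mem_filter.1 hz2).2⟩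
      have h2 : y * U'.card ≤ (y - 1) * U.card := by
        have e1 : y * U'.card + y * (U.filter (fun i => x ∈ S i)).card ≤ y * U.card := by
          rw [← mul_add]
          exact Nat.mul_le_mul le_rfl h1
        rw [Nat.sub_mul, one_mul]
        omega
      calc U'.card * y ^ (m + 1) = (y * U'.card) * y ^ m := by ring
        _ ≤ ((y - 1) * U.card) * y ^ m := Nat.mul_le_mul h2 le_rfl
        _ = (y - 1) * (U.card * y ^ m) := by ring
        _ ≤ (y - 1) * ((y - 1) ^ m * I.card) := Nat.mul_le_mul le_rfl hU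
        _ = (y - 1) ^ (m + 1) * I.card := by ring

end HIT

open HIT

theorem t_HIT : S_HIT := by
  classical
  intro X ι _ V I S y t hy hI hS
  obtain ⟨W, hW, hWm, hU⟩ := step V I S y hy hS (y * t)
  refine ⟨W, hW, hWm, ?_⟩
  set U := I.filter (fun i => ¬ ∃ w ∈ W, w ∈ S i) with hUdef
  have h0 : U.card = 0 := by
    by_contra hne
    have hpos : 0 < U.card := Nat.pos_of_ne_zero hne
    have h1 : 2 ^ t * (y - 1) ^ (y * t) ≤ y ^ (y * t) := by
      have h2 := two_pow_le (y - 1)
      have h3 : y - 1 + 1 = y := by omega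
      rw [h3] at h2
      rw [pow_mul (y - 1), pow_mul y, ← mul_pow]
      exact Nat.pow_le_pow_left h2 t
    rcases Nat.eq_zero_or_pos ((y - 1) ^ (y * t)) with hz | h4
    · rw [hz, zero_mul] at hU
      have : 0 < U.card * y ^ (y * t) := Nat.mul_pos hpos (Nat.pow_pos hy)
      omega
    have h5 : (y - 1) ^ (y * t) * (U.card * 2 ^ t) ≤ (y - 1) ^ (y * t) * I.card := by
      calc (y - 1) ^ (y * t) * (U.card * 2 ^ t)
          = U.card * (2 ^ t * (y - 1) ^ (y * t)) := by ring
        _ ≤ U.card * y ^ (y * t) := Nat.mul_le_mul le_rfl h1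
        _ ≤ _ := hU
    have h6 := Nat.le_of_mul_le_mul_left h5 h4
    have h7 : 2 ^ t ≤ U.card * 2 ^ t := Nat.le_mul_of_pos_left _ hpos
    omega
  intro i hi
  by_contra hcon
  have : i ∈ U := Finset.mem_filter.2 ⟨hi, hcon⟩
  rw [Finset.card_eq_zero] at h0
  rw [h0] at this
  exact absurd this (Finset.notMem_empty _)

end Pool.Agent.K6.H73.TB
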