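import Pool.Agent.K6.H73.TB.Stm2

/-!
# Piece HUB: roots and middle vertices for one relation
-/

set_option autoImplicit false

namespace Pool.Agent.K6.H73.TB

open Finset

theorem t_HUB (h1 : S_ROO) (h2 : S_HIT) : S_HUB := by
  classical
  intro X _ _ a t H U F hsym ha hX ht hB hF
  choose! B hBU hBc hBH using hB
  set Nb : X → Finset X := fun x => B x \ F with hNb
  have hV : ∀ x ∈ U \ F, Nb x ⊆ U \ F ∧ Fintype.card X ≤ 2 * a * (Nb x).card := by
    intro x hx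
    rw [mem_sdiff] at hx
    refine ⟨sdiff_subset_sdiff (hBU x hx.1) le_rfl, ?_⟩
    have h3 := hBc x hx.1
    have h4 : (B x).card ≤ (Nb x).card + F.card := by
      have := Finset.card_le_card_sdiff_add_card (s := B x) (t := F)
      omega
    have h5 : a * (B x).card ≤ a * (Nb x).card + a * F.card := by
      rw [← mul_add]; exact Nat.mul_le_mul_left _ h4
    nlinarith
  have hUc : (U \ F).card ≤ Fintype.card X := Finset.card_le_univ _
  obtain ⟨R, hRU, hRc, hR⟩ := h1 X (Fintype.card X) (2 * a) (U \ F) Nb (by omega) hUc hV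
  have hR' : ∀ x ∈ (U \ F) \ R, ∃ ρ ∈ R, Fintype.card X ≤ 16 * a ^ 2 * (Nb x ∩ Nb ρ).card := by
    intro x hx
    rw [mem_sdiff] at hx
    rcases hR x hx.1 with h | ⟨ρ, hρ, h⟩
    · exact absurd h hx.2
    · refine ⟨ρ, hρ, h.trans (le_of_eq ?_)⟩
      ring
  choose! ρ hρR hρc using hR'
  obtain ⟨W, hWS, hWc, hW⟩ := h2 X X (U \ F) ((U \ F) \ R) (fun x => Nb x ∩ Nb (ρ x))
    (16 * a ^ 2) t (by nlinarith) (lt_of_le_of_lt (Finset.card_le_univ _) ht) (by
      intro x hx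
      have h3 := hρc x hx
      refine ⟨inter_subset_left.trans (hV x (sdiff_subset hx)).1, hUc.trans h3, ?_⟩
      rw [← Finset.card_pos]
      by_contra h4
      have h5 : (Nb x ∩ Nb (ρ x)).card = 0 := by omega
      rw [h5] at h3
      omega)
  refine ⟨R, W, hRU, ?_, by omega, hWc, ?_, ?_⟩
  · intro w hw
    obtain ⟨x, hx, hwx⟩ := mem_biUnion.mp (hWS hw)
    exact (hV x (sdiff_subset hx)).1 (mem_inter.mp hwx).1
  · intro w hw
    obtain ⟨x, hx, hwx⟩ := mem_biUnion.mp (hWS hw)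
    refine ⟨ρ x, hρR x hx, hsym _ _ ?_⟩
    have h3 : ρ x ∈ U := (mem_sdiff.mp (hRU (hρR x hx))).1
    exact hBH (ρ x) h3 w (mem_sdiff.mp (mem_inter.mp hwx).2).1
  · intro x hx hxF
    by_cases hxR : x ∈ R
    · exact Or.inl hxR
    · right
      obtain ⟨w, hw, hwx⟩ := hW x (mem_sdiff.mpr ⟨mem_sdiff.mpr ⟨hx, hxF⟩, hxR⟩)
      exact ⟨w, hw, hBH x hx w (mem_sdiff.mp (mem_inter.mp hwx).1).1⟩

end Pool.Agent.K6.H73.TB
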