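import Pool.Agent.K6.H73.TB.Stm2

set_option autoImplicit false

/-! Piece HUBS: roots and middle vertices for all colours, by induction over the colours. -/

namespace Pool.Agent.K6.H73.TB

namespace HUBS

/-- the induction over a set `J` of colours -/
theorem main (h : S_HUB) (X : Type) [Fintype X] [DecidableEq X] (r a t : ℕ)
    (H : Fin r → X → X → Prop) (U : Fin r → Finset X)
    (hsym : ∀ i x y, H i x y → H i y x) (ha : 1 ≤ a) (hX : 1 ≤ Fintype.card X)
    (ht : Fintype.card X < 2 ^ t)
    (hB : ∀ i, ∀ x ∈ U i, ∃ B ⊆ U i, Fintype.card X ≤ a * B.card ∧ ∀ y ∈ B, H i x y)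
    (hbig : 2 * a * (r * (4 * a + 16 * a ^ 2 * t)) ≤ Fintype.card X) (J : Finset (Fin r)) :
    ∃ R W : Fin r → Finset X,
      (∀ i ∈ J, R i ⊆ U i ∧ W i ⊆ U i ∧ (R i).card ≤ 4 * a ∧ (W i).card ≤ 16 * a ^ 2 * t) ∧
      (∀ i ∈ J, ∀ j ∈ J, i ≠ j → Disjoint (R i ∪ W i) (R j ∪ W j)) ∧
      (∀ i ∈ J, ∀ w ∈ W i, ∃ ρ ∈ R i, H i w ρ) ∧
      ∀ i ∈ J, ∀ x ∈ U i, (∀ j ∈ J, x ∉ R j ∪ W j) → ∃ w ∈ W i, H i x w := by
  induction J using Finset.induction_on with
  | empty => exact ⟨fun _ => ∅, fun _ => ∅, by simp, by simp, by simp, by simp⟩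
  | insert k J hk ih =>
    obtain ⟨R, W, h1, h2, h3, h4⟩ := ih
    set F : Finset X := J.biUnion fun j => R j ∪ W j with hF
    have hFcard : F.card ≤ r * (4 * a + 16 * a ^ 2 * t) := by
      calc F.card ≤ ∑ j ∈ J, (R j ∪ W j).card := Finset.card_biUnion_le
        _ ≤ ∑ _j ∈ J, (4 * a + 16 * a ^ 2 * t) := by
            refine Finset.sum_le_sum fun j hj => ?_
            exact (Finset.card_union_le _ _).trans
              (add_le_add (h1 j hj).2.2.1 (h1 j hj).2.2.2)
        _ = J.card * (4 * a + 16 * a ^ 2 * t) := by
            rw [Finset.sum_const, smul_eq_mul]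
        _ ≤ r * (4 * a + 16 * a ^ 2 * t) := by
            refine Nat.mul_le_mul_right _ ?_
            have := Finset.card_le_univ J
            rwa [Fintype.card_fin] at this
    have hF2 : 2 * a * F.card ≤ Fintype.card X :=
      (Nat.mul_le_mul_left _ hFcard).trans hbig
    obtain ⟨R', W', g1, g2, g3, g4, g5, g6⟩ :=
      h X a t (H k) (U k) F (hsym k) ha hX ht (hB k) hF2
    have hne : ∀ j ∈ J, j ≠ k := fun j hj hjk => hk (hjk ▸ hj)
    have hdisF : ∀ j ∈ J, Disjoint (R' ∪ W') (R j ∪ W j) := by
      intro j hj
      rw [Finset.disjoint_left]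
      intro x hx hx'
      have hxF : x ∈ F := Finset.mem_biUnion.2 ⟨j, hj, hx'⟩
      rcases Finset.mem_union.1 hx with hx1 | hx1
      · exact (Finset.mem_sdiff.1 (g1 hx1)).2 hxF
      · exact (Finset.mem_sdiff.1 (g2 hx1)).2 hxF
    refine ⟨Function.update R k R', Function.update W k W', ?_, ?_, ?_, ?_⟩
    · intro i hi
      by_cases hik : i = k
      · subst hik
        rw [Function.update_self, Function.update_self]
        exact ⟨g1.trans Finset.sdiff_subset, g2.trans Finset.sdiff_subset, g3, g4⟩
      · rw [Function.update_of_ne hik, Function.update_of_ne hik]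
        exact h1 i ((Finset.mem_insert.1 hi).resolve_left hik)
    · intro i hi j hj hij
      by_cases hik : i = k
      · subst hik
        have hj' : j ∈ J := (Finset.mem_insert.1 hj).resolve_left (Ne.symm hij)
        rw [Function.update_self, Function.update_self, Function.update_of_ne (Ne.symm hij),
          Function.update_of_ne (Ne.symm hij)]
        exact hdisF j hj'
      · have hi' : i ∈ J := (Finset.mem_insert.1 hi).resolve_left hik
        rw [Function.update_of_ne hik, Function.update_of_ne hik]
        by_cases hjk : j = k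
        · subst hjk
          rw [Function.update_self, Function.update_self]
          exact (hdisF i hi').symm
        · rw [Function.update_of_ne hjk, Function.update_of_ne hjk]
          exact h2 i hi' j ((Finset.mem_insert.1 hj).resolve_left hjk) hij
    · intro i hi
      by_cases hik : i = k
      · subst hik
        rw [Function.update_self, Function.update_self]
        exact g5
      · rw [Function.update_of_ne hik, Function.update_of_ne hik]
        exact h3 i ((Finset.mem_insert.1 hi).resolve_left hik)
    · intro i hi x hx hout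
      have hout' : ∀ j ∈ J, x ∉ R j ∪ W j := by
        intro j hj
        have h5 := hout j (Finset.mem_insert_of_mem hj)
        rwa [Function.update_of_ne (hne j hj), Function.update_of_ne (hne j hj)] at h5
      by_cases hik : i = k
      · subst hik
        have h5 := hout i (Finset.mem_insert_self _ _)
        rw [Function.update_self, Function.update_self] at h5
        rw [Function.update_self]
        have hxF : x ∉ F := by
          intro hxF
          obtain ⟨j, hj, hxj⟩ := Finset.mem_biUnion.1 hxF
          exact hout' j hj hxj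
        rcases g6 x hx hxF with h7 | h7
        · exact absurd (Finset.mem_union_left _ h7) h5
        · exact h7
      · rw [Function.update_of_ne hik]
        exact h4 i ((Finset.mem_insert.1 hi).resolve_left hik) x hx hout'

end HUBS

theorem t_HUBS (h : S_HUB) : S_HUBS := by
  intro X _ _ r a t H U hsym ha hX ht hB hbig
  obtain ⟨R, W, h1, h2, h3, h4⟩ := HUBS.main h X r a t H U hsym ha hX ht hB hbig Finset.univ
  exact ⟨R, W, fun i => h1 i (Finset.mem_univ _),
    fun i j hij => h2 i (Finset.mem_univ _) j (Finset.mem_univ _) hij,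
    fun i => h3 i (Finset.mem_univ _),
    fun i x hx hout => h4 i (Finset.mem_univ _) x hx fun j _ => hout j⟩

end Pool.Agent.K6.H73.TB
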