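import Pool.Agent.K6.H73.TB.Stm2

/-! Piece LOG for MP_4e8562_co (helper75). -/

set_option autoImplicit false

namespace Pool.Agent.K6.H73.TB

open Filter Topology in
/-- Piece LOG. -/
theorem t_LOG : S_LOG := by
  intro A C
  have h1 : Tendsto (fun n : ℕ => (n : ℝ) ^ C / (2 : ℝ) ^ n) atTop (𝓝 0) :=
    tendsto_pow_const_div_const_pow_of_one_lt C (by norm_num)
  have h2 : Tendsto (fun n : ℕ => 2 * (A : ℝ) ^ C * ((n : ℝ) ^ C / (2 : ℝ) ^ n)) atTop (𝓝 0) := by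
    have := h1.const_mul (2 * (A : ℝ) ^ C)
    rwa [mul_zero] at this
  have h3 : ∀ᶠ n : ℕ in atTop, 2 * (A : ℝ) ^ C * ((n : ℝ) ^ C / (2 : ℝ) ^ n) < 1 :=
    h2.eventually (gt_mem_nhds one_pos)
  obtain ⟨L0, hL0⟩ := eventually_atTop.1 h3
  refine ⟨2 ^ L0, fun n hn => ?_⟩
  have hn0 : n ≠ 0 := by
    have : 0 < 2 ^ L0 := by positivity
    omega
  have hL : L0 ≤ Nat.log 2 n := by
    calc L0 = Nat.log 2 (2 ^ L0) := (Nat.log_pow (by norm_num) L0).symm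
      _ ≤ Nat.log 2 n := Nat.log_mono_right hn
  have h4 := hL0 (Nat.log 2 n + 1) (by omega)
  have h5 : 2 ^ Nat.log 2 n ≤ n := Nat.pow_log_le_self 2 hn0
  have h6 : (A * (Nat.log 2 n + 1)) ^ C ≤ 2 ^ Nat.log 2 n := by
    have h7 : (0 : ℝ) < 2 ^ (Nat.log 2 n + 1) := by positivity
    rw [← mul_div_assoc, div_lt_one h7, pow_succ] at h4
    have h8 : ((A * (Nat.log 2 n + 1) : ℕ) : ℝ) ^ C ≤ (2 : ℝ) ^ Nat.log 2 n := by
      push_cast at h4 ⊢
      rw [mul_pow]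
      linarith
    exact_mod_cast h8
  exact h6.trans h5

end Pool.Agent.K6.H73.TB
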