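import Pool.Agent.K6.H73.TB.Stm2

set_option autoImplicit false

/-!
The piece NUM of the second call (helper35): the arithmetic.
-/

namespace Pool.Agent.K6.H73.TB

theorem t_NUM (h1 : S_ARI) (h2 : S_LOG) : S_NUM := by
  intro r D hr hD
  obtain ⟨C, hC⟩ := h1 r (by omega)
  obtain ⟨K, hK⟩ : ∃ K, K = Nat.log 2 (2 * r) + 1 := ⟨_, rfl⟩
  obtain ⟨A1, hA1⟩ : ∃ A1, A1 = K + 3 := ⟨_, rfl⟩
  obtain ⟨T2, hT2⟩ : ∃ T2, T2 = 32 * r ^ 3 * A1 + 1 := ⟨_, rfl⟩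
  obtain ⟨a0, ha0⟩ : ∃ a0, a0 = 2 * r * D := ⟨_, rfl⟩
  obtain ⟨H, hH⟩ : ∃ H, H = r * (8 * a0 + 64 * a0 ^ 2) := ⟨_, rfl⟩
  obtain ⟨NN, hNN⟩ : ∃ NN, NN = 3 * r + 8 * r * A1 + 8 * r * T2 := ⟨_, rfl⟩
  obtain ⟨m1, hm1⟩ := h2 A1 C
  obtain ⟨m2, hm2⟩ := h2 (4 * a0 * H) 1
  obtain ⟨m3, hm3⟩ := h2 (2 * D * (NN + H + 1) + 1) 1
  refine ⟨C + m1 + m2 + m3 + 2 * a0 + 1, ?_⟩
  intro n t t₁ t₂ N h a hn ht ht₁ ht₂ hN ha hh
  rw [← ha0] at ha
  subst ha
  have hL : 1 ≤ t := by omega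
  have q1 := hm1 n (by omega)
  have q2 := hm2 n (by omega)
  have q3 := hm3 n (by omega)
  rw [← ht] at q1 q2 q3
  rw [pow_one] at q2 q3
  have hn2 : n < 2 ^ t := by
    rw [ht]; exact Nat.lt_pow_succ_log_self (by norm_num) n
  have hr2 : 2 * r < 2 ^ K := by
    rw [hK]; exact Nat.lt_pow_succ_log_self (by norm_num) (2 * r)
  have hm : 2 * r * n ^ 3 < 2 ^ (K + 3 * t) := by
    rw [pow_add, mul_comm 3 t, pow_mul]
    exact Nat.mul_lt_mul'' hr2 (Nat.pow_lt_pow_left hn2 (by norm_num))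
  have hn1 : 1 ≤ n := by omega
  have hn3 : n ≤ 2 * r * n ^ 3 := by
    have e1 : n ≤ n ^ 3 := Nat.le_self_pow (by norm_num) n
    have e2 : 1 * n ^ 3 ≤ 2 * r * n ^ 3 := Nat.mul_le_mul_right _ (by omega)
    omega
  have hlog : Nat.log 2 (2 * r * n ^ 3) < K + 3 * t :=
    Nat.log_lt_of_lt_pow (by omega) hm
  have hKt : K ≤ K * t := Nat.le_mul_of_pos_right _ hL
  have hlogb : Nat.log 2 (2 * r * n ^ 3) ≤ A1 * t := by
    rw [hA1, add_mul]; omega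
  have hp : Nat.log 2 (2 * r * n ^ 3) ^ C ≤ n :=
    (Nat.pow_le_pow_left hlogb C).trans q1
  have hmain := hC n (2 * r * n ^ 3) t₁ t₂ (by omega) hn3 hp ht₁ ht₂
  have ht1 : t₁ ≤ A1 * t := by
    rw [hA1, add_mul]; omega
  have ht2 : t₂ ≤ T2 * t := by
    have e1 : Nat.log 2 (32 * r ^ 3 * t₁) ≤ 32 * r ^ 3 * t₁ := Nat.log_le_self _ _
    have e2 : 32 * r ^ 3 * t₁ ≤ 32 * r ^ 3 * (A1 * t) := Nat.mul_le_mul_left _ ht1
    have e3 : T2 * t = 32 * r ^ 3 * (A1 * t) + t := by rw [hT2]; ring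
    omega
  have hNb : N ≤ NN * t := by
    have e1 : 8 * r * t₁ ≤ 8 * r * (A1 * t) := Nat.mul_le_mul_left _ ht1
    have e2 : 8 * r * t₂ ≤ 8 * r * (T2 * t) := Nat.mul_le_mul_left _ ht2
    have e3 : NN * t = 3 * (r * t) + 8 * r * (A1 * t) + 8 * r * (T2 * t) := by
      rw [hNN]; ring
    have e4 : r ≤ r * t := Nat.le_mul_of_pos_right _ hL
    omega
  have hhb : h ≤ H * t := by
    have e1 : 8 * a ≤ 8 * a * t := Nat.le_mul_of_pos_right _ hL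
    have e2 : H * t = r * (8 * a * t + 64 * a ^ 2 * t) := by rw [hH]; ring
    rw [e2, hh]
    exact Nat.mul_le_mul_left _ (by omega)
  refine ⟨by omega, by omega, ?_, by omega, ?_⟩
  · calc 4 * a * h ≤ 4 * a * (H * t) := Nat.mul_le_mul_left _ hhb
      _ = 4 * a * H * t := by ring
      _ ≤ n := q2
  · have q4 : 2 * D * (N + h + 1) + 1 ≤ n := by
      have e1 : N + h + 1 ≤ (NN + H + 1) * t := by
        have : (NN + H + 1) * t = NN * t + H * t + t := by ring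
        omega
      have e2 : 2 * D * (N + h + 1) ≤ 2 * D * ((NN + H + 1) * t) := Nat.mul_le_mul_left _ e1
      have e3 : (2 * D * (NN + H + 1) + 1) * t = 2 * D * ((NN + H + 1) * t) + t := by ring
      omega
    obtain ⟨D', rfl⟩ : ∃ D', D = D' + 1 := ⟨D - 1, by omega⟩
    obtain ⟨g, hg⟩ : ∃ g, g = ((2 * D' + 1) * n - 2 * (D' + 1) * (N + h)) / (2 * (D' + 1)) :=
      ⟨_, rfl⟩
    have g1 : 2 * (D' + 1) * g ≤ (2 * D' + 1) * n - 2 * (D' + 1) * (N + h) := by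
      rw [hg]; exact Nat.mul_div_le _ _
    have g2 : (2 * D' + 1) * n - 2 * (D' + 1) * (N + h) < 2 * (D' + 1) * g + 2 * (D' + 1) := by
      rw [hg]
      generalize (2 * D' + 1) * n - 2 * (D' + 1) * (N + h) = X
      have := Nat.lt_mul_div_succ X (show 0 < 2 * (D' + 1) by omega)
      have e : 2 * (D' + 1) * (X / (2 * (D' + 1)) + 1) =
        2 * (D' + 1) * (X / (2 * (D' + 1))) + 2 * (D' + 1) := by ring
      omega
    have e1 : (2 * D' + 1) * n = 2 * (D' * n) + n := by ring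
    have e2 : 2 * (D' + 1) * (N + h + 1) = 2 * (D' + 1) * (N + h) + 2 * (D' + 1) := by ring
    have e3 : 2 * (D' + 1) * g = 2 * ((D' + 1) * g) := by ring
    refine ⟨g, ?_, ?_⟩
    · rw [Nat.add_sub_cancel]
      omega
    · have e4 : a * (g + N + h) + r * n = r * (2 * (D' + 1) * g + 2 * (D' + 1) * (N + h) + n) := by
        rw [ha0]; ring
      have e5 : a * n = r * (2 * (D' * n) + n + n) := by
        rw [ha0]; ring
      rw [e4, e5]
      exact Nat.mul_le_mul_left _ (by omega)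

end Pool.Agent.K6.H73.TB
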