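import Pool.Agent.K6.H73.TB.Stm2

/-!
# Piece ROO: few roots so that every large set meets the set of a root in many elements
-/

set_option autoImplicit false

namespace Pool.Agent.K6.H73.TB

open Finset

namespace ROO

/-- a Bonferroni inequality -/
lemma bonf {X : Type} [DecidableEq X] (n b : ℕ) (Nb : X → Finset X) (T : Finset X)
    (h : ∀ x ∈ T, ∀ x' ∈ T, x ≠ x' → 4 * b ^ 2 * (Nb x ∩ Nb x').card ≤ n) :
    8 * b ^ 2 * ∑ x ∈ T, (Nb x).card ≤ 8 * b ^ 2 * (T.biUnion Nb).card + T.card ^ 2 * n := by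
  induction T using Finset.induction_on with
  | empty => simp
  | insert a T ha ih =>
    have ih' := ih fun x hx x' hx' hne => h x (mem_insert_of_mem hx) x' (mem_insert_of_mem hx') hne
    rw [sum_insert ha, biUnion_insert, card_insert_of_notMem ha]
    have h1 := card_union_add_card_inter (Nb a) (T.biUnion Nb)
    have h2 : (Nb a ∩ T.biUnion Nb).card ≤ ∑ x ∈ T, (Nb a ∩ Nb x).card := by
      rw [inter_biUnion]
      exact card_biUnion_le
    have h3 : 4 * b ^ 2 * ∑ x ∈ T, (Nb a ∩ Nb x).card ≤ T.card * n := by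
      rw [mul_sum]
      have := sum_le_card_nsmul T (fun x => 4 * b ^ 2 * (Nb a ∩ Nb x).card) n
        (fun x hx => h a (mem_insert_self a T) x (mem_insert_of_mem hx)
          (fun hax => ha (hax ▸ hx)))
      rwa [smul_eq_mul] at this
    have h4 : 4 * b ^ 2 * (Nb a ∩ T.biUnion Nb).card ≤ T.card * n :=
      (Nat.mul_le_mul_left _ h2).trans h3
    have h5 : 8 * b ^ 2 * (Nb a ∪ T.biUnion Nb).card + 2 * (4 * b ^ 2 * (Nb a ∩ T.biUnion Nb).card) =
        8 * b ^ 2 * (Nb a).card + 8 * b ^ 2 * (T.biUnion Nb).card := by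
      calc _ = 8 * b ^ 2 * ((Nb a ∪ T.biUnion Nb).card + (Nb a ∩ T.biUnion Nb).card) := by ring
        _ = _ := by rw [h1]; ring
    have h6 : (T.card + 1) ^ 2 * n = T.card ^ 2 * n + 2 * (T.card * n) + n := by ring
    rw [mul_add, h6]
    omega

end ROO

open ROO in
theorem t_ROO : S_ROO := by
  classical
  intro X _ n b U Nb hb hU hNb
  let F : Finset (Finset X) := U.powerset.filter fun R =>
    ∀ x ∈ R, ∀ x' ∈ R, x ≠ x' → 4 * b ^ 2 * (Nb x ∩ Nb x').card < n
  have hF : F.Nonempty := ⟨∅, by simp [F]⟩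
  obtain ⟨R, hR, hmax⟩ := exists_max_image F card hF
  rw [mem_filter, mem_powerset] at hR
  refine ⟨R, hR.1, ?_, ?_⟩
  · by_contra hcard
    push Not at hcard
    obtain ⟨T, hTR, hT⟩ := exists_subset_card_eq hcard.le
    have hn : 0 < n := by
      have h1 : 0 < U.card := by
        have := card_le_card hR.1
        omega
      omega
    have h1 := bonf n b Nb T fun x hx x' hx' hne => (hR.2 x (hTR hx) x' (hTR hx') hne).le
    have h2 : (T.biUnion Nb).card ≤ n := by
      refine (card_le_card ?_).trans hU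
      rw [biUnion_subset]
      intro x hx
      exact (hNb x (hR.1 (hTR hx))).1
    have h3 : T.card * n ≤ ∑ x ∈ T, b * (Nb x).card := by
      have := card_nsmul_le_sum T (fun x => b * (Nb x).card) n
        (fun x hx => (hNb x (hR.1 (hTR hx))).2)
      rwa [smul_eq_mul] at this
    rw [← mul_sum, hT] at h3
    rw [hT] at h1
    have h4 : 8 * b * (2 * b * n) ≤ 8 * b * (b * ∑ x ∈ T, (Nb x).card) :=
      Nat.mul_le_mul_left _ h3
    have h5 : 8 * b * (b * ∑ x ∈ T, (Nb x).card) = 8 * b ^ 2 * ∑ x ∈ T, (Nb x).card := by ring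
    have h6 : 8 * b ^ 2 * (T.biUnion Nb).card ≤ 8 * b ^ 2 * n := Nat.mul_le_mul_left _ h2
    have h7 : 8 * b * (2 * b * n) = 16 * (b ^ 2 * n) := by ring
    have h8 : 8 * b ^ 2 * n = 8 * (b ^ 2 * n) := by ring
    have h9 : (2 * b) ^ 2 * n = 4 * (b ^ 2 * n) := by ring
    have h10 : 0 < b ^ 2 * n := Nat.mul_pos (pow_pos (by omega) 2) hn
    omega
  · intro x hx
    by_cases hxR : x ∈ R
    · exact Or.inl hxR
    · right
      by_contra hcon
      push Not at hcon
      have h1 : insert x R ∈ F := by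
        rw [mem_filter, mem_powerset]
        refine ⟨insert_subset hx hR.1, ?_⟩
        intro y hy y' hy' hne
        rw [mem_insert] at hy hy'
        rcases hy with rfl | hy
        · rcases hy' with rfl | hy'
          · exact absurd rfl hne
          · exact hcon y' hy'
        · rcases hy' with rfl | hy'
          · rw [inter_comm]
            exact hcon y hy
          · exact hR.2 y hy y' hy' hne
      have h2 := hmax _ h1
      rw [card_insert_of_notMem hxR] at h2
      omega

end Pool.Agent.K6.H73.TB
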