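import Pool.Agent.K6.H73.TB.Stm2

set_option autoImplicit false

namespace Pool.Agent.K6.H73.TB

open Pool.Agent.H948R3.TP Sum

namespace STR

/-- counting the good elements -/
theorem good_count {X Y : Type} [Fintype X] [DecidableEq X] {r : ℕ} (a N g hb : ℕ)
    (χ : X → Y → Fin r) (FX Hb V : Finset X) (L : X → Finset (Fin r)) (y : Y)
    (hF : FX.card ≤ N) (hHb : Hb.card ≤ hb)
    (hV : ∀ x, x ∉ FX → x ∉ Hb → Fintype.card X ≤
      a * ((Finset.univ \ FX).filter (fun x' => χ x' y = χ x y)).card → x ∈ V ∧ χ x y ∈ L x)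
    (havg : a * (g + N + hb) + r * Fintype.card X ≤ a * Fintype.card X) (ha : 1 ≤ a) :
    g ≤ (V.filter (fun x => χ x y ∈ L x)).card := by
  classical
  set n := Fintype.card X with hn
  set Nn : Fin r → Finset X := fun i => (Finset.univ \ FX).filter (fun x' => χ x' y = i) with hNn
  set Small : Finset (Fin r) := Finset.univ.filter (fun i => ¬ n ≤ a * (Nn i).card) with hSmall
  set B := Small.biUnion Nn with hB
  have hBcard : a * B.card ≤ r * n := by
    calc a * B.card ≤ a * ∑ i ∈ Small, (Nn i).card :=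
          Nat.mul_le_mul_left _ Finset.card_biUnion_le
      _ = ∑ i ∈ Small, a * (Nn i).card := by rw [Finset.mul_sum]
      _ ≤ ∑ i ∈ Small, n := by
          apply Finset.sum_le_sum
          intro i hi
          rw [hSmall, Finset.mem_filter] at hi
          exact (not_le.1 hi.2).le
      _ = Small.card * n := by simp
      _ ≤ r * n := by
          apply Nat.mul_le_mul_right
          refine (Finset.card_le_univ _).trans ?_
          simp
  have hsub : (Finset.univ : Finset X) ⊆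
      (V.filter (fun x => χ x y ∈ L x)) ∪ (B ∪ (FX ∪ Hb)) := by
    intro x _
    by_cases h1 : x ∈ FX
    · simp [h1]
    by_cases h2 : x ∈ Hb
    · simp [h2]
    by_cases h3 : n ≤ a * (Nn (χ x y)).card
    · have := hV x h1 h2 h3
      rw [Finset.mem_union, Finset.mem_filter]
      exact Or.inl this
    · rw [Finset.mem_union, Finset.mem_union]
      right; left
      rw [hB, Finset.mem_biUnion]
      refine ⟨χ x y, ?_, ?_⟩
      · rw [hSmall, Finset.mem_filter]
        exact ⟨Finset.mem_univ _, h3⟩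
      · rw [hNn]
        simp only [Finset.mem_filter, Finset.mem_sdiff, Finset.mem_univ, true_and, and_true]
        exact h1
  have hc := Finset.card_le_card hsub
  rw [Finset.card_univ, ← hn] at hc
  have hc2 := hc.trans (Finset.card_union_le _ _)
  have hc3 := Finset.card_union_le B (FX ∪ Hb)
  have hc4 := Finset.card_union_le FX Hb
  set G := (V.filter (fun x => χ x y ∈ L x)).card with hG
  have hc5 : n ≤ G + (B.card + (N + hb)) := by omega
  have hc6 : a * n ≤ a * (G + (B.card + (N + hb))) := Nat.mul_le_mul_left _ hc5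
  have hc7 : a * (G + (B.card + (N + hb))) = a * G + a * B.card + a * (N + hb) := by ring
  have hc8 : a * (g + N + hb) = a * g + a * (N + hb) := by ring
  have hc9 : a * g ≤ a * G := by omega
  exact Nat.le_of_mul_le_mul_left hc9 ha

end STR

theorem t_STR (h1 : S_HUBS) (h2 : S_AVG) (h3 : S_FOR) : S_STR := by
  classical
  intro X Y _ _ _ _ r a t N g χ FX FY E hr ha ht h2a hF hStr hhub havg hcard
  set n := Fintype.card X with hn
  have hn1 : 1 ≤ n := by omega
  let H : Fin r → X → X → Prop := fun i x y => x ≠ y ∧ n + N ≤ com χ i x y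
  have hHsymm : ∀ i x y, H i x y → H i y x := by
    rintro i x y ⟨hne, hle⟩
    refine ⟨hne.symm, hle.trans (le_of_eq ?_)⟩
    unfold com
    congr 1
    ext z
    simp only [Finset.mem_filter, and_comm]
  let U : Fin r → Finset X := fun i => (Finset.univ \ FX).filter (fun x => ∃ y, y ∉ E ∧
    χ x y = i ∧ n ≤ a * ((Finset.univ \ FX).filter (fun x' => χ x' y = i)).card)
  have hUmem : ∀ i x, x ∈ U i ↔ x ∉ FX ∧ ∃ y, y ∉ E ∧
    χ x y = i ∧ n ≤ a * ((Finset.univ \ FX).filter (fun x' => χ x' y = i)).card := by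
    intro i x
    simp only [U, Finset.mem_filter, Finset.mem_sdiff, Finset.mem_univ, true_and]
  have hU : ∀ i, ∀ x ∈ U i, ∃ B ⊆ U i, Fintype.card X ≤ 2 * a * B.card ∧
      ∀ y ∈ B, H i x y := by
    intro i x hx
    obtain ⟨hx1, y, hyE, hxy, hy⟩ := (hUmem i x).1 hx
    set Ny := (Finset.univ \ FX).filter (fun x' => χ x' y = i) with hNy
    have hxN : x ∈ Ny := by
      rw [hNy]
      simp only [Finset.mem_filter, Finset.mem_sdiff, Finset.mem_univ, true_and]
      exact ⟨hx1, hxy⟩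
    refine ⟨Ny.erase x, ?_, ?_, ?_⟩
    · intro x' hx'
      have hx2 := Finset.mem_of_mem_erase hx'
      rw [hNy] at hx2
      simp only [Finset.mem_filter, Finset.mem_sdiff, Finset.mem_univ, true_and] at hx2
      exact (hUmem i x').2 ⟨hx2.1, y, hyE, hx2.2, hy⟩
    · rw [Finset.card_erase_of_mem hxN, ← hn]
      have hpos : 1 ≤ Ny.card := Finset.card_pos.2 ⟨x, hxN⟩
      obtain ⟨c, hc⟩ : ∃ c, Ny.card = c + 1 := ⟨Ny.card - 1, by omega⟩
      rw [hc] at hy ⊢
      rw [Nat.add_sub_cancel]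
      nlinarith
    · intro x' hx'
      have hx2 := Finset.mem_of_mem_erase hx'
      have hne := Finset.ne_of_mem_erase hx'
      rw [hNy] at hx2
      simp only [Finset.mem_filter, Finset.mem_sdiff, Finset.mem_univ, true_and] at hx2
      refine ⟨hne.symm, ?_⟩
      have := hStr y hyE x x' hne.symm (by rw [hxy, hx2.2])
      rwa [hxy] at this
  obtain ⟨R, W, hRW, hdisj, hWroot, hcov⟩ := h1 X r (2 * a) t H U hHsymm (by omega) hn1 ht hU
    (by
      refine le_trans (le_of_eq ?_) hhub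
      ring)
  -- hubs
  set Hb : Finset X := Finset.univ.biUnion (fun i => R i ∪ W i) with hHbdef
  set RR : Finset X := Finset.univ.biUnion R with hRRdef
  have hHbmem : ∀ x, x ∈ Hb ↔ ∃ i, x ∈ R i ∪ W i := by
    intro x
    simp [hHbdef]
  have hRRmem : ∀ x, x ∈ RR ↔ ∃ i, x ∈ R i := by
    intro x
    simp [hRRdef]
  have hRRHb : RR ⊆ Hb := by
    intro x hx
    obtain ⟨i, hi⟩ := (hRRmem x).1 hx
    exact (hHbmem x).2 ⟨i, Finset.mem_union_left _ hi⟩
  have huniq : ∀ x i j, x ∈ R i ∪ W i → x ∈ R j ∪ W j → i = j := by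
    intro x i j hi hj
    by_contra hne
    exact (Finset.disjoint_left.1 (hdisj i j hne)) hi hj
  have hHbcard : Hb.card ≤ r * (8 * a + 64 * a ^ 2 * t) := by
    refine Finset.card_biUnion_le.trans ?_
    calc ∑ i : Fin r, (R i ∪ W i).card ≤ ∑ _i : Fin r, (8 * a + 64 * a ^ 2 * t) := by
          apply Finset.sum_le_sum
          intro i _
          refine (Finset.card_union_le _ _).trans ?_
          have e1 := (hRW i).2.2.1
          have e2 := (hRW i).2.2.2
          have e3 : 4 * (2 * a) = 8 * a := by ring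
          have e4 : 16 * (2 * a) ^ 2 * t = 64 * a ^ 2 * t := by ring
          omega
      _ = r * (8 * a + 64 * a ^ 2 * t) := by simp
  have hRRcard : RR.card ≤ r * (8 * a) := by
    refine Finset.card_biUnion_le.trans ?_
    calc ∑ i : Fin r, (R i).card ≤ ∑ _i : Fin r, (8 * a) := by
          apply Finset.sum_le_sum
          intro i _
          have e1 := (hRW i).2.2.1
          omega
      _ = r * (8 * a) := by simp
  have hHbFX : ∀ x ∈ Hb, x ∉ FX := by
    intro x hx
    obtain ⟨i, hi⟩ := (hHbmem x).1 hx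
    have : x ∈ U i := by
      rcases Finset.mem_union.1 hi with h | h
      · exact (hRW i).1 h
      · exact (hRW i).2.1 h
    exact ((hUmem i x).1 this).1
  -- the other centres
  let V : Finset X := Finset.univ.filter (fun x => x ∉ FX ∧ x ∉ Hb ∧ ∃ i, x ∈ U i)
  have hVmem : ∀ x, x ∈ V ↔ x ∉ FX ∧ x ∉ Hb ∧ ∃ i, x ∈ U i := by
    intro x
    simp only [V, Finset.mem_filter, Finset.mem_univ, true_and]
  let L : X → Finset (Fin r) := fun x => Finset.univ.filter (fun i => x ∈ U i)
  have hLmem : ∀ x i, i ∈ L x ↔ x ∈ U i := by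
    intro x i
    simp only [L, Finset.mem_filter, Finset.mem_univ, true_and]
  obtain ⟨c0, hc0L, hc0⟩ := h2 X Y r g χ L V (Finset.univ \ E) hr
    (by
      intro x hx
      obtain ⟨_, _, i, hi⟩ := (hVmem x).1 hx
      exact ⟨i, (hLmem x i).2 hi⟩)
    (by
      intro y hy
      have hyE : y ∉ E := (Finset.mem_sdiff.1 hy).2
      refine STR.good_count a N g (r * (8 * a + 64 * a ^ 2 * t)) χ FX Hb V L y (by omega)
        hHbcard ?_ havg ha
      intro x hx1 hx2 hx3
      have hxU : x ∈ U (χ x y) := (hUmem _ x).2 ⟨hx1, y, hyE, rfl, hx3⟩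
      exact ⟨(hVmem x).2 ⟨hx1, hx2, _, hxU⟩, (hLmem x _).2 hxU⟩)
    (by
      refine lt_of_le_of_lt ?_ hcard
      apply Nat.mul_le_mul_right
      exact Finset.card_le_univ _)
  -- parents
  have hp1 : ∀ x : X, ∃ ρ : X, ∀ i, x ∈ W i → ρ ∈ R i ∧ H i x ρ := by
    intro x
    by_cases hx : ∃ i, x ∈ W i
    · obtain ⟨i, hi⟩ := hx
      obtain ⟨ρ, hρ, hHρ⟩ := hWroot i x hi
      refine ⟨ρ, fun j hj => ?_⟩
      have : i = j := huniq x i j (Finset.mem_union_right _ hi) (Finset.mem_union_right _ hj)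
      subst this
      exact ⟨hρ, hHρ⟩
    · exact ⟨x, fun i hi => absurd ⟨i, hi⟩ hx⟩
  choose p1 hp1 using hp1
  have hp2 : ∀ x : X, ∃ w : X, x ∈ V → w ∈ W (c0 x) ∧ H (c0 x) x w := by
    intro x
    by_cases hx : x ∈ V
    · have hxU : x ∈ U (c0 x) := (hLmem x _).1 (hc0L x hx)
      have hxH : ∀ j, x ∉ R j ∪ W j := fun j hj => ((hVmem x).1 hx).2.1 ((hHbmem x).2 ⟨j, hj⟩)
      obtain ⟨w, hw, hHw⟩ := hcov (c0 x) x hxU hxH
      exact ⟨w, fun _ => ⟨hw, hHw⟩⟩
    · exact ⟨x, fun h => absurd h hx⟩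
  choose p2 hp2 using hp2
  -- colours
  let c : X → Fin r := fun x => if h : ∃ i, x ∈ R i ∪ W i then Classical.choose h else c0 x
  have hcHb : ∀ x i, x ∈ R i ∪ W i → c x = i := by
    intro x i hi
    have h : ∃ i, x ∈ R i ∪ W i := ⟨i, hi⟩
    show (if h : ∃ i, x ∈ R i ∪ W i then Classical.choose h else c0 x) = i
    rw [dif_pos h]
    exact huniq x _ _ (Classical.choose_spec h) hi
  have hcV : ∀ x, x ∉ Hb → c x = c0 x := by
    intro x hx
    show (if h : ∃ i, x ∈ R i ∪ W i then Classical.choose h else c0 x) = c0 x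
    rw [dif_neg (fun h => hx ((hHbmem x).2 h))]
  let rt1 : X → X := fun x => if x ∈ RR then x else p1 x
  have hrt1R : ∀ x ∈ RR, rt1 x = x := fun x hx => if_pos hx
  have hrt1W : ∀ x, x ∉ RR → rt1 x = p1 x := fun x hx => if_neg hx
  let par : X → X := fun x => if x ∈ Hb then p1 x else p2 x
  have hparH : ∀ x ∈ Hb, par x = p1 x := fun x hx => if_pos hx
  have hparV : ∀ x, x ∉ Hb → par x = p2 x := fun x hx => if_neg hx
  let rt : X → X := fun x => if x ∈ Hb then rt1 x else rt1 (p2 x)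
  have hrtH : ∀ x ∈ Hb, rt x = rt1 x := fun x hx => if_pos hx
  have hrtV : ∀ x, x ∉ Hb → rt x = rt1 (p2 x) := fun x hx => if_neg hx
  let dep : X → ℕ := fun x => if x ∈ RR then 0 else if x ∈ Hb then 1 else 2
  have hdepR : ∀ x ∈ RR, dep x = 0 := fun x hx => if_pos hx
  have hdepH : ∀ x, x ∉ RR → x ∈ Hb → dep x = 1 := by
    intro x hx hx'
    show (if x ∈ RR then 0 else if x ∈ Hb then 1 else 2) = 1
    rw [if_neg hx, if_pos hx']
  have hdepV : ∀ x, x ∉ Hb → dep x = 2 := by
    intro x hx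
    show (if x ∈ RR then 0 else if x ∈ Hb then 1 else 2) = 2
    rw [if_neg (fun h => hx (hRRHb h)), if_neg hx]
  have hHbW : ∀ x ∈ Hb, x ∉ RR → ∃ i, x ∈ W i := by
    intro x hx hxR
    obtain ⟨i, hi⟩ := (hHbmem x).1 hx
    rcases Finset.mem_union.1 hi with h | h
    · exact absurd ((hRRmem x).2 ⟨i, h⟩) hxR
    · exact ⟨i, h⟩
  have hrt1mem : ∀ x ∈ Hb, rt1 x ∈ RR := by
    intro x hx
    by_cases hxR : x ∈ RR
    · rw [hrt1R x hxR]; exact hxR
    · rw [hrt1W x hxR]
      obtain ⟨i, hi⟩ := hHbW x hx hxR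
      exact (hRRmem _).2 ⟨i, (hp1 x i hi).1⟩
  have hcount : ∀ i x x', H i x x' → n ≤ ((Finset.univ \ FY).filter
      (fun z => χ x z = i ∧ χ x' z = i)).card := by
    rintro i x x' ⟨_, hle⟩
    have h4 : (Finset.univ.filter (fun z => χ x z = i ∧ χ x' z = i)) ⊆
        ((Finset.univ \ FY).filter (fun z => χ x z = i ∧ χ x' z = i)) ∪ FY := by
      intro z hz
      by_cases hzF : z ∈ FY
      · exact Finset.mem_union_right _ hzF
      · apply Finset.mem_union_left
        rw [Finset.mem_filter] at hz ⊢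
        exact ⟨Finset.mem_sdiff.2 ⟨Finset.mem_univ _, hzF⟩, hz.2⟩
    have h5 := (Finset.card_le_card h4).trans (Finset.card_union_le _ _)
    unfold com at hle
    omega
  have hKV : ∀ x ∈ V ∪ Hb, x ∉ Hb → x ∈ V := by
    intro x hx hx'
    rcases Finset.mem_union.1 hx with h | h
    · exact h
    · exact absurd h hx'
  obtain ⟨C, hC1, hC2, hC3, hC4, hC5, hC6⟩ := h3 X Y r n χ (V ∪ Hb) RR (Finset.univ \ FY) c par
    dep rt (hRRHb.trans Finset.subset_union_right)
    (by rw [hn]; exact Finset.card_le_univ _)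
    (by
      intro ρ hρ
      rw [hrtH ρ (hRRHb hρ), hrt1R ρ hρ])
    (by
      intro x hx
      by_cases hxH : x ∈ Hb
      · rw [hrtH x hxH]
        exact hrt1mem x hxH
      · rw [hrtV x hxH]
        apply hrt1mem
        have := (hp2 x (hKV x hx hxH)).1
        exact (hHbmem _).2 ⟨_, Finset.mem_union_right _ this⟩)
    (by
      intro x hx hxR
      by_cases hxH : x ∈ Hb
      · obtain ⟨i, hi⟩ := hHbW x hxH hxR
        obtain ⟨hρ, hHρ⟩ := hp1 x i hi
        have hρR : p1 x ∈ RR := (hRRmem _).2 ⟨i, hρ⟩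
        have hρH : p1 x ∈ Hb := hRRHb hρR
        have hcx : c x = i := hcHb x i (Finset.mem_union_right _ hi)
        rw [hparH x hxH, hcx]
        refine ⟨Finset.mem_union_right _ hρH, ?_, ?_, ?_, ?_⟩
        · rw [hdepR _ hρR, hdepH x hxR hxH]; norm_num
        · rw [hrtH _ hρH, hrt1R _ hρR, hrtH x hxH, hrt1W x hxR]
        · exact hcHb _ i (Finset.mem_union_left _ hρ)
        · exact hcount i _ _ (hHsymm _ _ _ hHρ)
      · have hxV := hKV x hx hxH
        obtain ⟨hw, hHw⟩ := hp2 x hxV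
        have hwH : p2 x ∈ Hb := (hHbmem _).2 ⟨_, Finset.mem_union_right _ hw⟩
        rw [hparV x hxH, hcV x hxH]
        refine ⟨Finset.mem_union_right _ hwH, ?_, ?_, ?_, ?_⟩
        · rw [hdepV x hxH]
          by_cases hwR : p2 x ∈ RR
          · rw [hdepR _ hwR]; norm_num
          · rw [hdepH _ hwR hwH]; norm_num
        · rw [hrtH _ hwH, hrtV x hxH]
        · exact hcHb _ _ (Finset.mem_union_right _ hw)
        · exact hcount _ _ _ (hHsymm _ _ _ hHw))
  refine ⟨RR, C, c, hRRcard, hC1, hC2, ?_, hC4, ?_⟩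
  · intro ρ hρ
    rw [Finset.disjoint_left]
    intro v hv hv'
    have h4 := hC3 ρ hρ hv
    rcases v with x | y
    · rw [Finset.inl_mem_disjSum] at h4 hv'
      rcases Finset.mem_union.1 h4 with h | h
      · exact ((hVmem x).1 h).1 hv'
      · exact hHbFX x h hv'
    · rw [Finset.inr_mem_disjSum] at h4 hv'
      exact (Finset.mem_sdiff.1 h4).2 hv'
  · intro y hyE _
    right
    obtain ⟨x, hxV, hx⟩ := hc0 y (Finset.mem_sdiff.2 ⟨Finset.mem_univ _, hyE⟩)
    have hxK : x ∈ V ∪ Hb := Finset.mem_union_left _ hxV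
    have hxH : x ∉ Hb := ((hVmem x).1 hxV).2.1
    have hrtm : rt x ∈ RR := by
      rw [hrtV x hxH]
      apply hrt1mem
      exact (hHbmem _).2 ⟨_, Finset.mem_union_right _ (hp2 x hxV).1⟩
    refine ⟨rt x, hrtm, x, hC5 x hxK, ?_⟩
    rw [hC6 x hxK, hcV x hxH, hx]

end Pool.Agent.K6.H73.TB
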