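import Pool.Agent.K6.H73.TB.All1
import Pool.Agent.K6.H73.TB.NUM
import Pool.Agent.K6.H73.TB.EX2
import Pool.Agent.K6.H73.TB.LOG
import Pool.Agent.K6.H73.TB.HUB
import Pool.Agent.K6.H73.TB.HIT
import Pool.Agent.K6.H73.TB.GLU3
import Pool.Agent.K6.H73.TB.HUBS
import Pool.Agent.K6.H73.TB.AVG
import Pool.Agent.K6.H73.TB.FOR
import Pool.Agent.K6.H73.TB.ROO
import Pool.Agent.K6.H73.TB.STR
import Pool.Agent.K6.H73.TB.FIN2
import Pool.Agent.K6.H73.TP.Bounds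
import Pool.Agent.H948R3.TPSimple

set_option autoImplicit false

namespace Pool.Agent.K6.H73.TB

open Pool.Agent.H948R3.TP

theorem p_STR : S_STR := t_STR (t_HUBS (t_HUB t_ROO t_HIT)) t_AVG t_FOR

theorem p_FIN2 : S_FIN2 :=
  t_FIN2 (t_GLU3 t_GLUE) t_EX2 p_STR t_COMB t_PIG p_ROUND p_FIN t_LOG (t_NUM t_ARI t_LOG)

/-- the bound with real exponents -/
theorem bounded_below_threshold (r : ℕ) (hr : 2 ≤ r) (δ : ℝ) (hδ : 0 < δ) :
    ∃ n₀ : ℕ, ∀ n m : ℕ, n₀ ≤ n → n ≤ m →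
      (m : ℝ) ≤ ((r : ℝ) / ((r : ℝ) - 1)) ^ ((1 - δ) * (n : ℝ)) →
      r ≤ tp r n m ∧ tp r n m ≤ 6 * r + 16 * r ^ 2 * ⌈1 / δ⌉₊ := by
  have hD : 1 / δ ≤ (⌈1 / δ⌉₊ : ℝ) := Nat.le_ceil _
  set D := ⌈1 / δ⌉₊ with hDdef
  have hD1 : 1 ≤ D := Nat.ceil_pos.2 (by positivity)
  obtain ⟨B, hB⟩ := p_FIN2 r D hr hD1
  refine ⟨max B r, fun n m hn hnm hm => ⟨?_, hB n m ((le_max_left _ _).trans hn) hnm ?_⟩⟩
  · have h4 := lower_simple (n := n) (m := m) (r := r) (by omega)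
      (((le_max_right _ _).trans hn).trans hnm)
    exact (Nat.le_add_right _ _).trans h4
  have hr2 : (2 : ℝ) ≤ r := by exact_mod_cast hr
  have hr1 : (0 : ℝ) < (r : ℝ) - 1 := by linarith
  have hb1 : (1 : ℝ) ≤ (r : ℝ) / ((r : ℝ) - 1) := by
    rw [le_div_iff₀ hr1]; linarith
  have hD0 : (0 : ℝ) < D := by exact_mod_cast hD1
  have hδD : 1 ≤ δ * D := by
    rw [div_le_iff₀ hδ] at hD
    linarith
  have h1 : (m : ℝ) ^ D ≤ ((r : ℝ) / ((r : ℝ) - 1)) ^ (((D - 1) * n : ℕ) : ℝ) := by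
    calc (m : ℝ) ^ D ≤ (((r : ℝ) / ((r : ℝ) - 1)) ^ ((1 - δ) * (n : ℝ))) ^ D :=
          pow_le_pow_left₀ (Nat.cast_nonneg _) hm D
      _ = ((r : ℝ) / ((r : ℝ) - 1)) ^ ((1 - δ) * (n : ℝ) * D) := by
          rw [← Real.rpow_natCast, ← Real.rpow_mul (by linarith)]
      _ ≤ ((r : ℝ) / ((r : ℝ) - 1)) ^ (((D - 1) * n : ℕ) : ℝ) := by
          apply Real.rpow_le_rpow_of_exponent_le hb1
          push_cast [Nat.cast_sub hD1]
          have hn0 : (0 : ℝ) ≤ n := Nat.cast_nonneg n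
          nlinarith
  rw [Real.rpow_natCast, div_pow, le_div_iff₀ (by positivity)] at h1
  have h2 : ((m ^ D * (r - 1) ^ ((D - 1) * n) : ℕ) : ℝ) ≤ ((r ^ ((D - 1) * n) : ℕ) : ℝ) := by
    push_cast [Nat.cast_sub (by omega : 1 ≤ r)]
    exact h1
  exact_mod_cast h2

/-- above the threshold the number is asymptotically `((r - 1) / r) ^ n m` -/
theorem above_threshold (r : ℕ) (hr : 2 ≤ r) (δ : ℝ) (hδ : 0 < δ) (ε : ℝ) (hε : 0 < ε) :
    ∃ C : ℕ, ∀ n m : ℕ, C ≤ n → ((r : ℝ) / ((r : ℝ) - 1)) ^ ((1 + δ) * (n : ℝ)) ≤ (m : ℝ) →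
      |(tp r n m : ℝ) - (((r : ℝ) - 1) / r) ^ n * m| ≤ ε * ((((r : ℝ) - 1) / r) ^ n * m) := by
  have hr2 : (2 : ℝ) ≤ r := by exact_mod_cast hr
  have hr0 : (0 : ℝ) < r := by linarith
  have hr1 : (0 : ℝ) < (r : ℝ) - 1 := by linarith
  set b : ℝ := (r : ℝ) / ((r : ℝ) - 1) with hb
  have hb1 : 1 < b := by
    rw [hb, lt_div_iff₀ hr1]; linarith
  have hb0 : 0 < b := by linarith
  have hlog : 0 < Real.log r := Real.log_pos (by linarith)
  -- b ^ (δ n) grows faster than n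
  have hgrow : Filter.Tendsto (fun n : ℕ => (n : ℝ) / (b ^ δ) ^ n) Filter.atTop (nhds 0) := by
    have h1 : 1 < b ^ δ := Real.one_lt_rpow hb1 hδ
    have := tendsto_pow_const_div_const_pow_of_one_lt 1 h1
    simpa using this
  set κ : ℝ := min (ε ^ 2 / (4 * Real.log r)) ε with hκ
  have hκ0 : 0 < κ := by
    rw [hκ]
    apply lt_min
    · positivity
    · exact hε
  have hev := (hgrow.eventually (gt_mem_nhds hκ0))
  obtain ⟨C, hC⟩ := Filter.eventually_atTop.1 hev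
  refine ⟨C, ?_⟩
  intro n m hn hm
  have h1 := hC n hn
  set μ : ℝ := (((r : ℝ) - 1) / r) ^ n * m with hμ
  have hbδ : 0 < (b ^ δ) ^ n := by positivity
  have hμlow : (b ^ δ) ^ n ≤ μ := by
    have e1 : (((r : ℝ) - 1) / r) ^ n = (b ^ n)⁻¹ := by
      rw [hb, ← inv_pow, inv_div]
    rw [hμ, e1, ← Real.rpow_natCast, ← Real.rpow_mul hb0.le]
    rw [inv_mul_eq_div, le_div_iff₀ (by positivity)]
    refine le_trans (le_of_eq ?_) hm
    rw [← Real.rpow_natCast b n, ← Real.rpow_add hb0]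
    congr 1
    ring
  have hμ0 : 0 < μ := lt_of_lt_of_le hbδ hμlow
  rw [div_lt_iff₀ hbδ] at h1
  have hn1 : (n : ℝ) ≤ κ * μ := h1.le.trans (mul_le_mul_of_nonneg_left hμlow hκ0.le)
  obtain ⟨hlow, hup⟩ := Pool.Agent.K6.H73.TP.bounds (n := n) (m := m) hr
  rw [← hμ] at hlow hup
  have hsq : Real.sqrt (μ * (n * Real.log r)) ≤ ε / 2 * μ := by
    apply Real.sqrt_le_iff.2
    refine ⟨by positivity, ?_⟩
    have h2 : (n : ℝ) ≤ ε ^ 2 / (4 * Real.log r) * μ :=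
      hn1.trans (mul_le_mul_of_nonneg_right (min_le_left _ _) hμ0.le)
    have h3 : (n : ℝ) * Real.log r ≤ ε ^ 2 / 4 * μ := by
      calc (n : ℝ) * Real.log r ≤ ε ^ 2 / (4 * Real.log r) * μ * Real.log r :=
            mul_le_mul_of_nonneg_right h2 hlog.le
        _ = ε ^ 2 / 4 * μ := by
            field_simp
    calc μ * (n * Real.log r) ≤ μ * (ε ^ 2 / 4 * μ) := mul_le_mul_of_nonneg_left h3 hμ0.le
      _ = (ε / 2 * μ) ^ 2 := by ring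
  have hn2 : (n : ℝ) ≤ ε * μ := hn1.trans (mul_le_mul_of_nonneg_right (min_le_right _ _) hμ0.le)
  rw [abs_le]
  constructor <;> linarith

end Pool.Agent.K6.H73.TB
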