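import Pool.Agent.K6.H73.TB.Stm3
import Pool.Agent.K6.H73.TB.FIN

set_option autoImplicit false

namespace Pool.Agent.K6.H73.TB

open Pool.Agent.H948R3.TP Sum

/-- the bound up to the very threshold -/
def S_FIN3 : Prop := ∀ r : ℕ, 2 ≤ r → ∃ B : ℕ, ∀ n m : ℕ, B ≤ n → n ≤ m →
  m * (r - 1) ^ (n - Nat.log 2 n ^ 3) < r ^ (n - Nat.log 2 n ^ 3) →
  tp r n m ≤ 6 * r + 16 * r ^ 3 * (Nat.log 2 n + 1)

theorem t_FIN3 (hGL : S_GLU3) (hEX : S_EX2)
    (hSTR : ∀ (X Y : Type) [Fintype X] [Fintype Y] [DecidableEq X] [DecidableEq Y]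
      (r a t N g s j : ℕ) (χ : X → Y → Fin r) (FX : Finset X) (FY E : Finset Y),
      2 ≤ r → 4 * r ^ 2 ≤ a → Fintype.card X < 2 ^ t → 4 * r ^ 2 ≤ s →
      2 * a * (r * (4 * a + 16 * a ^ 2 * t)) ≤ s → Fintype.card X ≤ 2 ^ j * s →
      FX.card + FY.card ≤ N → (∀ y, y ∉ E → Str χ (Fintype.card X + N) y) →
      g + N + s + j * (r * (4 * a + 16 * a ^ 2 * t)) ≤ Fintype.card X →
      Fintype.card Y * (r - 1) ^ g < r ^ g →
      StrOut χ FX FY E (j * (r * (4 * a))) (2 * Fintype.card X))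
    (hC : S_COMB) (hP : S_PIG)
    (hR : S_ROUND) (hF : S_FIN) (hLOG : S_LOG) (hNUM : S_NUM) (hNUM3 : S_NUM3) : S_FIN3 := by
  classical
  intro r hr
  obtain ⟨n₀, hn₀⟩ := hNUM r 1 hr le_rfl
  obtain ⟨n₂, hn₂⟩ := hNUM3 r (4 * r ^ 2)
  obtain ⟨C₁, hC₁⟩ := hF r (by omega)
  obtain ⟨n₁, hn₁⟩ := hLOG 3 C₁
  set B := n₀ + n₁ + n₂ + C₁ + 2 with hB
  refine ⟨B, ?_⟩
  intro n m hnB hnm hm
  by_cases h4 : m ≤ 4 * n
  · -- nearly balanced
    refine (hC₁ n m (by omega) hnm ?_).trans (by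
      have : 0 ≤ 16 * r ^ 3 * (Nat.log 2 n + 1) := Nat.zero_le _
      omega)
    have h5 := hn₁ n (by omega)
    refine le_trans ?_ h5
    apply Nat.pow_le_pow_left
    have h6 : Nat.log 2 m ≤ Nat.log 2 (4 * n) := Nat.log_mono_right h4
    have h7 : Nat.log 2 (4 * n) = Nat.log 2 n + 2 := by
      have hn0 : n ≠ 0 := by omega
      have e : 4 * n = n * 2 * 2 := by ring
      rw [e, Nat.log_mul_base (by norm_num) (by omega), Nat.log_mul_base (by norm_num) hn0]
    omega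
  · push Not at h4
    set t := Nat.log 2 n + 1 with ht
    set t₁ := Nat.log 2 (2 * r * n ^ 3) + 1 with ht₁
    set t₂ := Nat.log 2 (32 * r ^ 3 * t₁) + 1 with ht₂
    set N := (r + 8 * r * t₁) + ((r + 8 * r * t₂) + r) with hN
    obtain ⟨hk1, hk2, -⟩ := hn₀ n t t₁ t₂ N _ _ (by omega) ht ht₁ ht₂ hN rfl rfl
    obtain ⟨hk3, hk4⟩ := hn₂ n t t₁ t₂ N (by omega) ht ht₁ ht₂ hN
    set a := 4 * r ^ 2 with ha
    set s := 4 * r ^ 2 + 2 * a * (r * (4 * a + 16 * a ^ 2 * t)) with hs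
    set g := n - Nat.log 2 n ^ 3 with hg
    have hr1 : 1 ≤ r ^ 2 := Nat.one_le_pow _ _ (by omega)
    have he1 : 32 * r ^ 3 * t₁ < 2 ^ t₂ := Nat.lt_pow_succ_log_self (by norm_num) _
    have ht1' : 2 * r * n ^ 3 < 2 ^ t₁ := Nat.lt_pow_succ_log_self (by norm_num) _
    have hnt : n < 2 ^ t := Nat.lt_pow_succ_log_self (by norm_num) _
    have hn2 : 2 ≤ n := by omega
    have hnt1 : n < 2 ^ t₁ := by
      refine lt_of_le_of_lt ?_ ht1'
      calc n ≤ n ^ 3 := Nat.le_self_pow (by norm_num) n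
        _ = 1 * n ^ 3 := by ring
        _ ≤ 2 * r * n ^ 3 := Nat.mul_le_mul_right _ (by omega)
    have hfin : tp r n m ≤ (r + (r + r)) + t * (r * (4 * a)) + (r + (r + r)) := by
      apply tp_le
      intro χ
      obtain ⟨E, hE, hEs⟩ := hEX (Fin n) (Fin m) r (n + N) χ
      rw [Fintype.card_fin] at hE
      have hE2 : E.card < 2 ^ t₁ := by
        refine lt_of_le_of_lt (hE.trans ?_) ht1'
        calc r * n ^ 2 * (n + N) ≤ r * n ^ 2 * (2 * n) := Nat.mul_le_mul_left _ (by omega)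
          _ = 2 * r * n ^ 3 := by ring
      refine hGL (Fin n) (Fin m) r (r + (r + r)) (t * (r * (4 * a))) (r + (r + r)) N (2 * n) χ E
        ?_ ?_ ?_
      · apply FIN.side hC hP hR (by omega) t₁ t₂ (by omega) (by omega) he1 χ Finset.univ E hE2
        rw [Finset.card_univ, Fintype.card_fin]
        exact hk1
      · intro FX FY hFF
        have h5 := hSTR (Fin n) (Fin m) r a t N g s t χ FX FY E hr le_rfl
          (by rw [Fintype.card_fin]; exact hnt)
          (by rw [hs]; exact Nat.le_add_right _ _)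
          (by rw [hs]; exact Nat.le_add_left _ _)
          (by
            rw [Fintype.card_fin]
            have hs1 : 1 ≤ s := by rw [hs]; omega
            calc n ≤ 2 ^ t * 1 := by omega
              _ ≤ 2 ^ t * s := Nat.mul_le_mul_left _ hs1) hFF
          (by rw [Fintype.card_fin]; exact hEs)
          (by rw [Fintype.card_fin]; omega)
          (by rw [Fintype.card_fin]; exact hm)
        rw [Fintype.card_fin] at h5
        exact h5
      · intro P Z hPc
        rw [Fintype.card_fin] at hPc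
        refine ⟨_, FIN.side hC hP hR (by omega) t₁ t₂ (by omega) (by omega) he1 _ P Z ?_ ?_⟩
        · have : Z.card ≤ n := by
            have := Finset.card_le_univ Z
            rwa [Fintype.card_fin] at this
          omega
        · omega
    refine hfin.trans (le_of_eq ?_)
    rw [ha]
    ring

end Pool.Agent.K6.H73.TB
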