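import Pool.Agent.K6.H73.TB.Stm3

set_option autoImplicit false

/-! Piece GRD: greedy choice of colours from lists without loss. -/

namespace Pool.Agent.K6.H73.TB

namespace GRD

/-- some `x` has few bad elements -/
theorem exists_few {X Y : Type} [DecidableEq X] [DecidableEq Y] (r β : ℕ)
    (P : X → Y → Prop) [∀ x y, Decidable (P x y)] (V : Finset X) (Z : Finset Y)
    (h : ∀ y ∈ Z, (V.filter (fun x => P x y)).card ≤ β) (hV : r * β < V.card) (hZ : 0 < Z.card) :
    ∃ x ∈ V, r * (Z.filter (fun y => P x y)).card ≤ Z.card := by
  by_contra hcon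
  push Not at hcon
  have h1 : ∑ x ∈ V, (Z.filter (fun y => P x y)).card = ∑ y ∈ Z, (V.filter (fun x => P x y)).card := by
    simp only [Finset.card_filter]
    exact Finset.sum_comm
  have h2 : ∑ y ∈ Z, (V.filter (fun x => P x y)).card ≤ Z.card * β := by
    have := Finset.sum_le_card_nsmul Z _ β h
    simpa using this
  have h3 : V.card * Z.card ≤ ∑ x ∈ V, r * (Z.filter (fun y => P x y)).card := by
    have := Finset.card_nsmul_le_sum V (fun x => r * (Z.filter (fun y => P x y)).card) Z.card
      (fun x hx => (hcon x hx).le)
    simpa using this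
  rw [← Finset.mul_sum, h1] at h3
  have h4 : V.card * Z.card ≤ r * (Z.card * β) := h3.trans (Nat.mul_le_mul_left _ h2)
  have h5 : r * β * Z.card < V.card * Z.card := Nat.mul_lt_mul_of_pos_right hV hZ
  have h6 : r * (Z.card * β) = r * β * Z.card := by ring
  omega

/-- some colour of the list is frequent -/
theorem exists_colour {Y : Type} [DecidableEq Y] (r : ℕ) (f : Y → Fin r) (L : Finset (Fin r))
    (Z : Finset Y) (hr : 2 ≤ r) (hZ : 0 < Z.card)
    (hb : r * (Z.filter (fun y => f y ∉ L)).card ≤ Z.card) :
    ∃ i ∈ L, Z.card ≤ r * (Z.filter (fun y => f y = i)).card := by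
  by_contra hcon
  push Not at hcon
  have h1 : (Z.filter (fun y => f y ∈ L)).card = ∑ i ∈ L, (Z.filter (fun y => f y = i)).card := by
    rw [Finset.card_eq_sum_card_fiberwise (f := f) (t := L)
      (fun y hy => by simpa using (Finset.mem_filter.1 hy).2)]
    refine Finset.sum_congr rfl fun i hi => ?_
    congr 1
    ext y
    simp only [Finset.mem_filter]
    constructor
    · rintro ⟨⟨a, b⟩, c⟩
      exact ⟨a, c⟩
    · rintro ⟨a, c⟩
      exact ⟨⟨a, c ▸ hi⟩, c⟩
  have h2 : (Z.filter (fun y => f y ∈ L)).card + (Z.filter (fun y => f y ∉ L)).card = Z.card :=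
    Finset.card_filter_add_card_filter_not _
  have h3 : ∑ i ∈ L, (r * (Z.filter (fun y => f y = i)).card + 1) ≤ L.card * Z.card := by
    have := Finset.sum_le_card_nsmul L (fun i => r * (Z.filter (fun y => f y = i)).card + 1) Z.card
      (fun i hi => hcon i hi)
    simpa using this
  rw [Finset.sum_add_distrib, ← Finset.mul_sum, ← h1] at h3
  simp only [Finset.sum_const, smul_eq_mul, mul_one] at h3
  have hL : L.card ≤ r := by simpa using Finset.card_le_univ L
  by_cases hu : L = Finset.univ
  · subst hu
    have h7 : (Z.filter (fun y => f y ∈ (Finset.univ : Finset (Fin r)))).card = Z.card := by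
      simp
    rw [h7] at h3
    simp only [Finset.card_univ, Fintype.card_fin] at h3
    omega
  · have hlt : L.card < r := by
      have := Finset.card_lt_card (Finset.ssubset_univ_iff.2 hu)
      simpa using this
    have h4 : r * Z.card = r * (Z.filter (fun y => f y ∈ L)).card +
        r * (Z.filter (fun y => f y ∉ L)).card := by
      rw [← mul_add, h2]
    have h5 : (L.card + 1) * Z.card ≤ r * Z.card := Nat.mul_le_mul_right _ hlt
    have h6 : (L.card + 1) * Z.card = L.card * Z.card + Z.card := by ring
    by_cases h0 : L.card = 0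
    · rw [h0] at h3
      have h7 : 2 * Z.card ≤ r * Z.card := Nat.mul_le_mul_right _ hr
      omega
    · omega

end GRD

theorem t_GRD : S_GRD := by
  intro X Y _ _ r β χ L V
  induction V using Finset.strongInduction with
  | H V ih =>
    intro Z hr h
    by_cases h0 : V.card ≤ r * β ∨ Z = ∅
    · refine ⟨∅, fun _ => ⟨0, by omega⟩, Z, by simp, subset_rfl, by simpa using h0, by simp,
        fun y hy hy' => absurd hy hy', by simp⟩
    · push Not at h0
      obtain ⟨hV, hZ⟩ := h0
      have hZ' : 0 < Z.card := Finset.card_pos.2 (Finset.nonempty_iff_ne_empty.2 (by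
        first | exact hZ | exact hZ.ne_empty))
      obtain ⟨x, hxV, hx⟩ := GRD.exists_few r β (fun x y => χ x y ∉ L x) V Z h hV hZ'
      obtain ⟨i, hi, hci⟩ := GRD.exists_colour r (χ x) (L x) Z hr hZ' hx
      have hsum : (Z.filter (fun y => χ x y = i)).card + (Z.filter (fun y => ¬ χ x y = i)).card =
          Z.card := Finset.card_filter_add_card_filter_not _
      obtain ⟨K, c, Z', hK, hZZ, hsize, hc, hcov, hnum⟩ := ih (V.erase x)
        (Finset.erase_ssubset hxV) (Z.filter (fun y => ¬ χ x y = i)) hr (fun y hy => by
          refine (Finset.card_le_card ?_).trans (h y (Finset.mem_filter.1 hy).1)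
          exact Finset.filter_subset_filter _ (Finset.erase_subset _ _))
      have hxK : x ∉ K := fun hh => (Finset.mem_erase.1 (hK hh)).1 rfl
      refine ⟨insert x K, Function.update c x i, Z', ?_, hZZ.trans (Finset.filter_subset _ _), ?_,
        ?_, ?_, ?_⟩
      · intro z hz
        rcases Finset.mem_insert.1 hz with rfl | hz
        · exact hxV
        · exact (Finset.mem_erase.1 (hK hz)).2
      · have : V \ insert x K = V.erase x \ K := by
          ext z
          simp only [Finset.mem_sdiff, Finset.mem_insert, Finset.mem_erase]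
          tauto
        rw [this]
        exact hsize
      · intro z hz
        rcases Finset.mem_insert.1 hz with rfl | hz
        · simpa using hi
        · have hne : z ≠ x := fun hh => hxK (hh ▸ hz)
          rw [Function.update_of_ne hne]
          exact hc z hz
      · intro y hy hy'
        by_cases hyi : χ x y = i
        · exact ⟨x, Finset.mem_insert_self _ _, by simpa using hyi⟩
        · obtain ⟨z, hz, hzy⟩ := hcov y (Finset.mem_filter.2 ⟨hy, hyi⟩) hy'
          have hne : z ≠ x := fun hh => hxK (hh ▸ hz)
          exact ⟨z, Finset.mem_insert_of_mem hz, by rw [Function.update_of_ne hne]; exact hzy⟩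
      · rw [Finset.card_insert_of_notMem hxK, pow_succ, pow_succ]
        have h1 : r * (Z.filter (fun y => ¬ χ x y = i)).card ≤ (r - 1) * Z.card := by
          obtain ⟨q, rfl⟩ : ∃ q, r = q + 1 := ⟨r - 1, by omega⟩
          have h2 : (q + 1) * Z.card = (q + 1) * (Z.filter (fun y => χ x y = i)).card +
              (q + 1) * (Z.filter (fun y => ¬ χ x y = i)).card := by
            rw [← mul_add, hsum]
          have h3 : (q + 1) * Z.card = q * Z.card + Z.card := by ring
          simp only [Nat.add_sub_cancel]
          omega
        calc Z'.card * (r ^ K.card * r) = (Z'.card * r ^ K.card) * r := by ring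
          _ ≤ ((Z.filter (fun y => ¬ χ x y = i)).card * (r - 1) ^ K.card) * r :=
            Nat.mul_le_mul_right _ hnum
          _ = (r * (Z.filter (fun y => ¬ χ x y = i)).card) * (r - 1) ^ K.card := by ring
          _ ≤ ((r - 1) * Z.card) * (r - 1) ^ K.card := Nat.mul_le_mul_right _ h1
          _ = Z.card * ((r - 1) ^ K.card * (r - 1)) := by ring

end Pool.Agent.K6.H73.TB
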