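import Pool.Agent.K6.H73.TB.Stm3

set_option autoImplicit false

/-! Piece HFR (helper31): the forest given by roots, hubs and the elements attached to hubs. -/

namespace Pool.Agent.K6.H73.TB

open Classical in
theorem t_HFR : S_HFR := by
  intro X _ r H R W K c hsym hdis hW hK hKW
  -- the colour
  obtain ⟨c', hc'⟩ : ∃ c' : X → Fin r, c' = fun x =>
      if h : ∃ i, x ∈ R i ∪ W i then h.choose else c x := ⟨_, rfl⟩
  have hc1 : ∀ x i, x ∈ R i ∪ W i → c' x = i := by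
    intro x i hx
    have h : ∃ i, x ∈ R i ∪ W i := ⟨i, hx⟩
    have h1 : c' x = h.choose := by rw [hc']; exact dif_pos h
    by_contra hne
    rw [h1] at hne
    exact Finset.disjoint_left.1 (hdis _ _ hne) h.choose_spec hx
  have hc2 : ∀ x, (¬ ∃ i, x ∈ R i ∪ W i) → c' x = c x := by
    intro x hx
    rw [hc']
    exact dif_neg hx
  -- the root of a hub
  obtain ⟨g, hg⟩ : ∃ g : X → X, g = fun x =>
      if ∃ i, x ∈ R i then x else
        if h : ∃ ρ, ρ ∈ R (c' x) ∧ H (c' x) x ρ then h.choose else x := ⟨_, rfl⟩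
  have hg1 : ∀ x, (∃ i, x ∈ R i) → g x = x := by
    intro x hx
    rw [hg]
    exact if_pos hx
  have hg2 : ∀ x i, x ∈ W i → (¬ ∃ i, x ∈ R i) → g x ∈ R i ∧ H i x (g x) := by
    intro x i hx hR
    have hci : c' x = i := hc1 x i (Finset.mem_union_right _ hx)
    have h : ∃ ρ, ρ ∈ R (c' x) ∧ H (c' x) x ρ := by
      rw [hci]
      obtain ⟨ρ, h1, h2⟩ := hW i x hx
      exact ⟨ρ, h1, h2⟩
    have h1 : g x = h.choose := by
      rw [hg]
      simp only
      rw [if_neg hR]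
      exact dif_pos h
    have h2 := h.choose_spec
    rw [← h1] at h2
    rw [hci] at h2
    exact h2
  -- the hub of an element of `K`
  obtain ⟨hub, hhub⟩ : ∃ hub : X → X, hub = fun x =>
      if h : ∃ w, w ∈ W (c x) ∧ H (c x) x w then h.choose else x := ⟨_, rfl⟩
  have hh : ∀ x ∈ K, hub x ∈ W (c x) ∧ H (c x) x (hub x) := by
    intro x hx
    have h : ∃ w, w ∈ W (c x) ∧ H (c x) x w := by
      obtain ⟨w, h1, h2⟩ := hKW x hx
      exact ⟨w, h1, h2⟩
    have h1 : hub x = h.choose := by rw [hhub]; exact dif_pos h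
    rw [h1]
    exact h.choose_spec
  have hKin : ∀ x ∈ K, ¬ ∃ i, x ∈ R i ∪ W i := fun x hx ⟨i, hi⟩ => hK x hx i hi
  have memR : ∀ x, x ∈ Finset.univ.biUnion R ↔ ∃ i, x ∈ R i := by
    intro x
    simp
  have memU : ∀ x, x ∈ (Finset.univ.biUnion fun i => R i ∪ W i) ↔ ∃ i, x ∈ R i ∪ W i := by
    intro x
    rw [Finset.mem_biUnion]
    exact ⟨fun ⟨i, _, h⟩ => ⟨i, h⟩, fun ⟨i, h⟩ => ⟨i, Finset.mem_univ i, h⟩⟩
  have hgU : ∀ x, (∃ i, x ∈ R i ∪ W i) → g x ∈ Finset.univ.biUnion R := by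
    rintro x ⟨i, hi⟩
    rw [memR]
    by_cases hR : ∃ i, x ∈ R i
    · rw [hg1 x hR]; exact hR
    · rcases Finset.mem_union.1 hi with h | h
      · exact absurd ⟨i, h⟩ hR
      · exact ⟨i, (hg2 x i h hR).1⟩
  have hhU : ∀ x ∈ K, ∃ i, hub x ∈ R i ∪ W i := fun x hx =>
    ⟨c x, Finset.mem_union_right _ (hh x hx).1⟩
  obtain ⟨par, hpar1, hpar2⟩ : ∃ par : X → X, (∀ x, (∃ i, x ∈ R i ∪ W i) → par x = g x) ∧
      ∀ x, (¬ ∃ i, x ∈ R i ∪ W i) → par x = hub x :=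
    ⟨fun x => if ∃ i, x ∈ R i ∪ W i then g x else hub x, fun x h => if_pos h, fun x h => if_neg h⟩
  obtain ⟨rt, hrt1, hrt2⟩ : ∃ rt : X → X, (∀ x, (∃ i, x ∈ R i ∪ W i) → rt x = g x) ∧
      ∀ x, (¬ ∃ i, x ∈ R i ∪ W i) → rt x = g (hub x) :=
    ⟨fun x => if ∃ i, x ∈ R i ∪ W i then g x else g (hub x), fun x h => if_pos h,
      fun x h => if_neg h⟩
  obtain ⟨dep, hd0, hd1, hd2⟩ : ∃ dep : X → ℕ, (∀ x, (∃ i, x ∈ R i) → dep x = 0) ∧
      (∀ x, (¬ ∃ i, x ∈ R i) → (∃ i, x ∈ R i ∪ W i) → dep x = 1) ∧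
      ∀ x, (¬ ∃ i, x ∈ R i) → (¬ ∃ i, x ∈ R i ∪ W i) → dep x = 2 := by
    refine ⟨fun x => if ∃ i, x ∈ R i then 0 else if ∃ i, x ∈ R i ∪ W i then 1 else 2,
      fun x h => if_pos h, fun x h h' => ?_, fun x h h' => ?_⟩
    · simp only
      rw [if_neg h, if_pos h']
    · simp only
      rw [if_neg h, if_neg h']
  refine ⟨c', fun x hx => hc2 x (hKin x hx), ?_, par, dep, rt, ?_, ?_, ?_⟩
  · intro x hx
    apply Finset.mem_union_right
    rw [memU]
    obtain ⟨i, hi⟩ := (memR x).1 hx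
    exact ⟨i, Finset.mem_union_left _ hi⟩
  · intro ρ hρ
    obtain ⟨i, hi⟩ := (memR ρ).1 hρ
    rw [hrt1 ρ ⟨i, Finset.mem_union_left _ hi⟩, hg1 ρ ⟨i, hi⟩]
  · intro x hx
    by_cases hin : ∃ i, x ∈ R i ∪ W i
    · rw [hrt1 x hin]
      exact hgU x hin
    · rw [hrt2 x hin]
      have hxK : x ∈ K := by
        rcases Finset.mem_union.1 hx with h | h
        · exact h
        · exact absurd ((memU x).1 h) hin
      exact hgU _ (hhU x hxK)
  · intro x hx hxR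
    have hxR' : ¬ ∃ i, x ∈ R i := fun h => hxR ((memR x).2 h)
    by_cases hin : ∃ i, x ∈ R i ∪ W i
    · obtain ⟨i, hi⟩ := hin
      have hWi : x ∈ W i := by
        rcases Finset.mem_union.1 hi with h | h
        · exact absurd ⟨i, h⟩ hxR'
        · exact h
      obtain ⟨h1, h2⟩ := hg2 x i hWi hxR'
      have hgin : ∃ j, g x ∈ R j ∪ W j := ⟨i, Finset.mem_union_left _ h1⟩
      have hin' : ∃ j, x ∈ R j ∪ W j := ⟨i, hi⟩
      rw [hpar1 x hin', hd0 (g x) ⟨i, h1⟩, hd1 x hxR' hin', hrt1 x hin', hrt1 (g x) hgin,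
        hg1 (g x) ⟨i, h1⟩, hc1 x i hi, hc1 (g x) i (Finset.mem_union_left _ h1)]
      exact ⟨Finset.mem_union_right _ ((memU _).2 hgin), by norm_num, rfl, rfl, hsym _ _ _ h2⟩
    · have hxK : x ∈ K := by
        rcases Finset.mem_union.1 hx with h | h
        · exact h
        · exact absurd ((memU x).1 h) hin
      obtain ⟨h1, h2⟩ := hh x hxK
      have hwin := hhU x hxK
      have hdw : dep (hub x) < 2 := by
        by_cases hr : ∃ i, hub x ∈ R i
        · rw [hd0 _ hr]; norm_num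
        · rw [hd1 _ hr hwin]; norm_num
      rw [hpar2 x hin, hd2 x hxR' hin, hrt2 x hin, hrt1 (hub x) hwin, hc2 x hin,
        hc1 (hub x) (c x) (Finset.mem_union_right _ h1)]
      exact ⟨Finset.mem_union_right _ ((memU _).2 hwin), hdw, rfl, rfl, hsym _ _ _ h2⟩

end Pool.Agent.K6.H73.TB
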