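import Pool.Agent.K6.H73.TB.Stm3

/-! Piece HUBV of call73c (helper82). -/

set_option autoImplicit false

namespace Pool.Agent.K6.H73.TB

/-- HUBV -/
theorem t_HUBV : S_HUBV := by
  intro hub X _ r a t H V U hUV hsym ha hV1 hVt hU hbig
  have hc : Fintype.card {x // x ∈ V} = V.card := Fintype.card_coe V
  obtain ⟨R, W, h1, h2, h3, h4⟩ := hub {x // x ∈ V} r a t (fun i x y => H i x.1 y.1)
    (fun i => (U i).subtype (· ∈ V)) (fun i x y h => hsym i x.1 y.1 h) ha (by rw [hc]; exact hV1)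
    (by rw [hc]; exact hVt)
    (by
      intro i x hx
      rw [Finset.mem_subtype] at hx
      obtain ⟨B, hB, hBc, hBH⟩ := hU i x.1 hx
      refine ⟨B.subtype (· ∈ V), ?_, ?_, ?_⟩
      · intro y hy
        rw [Finset.mem_subtype] at hy ⊢
        exact hB hy
      · rw [hc, Finset.card_subtype, Finset.filter_true_of_mem]
        · exact hBc
        · intro y hy
          exact hUV i (hB hy)
      · intro y hy
        rw [Finset.mem_subtype] at hy
        exact hBH y.1 hy)
    (by rw [hc]; exact hbig)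
  have hmem : ∀ (A : Finset {x // x ∈ V}) (x : X),
      x ∈ A.map (Function.Embedding.subtype _) ↔ ∃ h : x ∈ V, (⟨x, h⟩ : {x // x ∈ V}) ∈ A := by
    intro A x
    rw [Finset.mem_map]
    constructor
    · rintro ⟨y, hy, rfl⟩
      exact ⟨y.2, hy⟩
    · rintro ⟨h, hx⟩
      exact ⟨⟨x, h⟩, hx, rfl⟩
  refine ⟨fun i => (R i).map (Function.Embedding.subtype _),
    fun i => (W i).map (Function.Embedding.subtype _), ?_, ?_, ?_, ?_⟩
  · intro i
    obtain ⟨hR, hW, hRc, hWc⟩ := h1 i
    refine ⟨?_, ?_, ?_, ?_⟩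
    · intro x hx
      obtain ⟨h, hx⟩ := (hmem _ _).1 hx
      exact Finset.mem_subtype.1 (hR hx)
    · intro x hx
      obtain ⟨h, hx⟩ := (hmem _ _).1 hx
      exact Finset.mem_subtype.1 (hW hx)
    · rw [Finset.card_map]; exact hRc
    · rw [Finset.card_map]; exact hWc
  · intro i j hij
    have := h2 i j hij
    show Disjoint ((R i).map (Function.Embedding.subtype _) ∪ (W i).map (Function.Embedding.subtype _))
      ((R j).map (Function.Embedding.subtype _) ∪ (W j).map (Function.Embedding.subtype _))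
    rw [← Finset.map_union, ← Finset.map_union, Finset.disjoint_map]
    exact this
  · intro i w hw
    obtain ⟨h, hw⟩ := (hmem _ _).1 hw
    obtain ⟨ρ, hρ, hH⟩ := h3 i _ hw
    exact ⟨ρ.1, (hmem _ _).2 ⟨ρ.2, hρ⟩, hH⟩
  · intro i x hx hno
    have hxV : x ∈ V := hUV i hx
    obtain ⟨w, hw, hH⟩ := h4 i ⟨x, hxV⟩ (Finset.mem_subtype.2 hx) (by
      intro j hj
      apply hno j
      rw [Finset.mem_union] at hj ⊢
      rcases hj with hj | hj
      · exact Or.inl ((hmem _ _).2 ⟨hxV, hj⟩)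
      · exact Or.inr ((hmem _ _).2 ⟨hxV, hj⟩))
    exact ⟨w.1, (hmem _ _).2 ⟨w.2, hw⟩, hH⟩

end Pool.Agent.K6.H73.TB
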