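import Pool.Agent.K6.H73.TB.Stm3

/-!
# Piece ITR: iteration of the levels
-/

set_option autoImplicit false

namespace Pool.Agent.K6.H73.TB

open Pool.Agent.H948R3.TP Sum

namespace ITR

theorem half {A B a r s : ℕ} (h1 : a * B ≤ r * (r * (A + a))) (ha : 4 * r ^ 2 ≤ a)
    (hs : 4 * r ^ 2 ≤ s) (hsA : s < A) (ha1 : 1 ≤ a) : 2 * B ≤ A := by
  have h2 : 4 * r ^ 2 * A ≤ a * A := Nat.mul_le_mul_right A ha
  have h3 : 4 * r ^ 2 * a ≤ A * a := Nat.mul_le_mul_right a (hs.trans hsA.le)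
  have h4 : 4 * (a * B) ≤ 4 * (r * (r * (A + a))) := Nat.mul_le_mul_left 4 h1
  have h5 : 2 * a * (2 * B) ≤ 2 * a * A := by nlinarith
  exact Nat.le_of_mul_le_mul_left h5 (by omega)

end ITR

theorem t_ITR : S_ITR := by
  intro hHUBS hHUBV hGRD hHFR hLEV hUNF X Y _ _ r a t s χ H hr ha hsym hs hs2 j
  have ha1 : 1 ≤ a := by nlinarith
  induction j with
  | zero =>
    intro V Z hVt hVs hcl
    refine ⟨∅, ∅, fun _ => ⟨0, by omega⟩, Z, Finset.empty_subset _, subset_rfl,
      ⟨subset_rfl, id, fun _ => 0, id, ?_, ?_, ?_⟩, by simp, ?_, Or.inr ⟨0, ?_, ?_⟩⟩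
    · intro ρ hρ; simp at hρ
    · intro x hx; simp at hx
    · intro x hx; simp at hx
    · intro y hy hy'; exact absurd hy hy'
    · simpa using hVs
    · simp
  | succ j ih =>
    intro V Z hVt hVs hcl
    by_cases hVs' : V.card ≤ s
    · refine ⟨∅, ∅, fun _ => ⟨0, by omega⟩, Z, Finset.empty_subset _, subset_rfl,
        ⟨subset_rfl, id, fun _ => 0, id, ?_, ?_, ?_⟩, by simp, ?_, Or.inr ⟨0, ?_, ?_⟩⟩
      · intro ρ hρ; simp at hρ
      · intro x hx; simp at hx
      · intro x hx; simp at hx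
      · intro y hy hy'; exact absurd hy hy'
      · omega
      · simp
    · push Not at hVs'
      obtain ⟨K₁, R₁, c₁, Z₁, g₁, hK₁, hZ₁, hF₁, hR₁, hcov₁, hor, hKg₁, hZg₁⟩ :=
        hLEV hHUBS hHUBV hGRD hHFR X Y r a t χ H V Z hr ha1 hsym (by omega) hVt hcl
          (hs2.trans hVs'.le)
      by_cases hZe : Z₁ = ∅
      · refine ⟨K₁, R₁, c₁, Z₁, hK₁, hZ₁, hF₁, ?_, hcov₁, Or.inl hZe⟩
        refine hR₁.trans ?_
        exact Nat.le_mul_of_pos_left _ (Nat.succ_pos j)
      · have hle := hor.resolve_right hZe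
        have hhalf := ITR.half hle ha hs hVs' ha1
        have hcard : (V \ K₁).card ≤ 2 ^ j * s := by
          have : V.card ≤ 2 * (2 ^ j * s) := by
            calc V.card ≤ 2 ^ (j + 1) * s := hVs
              _ = 2 * (2 ^ j * s) := by ring
          omega
        have hlt : (V \ K₁).card < 2 ^ t :=
          lt_of_le_of_lt (Finset.card_le_card Finset.sdiff_subset) hVt
        obtain ⟨K₂, R₂, c₂, Z₂, hK₂, hZ₂, hF₂, hR₂, hcov₂, hor₂⟩ := ih (V \ K₁) Z₁ hlt hcard
          (fun y hy x hx x' hx' hne he => hcl y (hZ₁ hy) x (Finset.mem_sdiff.1 hx).1 x'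
            (Finset.mem_sdiff.1 hx').1 hne he)
        have hdisj : Disjoint K₁ K₂ := by
          rw [Finset.disjoint_right]
          intro x hx
          exact (Finset.mem_sdiff.1 (hK₂ hx)).2
        refine ⟨K₁ ∪ K₂, R₁ ∪ R₂, fun x => if x ∈ K₁ then c₁ x else c₂ x, Z₂,
          Finset.union_subset hK₁ (hK₂.trans Finset.sdiff_subset), hZ₂.trans hZ₁,
          hUNF X r H K₁ R₁ K₂ R₂ c₁ c₂ hdisj hF₁ hF₂, ?_, ?_, ?_⟩
        · calc (R₁ ∪ R₂).card ≤ R₁.card + R₂.card := Finset.card_union_le _ _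
            _ ≤ r * (4 * a) + j * (r * (4 * a)) := Nat.add_le_add hR₁ hR₂
            _ = (j + 1) * (r * (4 * a)) := by ring
        · intro y hy hy2
          by_cases hy1 : y ∈ Z₁
          · obtain ⟨x, hx, hxc⟩ := hcov₂ y hy1 hy2
            have hx1 : x ∉ K₁ := (Finset.mem_sdiff.1 (hK₂ hx)).2
            exact ⟨x, Finset.mem_union_right _ hx, by simp only [hx1, if_false]; exact hxc⟩
          · obtain ⟨x, hx, hxc⟩ := hcov₁ y hy hy1
            exact ⟨x, Finset.mem_union_left _ hx, by simp only [hx, if_true]; exact hxc⟩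
        · rcases hor₂ with h | ⟨g₂, hg₂, hZg₂⟩
          · exact Or.inl h
          · refine Or.inr ⟨g₁ + g₂, ?_, ?_⟩
            · have h1 : V.card = (V \ K₁).card + K₁.card :=
                (Finset.card_sdiff_add_card_eq_card hK₁).symm
              have h2 : (j + 1) * (r * (4 * a + 16 * a ^ 2 * t)) =
                  j * (r * (4 * a + 16 * a ^ 2 * t)) + r * (4 * a + 16 * a ^ 2 * t) := by ring
              rw [h2]
              omega
            · calc Z₂.card * r ^ (g₁ + g₂) = (Z₂.card * r ^ g₂) * r ^ g₁ := by ring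
                _ ≤ (Z₁.card * (r - 1) ^ g₂) * r ^ g₁ := Nat.mul_le_mul_right _ hZg₂
                _ = (Z₁.card * r ^ g₁) * (r - 1) ^ g₂ := by ring
                _ ≤ (Z.card * (r - 1) ^ g₁) * (r - 1) ^ g₂ := Nat.mul_le_mul_right _ hZg₁
                _ = Z.card * (r - 1) ^ (g₁ + g₂) := by ring

end Pool.Agent.K6.H73.TB
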