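import Pool.Agent.K6.H73.TB.Stm3

set_option autoImplicit false

namespace Pool.Agent.K6.H73.TB

open Pool.Agent.H948R3.TP Sum

namespace LEV

open Classical in
/-- elements of `V` in a large clique of `H i` -/
noncomputable def U {X : Type} {r : ℕ} (H : Fin r → X → X → Prop) (a : ℕ) (V : Finset X)
    (i : Fin r) : Finset X :=
  V.filter (fun x => ∃ S : Finset X, S ⊆ V ∧ x ∈ S ∧ (∀ u ∈ S, ∀ v ∈ S, u ≠ v → H i u v) ∧
    V.card + a ≤ a * S.card)

theorem mem_U {X : Type} {r : ℕ} {H : Fin r → X → X → Prop} {a : ℕ} {V : Finset X}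
    {i : Fin r} {x : X} : x ∈ U H a V i ↔ x ∈ V ∧ ∃ S : Finset X, S ⊆ V ∧ x ∈ S ∧
      (∀ u ∈ S, ∀ v ∈ S, u ≠ v → H i u v) ∧ V.card + a ≤ a * S.card := by
  classical
  unfold U
  rw [Finset.mem_filter]

theorem U_sub {X : Type} {r : ℕ} (H : Fin r → X → X → Prop) (a : ℕ) (V : Finset X)
    (i : Fin r) : U H a V i ⊆ V := fun _ hx => (mem_U.1 hx).1

theorem big {X : Type} [DecidableEq X] {r : ℕ} (H : Fin r → X → X → Prop) (a : ℕ) (V : Finset X)
    (i : Fin r) : ∀ x ∈ U H a V i, ∃ B ⊆ U H a V i, V.card ≤ a * B.card ∧ ∀ y ∈ B, H i x y := by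
  intro x hx
  obtain ⟨hxV, S, hSV, hxS, hcl, hS⟩ := mem_U.1 hx
  refine ⟨S.erase x, ?_, ?_, ?_⟩
  · intro y hy
    have hyS := Finset.mem_of_mem_erase hy
    exact mem_U.2 ⟨hSV hyS, S, hSV, hyS, hcl, hS⟩
  · have h1 : (S.erase x).card + 1 = S.card := Finset.card_erase_add_one hxS
    rw [← h1, Nat.mul_add, Nat.mul_one] at hS
    omega
  · intro y hy
    exact hcl x hxS y (Finset.mem_of_mem_erase hy) (Finset.ne_of_mem_erase hy).symm

theorem bad {X Y : Type} [DecidableEq X] {r : ℕ} (a : ℕ) (χ : X → Y → Fin r)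
    (H : Fin r → X → X → Prop) (V V1 : Finset X) (hV1 : V1 ⊆ V) (y : Y)
    (L : X → Finset (Fin r)) (hL : ∀ x i, i ∈ L x ↔ x ∈ U H a V i)
    (hcl : ∀ x ∈ V, ∀ x' ∈ V, x ≠ x' → χ x y = χ x' y → H (χ x y) x x') :
    a * (V1.filter (fun x => χ x y ∉ L x)).card ≤ r * (V.card + a) := by
  classical
  have hsub : V1.filter (fun x => χ x y ∉ L x) ⊆ (Finset.univ : Finset (Fin r)).biUnion
      (fun i => V.filter (fun x => χ x y = i ∧ x ∉ U H a V i)) := by
    intro x hx
    rw [Finset.mem_filter] at hx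
    rw [Finset.mem_biUnion]
    refine ⟨χ x y, Finset.mem_univ _, ?_⟩
    rw [Finset.mem_filter]
    exact ⟨hV1 hx.1, rfl, fun h => hx.2 ((hL _ _).2 h)⟩
  have hone : ∀ i : Fin r,
      a * (V.filter (fun x => χ x y = i ∧ x ∉ U H a V i)).card ≤ V.card + a := by
    intro i
    by_cases hbig : V.card + a ≤ a * (V.filter (fun x => χ x y = i)).card
    · have hem : V.filter (fun x => χ x y = i ∧ x ∉ U H a V i) = ∅ := by
        rw [Finset.filter_eq_empty_iff]
        rintro x hx ⟨hxi, hxU⟩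
        apply hxU
        refine mem_U.2 ⟨hx, V.filter (fun x => χ x y = i), Finset.filter_subset _ _,
          Finset.mem_filter.2 ⟨hx, hxi⟩, ?_, hbig⟩
        intro u hu v hv huv
        rw [Finset.mem_filter] at hu hv
        have h := hcl u hu.1 v hv.1 huv (hu.2.trans hv.2.symm)
        rw [hu.2] at h
        exact h
      rw [hem]
      simp
    · have hle : (V.filter (fun x => χ x y = i ∧ x ∉ U H a V i)).card ≤
          (V.filter (fun x => χ x y = i)).card := by
        apply Finset.card_le_card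
        intro x hx
        rw [Finset.mem_filter] at hx ⊢
        exact ⟨hx.1, hx.2.1⟩
      have := Nat.mul_le_mul_left a hle
      omega
  calc a * (V1.filter (fun x => χ x y ∉ L x)).card
      ≤ a * ((Finset.univ : Finset (Fin r)).biUnion
        (fun i => V.filter (fun x => χ x y = i ∧ x ∉ U H a V i))).card :=
        Nat.mul_le_mul_left a (Finset.card_le_card hsub)
    _ ≤ a * ∑ i : Fin r, (V.filter (fun x => χ x y = i ∧ x ∉ U H a V i)).card :=
        Nat.mul_le_mul_left a Finset.card_biUnion_le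
    _ = ∑ i : Fin r, a * (V.filter (fun x => χ x y = i ∧ x ∉ U H a V i)).card := by
        rw [Finset.mul_sum]
    _ ≤ ∑ _i : Fin r, (V.card + a) := Finset.sum_le_sum (fun i _ => hone i)
    _ = r * (V.card + a) := by simp

theorem card_bi {X : Type} [DecidableEq X] {r : ℕ} (A : Fin r → Finset X) (k : ℕ)
    (h : ∀ i, (A i).card ≤ k) : (Finset.univ.biUnion A).card ≤ r * k := by
  calc (Finset.univ.biUnion A).card ≤ ∑ i : Fin r, (A i).card := Finset.card_biUnion_le
    _ ≤ ∑ _i : Fin r, k := Finset.sum_le_sum (fun i _ => h i)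
    _ = r * k := by simp

end LEV

open LEV in
theorem t_LEV : S_LEV := by
  classical
  intro hHUBS hHUBV hGRD hHFR X Y _ _ r a t χ H V Z h2r ha hsym hV1 hVt hcl hbig
  obtain ⟨R, W, hRW, hdisj, hWρ, hatt⟩ := hHUBV hHUBS X r a t H V (U H a V) (U_sub H a V) hsym ha
    hV1 hVt (big H a V) hbig
  set F : Finset X := Finset.univ.biUnion fun i => R i ∪ W i with hF
  have hFcard : F.card ≤ r * (4 * a + 16 * a ^ 2 * t) := by
    rw [hF]
    apply card_bi
    intro i
    exact (Finset.card_union_le _ _).trans (Nat.add_le_add (hRW i).2.2.1 (hRW i).2.2.2)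
  have hFV : F ⊆ V := by
    intro x hx
    rw [hF, Finset.mem_biUnion] at hx
    obtain ⟨i, -, hx⟩ := hx
    rcases Finset.mem_union.1 hx with h | h
    · exact U_sub H a V i ((hRW i).1 h)
    · exact U_sub H a V i ((hRW i).2.1 h)
  set L : X → Finset (Fin r) := fun x => Finset.univ.filter (fun i => x ∈ U H a V i) with hL
  have hLm : ∀ x i, i ∈ L x ↔ x ∈ U H a V i := by
    intro x i
    simp [hL]
  obtain ⟨K, c, Z', hKV, hZ', hsm, hcL, hcov, hZc⟩ := hGRD X Y r (r * (V.card + a) / a) χ L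
    (V \ F) Z h2r (by
      intro y hy
      rw [Nat.le_div_iff_mul_le (by omega), Nat.mul_comm]
      exact bad a χ H V (V \ F) Finset.sdiff_subset y L hLm (hcl y hy))
  have hKF : ∀ x ∈ K, ∀ j, x ∉ R j ∪ W j := by
    intro x hx j hxj
    have h1 := hKV hx
    rw [Finset.mem_sdiff] at h1
    exact h1.2 (by rw [hF, Finset.mem_biUnion]; exact ⟨j, Finset.mem_univ _, hxj⟩)
  obtain ⟨c', hc', hfr⟩ := hHFR X r H R W K c hsym hdisj hWρ hKF (by
    intro x hx
    exact hatt (c x) x ((hLm x (c x)).1 (hcL x hx)) (hKF x hx))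
  refine ⟨K ∪ F, Finset.univ.biUnion R, c', Z', K.card, ?_, hZ', hfr, ?_, ?_, ?_, ?_, hZc⟩
  · exact Finset.union_subset (hKV.trans Finset.sdiff_subset) hFV
  · exact card_bi R (4 * a) (fun i => (hRW i).2.2.1)
  · intro y hy hyZ
    obtain ⟨x, hx, hxy⟩ := hcov y hy hyZ
    exact ⟨x, Finset.mem_union_left _ hx, by rw [hxy, hc' x hx]⟩
  · rcases hsm with h | h
    · left
      have he : V \ (K ∪ F) = (V \ F) \ K := by
        ext x
        simp only [Finset.mem_sdiff, Finset.mem_union]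
        tauto
      rw [he]
      calc a * ((V \ F) \ K).card ≤ a * (r * (r * (V.card + a) / a)) := Nat.mul_le_mul_left a h
        _ = r * (a * (r * (V.card + a) / a)) := by ring
        _ ≤ r * (r * (V.card + a)) := Nat.mul_le_mul_left r (Nat.mul_div_le _ _)
    · right
      exact h
  · exact (Finset.card_union_le _ _).trans (Nat.add_le_add_left hFcard _)

end Pool.Agent.K6.H73.TB
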