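import Pool.Agent.K6.H73.TB.Stm3
import Pool.Agent.K6.H73.TB.LOG

set_option autoImplicit false

/-!
The piece NUM3 of the third call (helper44): the arithmetic.
-/

namespace Pool.Agent.K6.H73.TB

theorem t_NUM3 : S_NUM3 := by
  intro r a
  obtain ⟨K, hK⟩ : ∃ K, K = Nat.log 2 (2 * r) + 1 := ⟨_, rfl⟩
  obtain ⟨A1, hA1⟩ : ∃ A1, A1 = K + 3 := ⟨_, rfl⟩
  obtain ⟨T2, hT2⟩ : ∃ T2, T2 = 32 * r ^ 3 * A1 + 1 := ⟨_, rfl⟩
  obtain ⟨NN, hNN⟩ : ∃ NN, NN = 3 * r + 8 * r * A1 + 8 * r * T2 := ⟨_, rfl⟩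
  obtain ⟨P, hP⟩ : ∃ P, P = r * (4 * a + 16 * a ^ 2) := ⟨_, rfl⟩
  obtain ⟨B, hB⟩ : ∃ B, B = NN + 4 * r ^ 2 + 2 * a * P + 1 + P := ⟨_, rfl⟩
  obtain ⟨m1, hm1⟩ := t_LOG 1 3
  refine ⟨m1 + 2 ^ (4 * B + 1), ?_⟩
  intro n t t₁ t₂ N hn ht ht₁ ht₂ hN
  have hpos : 0 < 2 ^ (4 * B + 1) := by positivity
  have q1 := hm1 n (by omega)
  obtain ⟨L, hL⟩ : ∃ L, L = Nat.log 2 n := ⟨_, rfl⟩
  rw [← hL] at ht q1 ⊢
  have hL4 : 4 * B + 1 ≤ L := by
    rw [hL]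
    exact Nat.le_log_of_pow_le (by norm_num) (by omega)
  have ht1' : 1 ≤ t := by omega
  have hn2 : n < 2 ^ t := by
    rw [ht, hL]; exact Nat.lt_pow_succ_log_self (by norm_num) n
  have hr2 : 2 * r < 2 ^ K := by
    rw [hK]; exact Nat.lt_pow_succ_log_self (by norm_num) (2 * r)
  have hm : 2 * r * n ^ 3 < 2 ^ (K + 3 * t) := by
    rw [pow_add, mul_comm 3 t, pow_mul]
    exact Nat.mul_lt_mul'' hr2 (Nat.pow_lt_pow_left hn2 (by norm_num))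
  have hlog : Nat.log 2 (2 * r * n ^ 3) < K + 3 * t := by
    by_cases h0 : 2 * r * n ^ 3 = 0
    · rw [h0, Nat.log_zero_right]
      omega
    · exact Nat.log_lt_of_lt_pow h0 hm
  have hKt : K ≤ K * t := Nat.le_mul_of_pos_right _ ht1'
  have ht1 : t₁ ≤ A1 * t := by
    rw [hA1, add_mul]; omega
  have ht2 : t₂ ≤ T2 * t := by
    have e1 : Nat.log 2 (32 * r ^ 3 * t₁) ≤ 32 * r ^ 3 * t₁ := Nat.log_le_self _ _
    have e2 : 32 * r ^ 3 * t₁ ≤ 32 * r ^ 3 * (A1 * t) := Nat.mul_le_mul_left _ ht1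
    have e3 : T2 * t = 32 * r ^ 3 * (A1 * t) + t := by rw [hT2]; ring
    omega
  have hNb : N ≤ NN * t := by
    have e1 : 8 * r * t₁ ≤ 8 * r * (A1 * t) := Nat.mul_le_mul_left _ ht1
    have e2 : 8 * r * t₂ ≤ 8 * r * (T2 * t) := Nat.mul_le_mul_left _ ht2
    have e3 : NN * t = 3 * (r * t) + 8 * r * (A1 * t) + 8 * r * (T2 * t) := by
      rw [hNN]; ring
    have e4 : r ≤ r * t := Nat.le_mul_of_pos_right _ ht1'
    omega
  have hPt : r * (4 * a + 16 * a ^ 2 * t) ≤ P * t := by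
    have e1 : 4 * a ≤ 4 * a * t := Nat.le_mul_of_pos_right _ ht1'
    have e2 : P * t = r * (4 * a * t + 16 * a ^ 2 * t) := by rw [hP]; ring
    rw [e2]
    exact Nat.mul_le_mul_left _ (by omega)
  have htt : t ≤ t * t := Nat.le_mul_of_pos_right _ ht1'
  have hall : N + (4 * r ^ 2 + 2 * a * (r * (4 * a + 16 * a ^ 2 * t))) +
      t * (r * (4 * a + 16 * a ^ 2 * t)) + 1 ≤ B * (t * t) := by
    have e1 : N ≤ NN * (t * t) := hNb.trans (Nat.mul_le_mul_left _ htt)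
    have e2 : 4 * r ^ 2 ≤ 4 * r ^ 2 * (t * t) := Nat.le_mul_of_pos_right _ (by positivity)
    have e3 : 2 * a * (r * (4 * a + 16 * a ^ 2 * t)) ≤ 2 * a * P * (t * t) := by
      calc 2 * a * (r * (4 * a + 16 * a ^ 2 * t)) ≤ 2 * a * (P * t) := Nat.mul_le_mul_left _ hPt
        _ = 2 * a * P * t := by ring
        _ ≤ 2 * a * P * (t * t) := Nat.mul_le_mul_left _ htt
    have e4 : t * (r * (4 * a + 16 * a ^ 2 * t)) ≤ P * (t * t) := by
      calc t * (r * (4 * a + 16 * a ^ 2 * t)) ≤ t * (P * t) := Nat.mul_le_mul_left _ hPt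
        _ = P * (t * t) := by ring
    have e5 : 1 ≤ t * t := by omega
    have e6 : B * (t * t) = NN * (t * t) + 4 * r ^ 2 * (t * t) + 2 * a * P * (t * t) + t * t +
        P * (t * t) := by rw [hB]; ring
    omega
  refine ⟨hall.trans ?_, ?_⟩
  · -- `B t² ≤ 4 B L² ≤ L³`
    have e1 : t ≤ 2 * L := by omega
    have e2 : t * t ≤ (2 * L) * (2 * L) := Nat.mul_le_mul e1 e1
    calc B * (t * t) ≤ B * ((2 * L) * (2 * L)) := Nat.mul_le_mul_left _ e2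
      _ = (4 * B) * (L * L) := by ring
      _ ≤ L * (L * L) := Nat.mul_le_mul_right _ (by omega)
      _ = L ^ 3 := by ring
  · rw [one_mul] at q1
    exact (Nat.pow_le_pow_left (Nat.le_succ L) 3).trans q1

end Pool.Agent.K6.H73.TB
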