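import Pool.Agent.K6.H73.TB.Stm3

set_option autoImplicit false

namespace Pool.Agent.K6.H73.TB

open Pool.Agent.H948R3.TP Sum

namespace STR3

lemma card_zero {r g g' m z z' : ℕ} (hr : 2 ≤ r) (hm : m * (r - 1) ^ g < r ^ g) (hg : g ≤ g')
    (hz : z ≤ m) (h : z' * r ^ g' ≤ z * (r - 1) ^ g') : z' = 0 := by
  obtain ⟨d, rfl⟩ := Nat.exists_eq_add_of_le hg
  have h1 : (r - 1) ^ d ≤ r ^ d := Nat.pow_le_pow_left (Nat.sub_le _ _) _
  have h2 : 0 < r ^ d := Nat.pow_pos (by omega)
  have h3 : m * (r - 1) ^ (g + d) < r ^ (g + d) := by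
    calc m * (r - 1) ^ (g + d) = m * (r - 1) ^ g * (r - 1) ^ d := by rw [pow_add]; ring
      _ ≤ m * (r - 1) ^ g * r ^ d := Nat.mul_le_mul_left _ h1
      _ < r ^ g * r ^ d := Nat.mul_lt_mul_of_pos_right hm h2
      _ = r ^ (g + d) := (pow_add _ _ _).symm
  have h4 : z * (r - 1) ^ (g + d) ≤ m * (r - 1) ^ (g + d) := Nat.mul_le_mul_right _ hz
  by_contra hne
  have h5 : 1 * r ^ (g + d) ≤ z' * r ^ (g + d) :=
    Nat.mul_le_mul_right _ (Nat.one_le_iff_ne_zero.2 hne)
  omega

end STR3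

theorem t_STR3 : S_STR3 := by
  classical
  intro h1 h2 h3 h4 h5 h6 h7 h8 X Y _ _ _ _ r a t N g s j χ FX FY E hr ha ht hs hs2 hj hF hStr
    hbig hcard
  set n := Fintype.card X with hn
  let H : Fin r → X → X → Prop := fun i x y => n + N ≤ com χ i x y
  have hHsymm : ∀ i x y, H i x y → H i y x := by
    intro i x y hle
    refine hle.trans (le_of_eq ?_)
    unfold com
    congr 1
    ext z
    simp only [Finset.mem_filter, and_comm]
  have hcount : ∀ i x x', H i x x' → n ≤ ((Finset.univ \ FY).filter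
      (fun z => χ x z = i ∧ χ x' z = i)).card := by
    intro i x x' hle
    have h4 : (Finset.univ.filter (fun z => χ x z = i ∧ χ x' z = i)) ⊆
        ((Finset.univ \ FY).filter (fun z => χ x z = i ∧ χ x' z = i)) ∪ FY := by
      intro z hz
      by_cases hzF : z ∈ FY
      · exact Finset.mem_union_right _ hzF
      · apply Finset.mem_union_left
        rw [Finset.mem_filter] at hz ⊢
        exact ⟨Finset.mem_sdiff.2 ⟨Finset.mem_univ _, hzF⟩, hz.2⟩
    have h5 := (Finset.card_le_card h4).trans (Finset.card_union_le _ _)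
    have hle' : n + N ≤ com χ i x x' := hle
    unfold com at hle'
    omega
  have hVn : (Finset.univ \ FX : Finset X).card ≤ n := Finset.card_le_univ _
  have hVn' : n ≤ (Finset.univ \ FX : Finset X).card + N := by
    have h9 : (Finset.univ : Finset X) ⊆ (Finset.univ \ FX) ∪ FX := by
      intro x _
      by_cases hx : x ∈ FX <;> simp [hx]
    have h10 := (Finset.card_le_card h9).trans (Finset.card_union_le _ _)
    rw [Finset.card_univ, ← hn] at h10
    omega
  obtain ⟨K, R, c, Z', hKV, hZ', hfr, hRc, hcov, hfin⟩ := h7 h1 h2 h3 h4 h5 h6 X Y r a t s χ H hr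
    ha hHsymm hs hs2 j (Finset.univ \ FX) (Finset.univ \ (E ∪ FY)) (lt_of_le_of_lt hVn ht)
    (hVn.trans hj) (by
      intro y hy x _ x' _ hne heq
      have hyE : y ∉ E := fun h => (Finset.mem_sdiff.1 hy).2 (Finset.mem_union_left _ h)
      exact hStr y hyE x x' hne heq)
  have hZe : Z' = ∅ := by
    rcases hfin with h | ⟨g', hg', hcr⟩
    · exact h
    · rw [← Finset.card_eq_zero]
      refine STR3.card_zero hr hcard ?_ (Finset.card_le_univ _) hcr
      omega
  obtain ⟨hRK, par, dep, rt, hrt1, hrt2, hpar⟩ := hfr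
  obtain ⟨C, hC1, hC2, hC3, hC4, hC5, hC6⟩ := h8 X Y r n χ K R (Finset.univ \ FY) c par dep rt hRK
    (by rw [hn]; exact Finset.card_le_univ _) hrt1 hrt2
    (by
      intro x hx hxR
      obtain ⟨e1, e2, e3, e4, e5⟩ := hpar x hx hxR
      exact ⟨e1, e2, e3, e4, hcount _ _ _ e5⟩)
  refine ⟨R, C, c, hRc, hC1, hC2, ?_, hC4, ?_⟩
  · intro ρ hρ
    rw [Finset.disjoint_left]
    intro v hv hv'
    have h4 := hC3 ρ hρ hv
    rcases v with x | y
    · rw [Finset.inl_mem_disjSum] at h4 hv'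
      exact (Finset.mem_sdiff.1 (hKV h4)).2 hv'
    · rw [Finset.inr_mem_disjSum] at h4 hv'
      exact (Finset.mem_sdiff.1 h4).2 hv'
  · intro y hyE hyF
    right
    have hyZ : y ∈ (Finset.univ \ (E ∪ FY) : Finset Y) := by
      rw [Finset.mem_sdiff, Finset.mem_union]
      exact ⟨Finset.mem_univ _, fun h => h.elim hyE hyF⟩
    obtain ⟨x, hxK, hx⟩ := hcov y hyZ (by rw [hZe]; exact Finset.notMem_empty _)
    exact ⟨rt x, hrt2 x hxK, x, hC5 x hxK, by rw [hC6 x hxK, hx]⟩

end Pool.Agent.K6.H73.TB
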