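import Pool.Agent.K6.H73.TB.Stm3

/-! # Piece UNF (by helper29) -/

set_option autoImplicit false

namespace Pool.Agent.K6.H73.TB

theorem t_UNF : S_UNF := by
  intro X _ r H K₁ R₁ K₂ R₂ c₁ c₂ hd h₁ h₂
  obtain ⟨hR₁, par₁, dep₁, rt₁, hr₁, hk₁, hp₁⟩ := h₁
  obtain ⟨hR₂, par₂, dep₂, rt₂, hr₂, hk₂, hp₂⟩ := h₂
  have hn : ∀ x ∈ K₂, x ∉ K₁ := fun x hx hx' => Finset.disjoint_left.1 hd hx' hx
  refine ⟨Finset.union_subset_union hR₁ hR₂, fun x => if x ∈ K₁ then par₁ x else par₂ x,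
    fun x => if x ∈ K₁ then dep₁ x else dep₂ x, fun x => if x ∈ K₁ then rt₁ x else rt₂ x,
    ?_, ?_, ?_⟩
  · intro ρ hρ
    rcases Finset.mem_union.1 hρ with h | h
    · simp only [if_pos (hR₁ h)]
      exact hr₁ ρ h
    · simp only [if_neg (hn ρ (hR₂ h))]
      exact hr₂ ρ h
  · intro x hx
    rcases Finset.mem_union.1 hx with h | h
    · simp only [if_pos h]
      exact Finset.mem_union_left _ (hk₁ x h)
    · simp only [if_neg (hn x h)]
      exact Finset.mem_union_right _ (hk₂ x h)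
  · intro x hx hxR
    rw [Finset.mem_union, not_or] at hxR
    rcases Finset.mem_union.1 hx with h | h
    · obtain ⟨a1, a2, a3, a4, a5⟩ := hp₁ x h hxR.1
      simp only [if_pos h, if_pos a1]
      exact ⟨Finset.mem_union_left _ a1, a2, a3, a4, a5⟩
    · obtain ⟨a1, a2, a3, a4, a5⟩ := hp₂ x h hxR.2
      simp only [if_neg (hn x h), if_neg (hn _ a1)]
      exact ⟨Finset.mem_union_right _ a1, a2, a3, a4, a5⟩

end Pool.Agent.K6.H73.TB
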