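import Pool.Agent.K6.H73.TB.Stm4

/-! Piece CNT of call73c (helper82). -/

set_option autoImplicit false

namespace Pool.Agent.K6.H73.TB

namespace CNT

open Finset

lemma prodsum {S : Type} [Fintype S] [DecidableEq S] {r : ℕ} (f : S → Fin r → ℝ) :
    ∑ c : S → Fin r, ∏ x, f x (c x) = ∏ x, ∑ j, f x j := by
  rw [Finset.prod_univ_sum, Fintype.piFinset_univ]

lemma sum1 {r : ℕ} (i : Fin r) (t : ℝ) : ∑ j : Fin r, (if j = i then t else 1) = (r : ℝ) - 1 + t := by
  have h : ∀ j : Fin r, (if j = i then t else 1) = 1 + (if j = i then t - 1 else 0) := by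
    intro j
    split_ifs <;> ring
  rw [Finset.sum_congr rfl fun j _ => h j, Finset.sum_add_distrib, Finset.sum_ite_eq']
  simp
  ring

lemma sum2 {r : ℕ} (i k : Fin r) (hik : i ≠ k) (t : ℝ) :
    ∑ j : Fin r, (if j = k then 0 else if j = i then t else 1) = (r : ℝ) - 2 + t := by
  have h : ∀ j : Fin r, (if j = k then 0 else if j = i then t else (1 : ℝ)) =
      (1 + (if j = i then t - 1 else 0)) + (if j = k then -1 else 0) := by
    intro j
    split_ifs with h1 h2
    · exact absurd (h2.symm.trans h1) hik
    all_goals ring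
  rw [Finset.sum_congr rfl fun j _ => h j, Finset.sum_add_distrib, Finset.sum_add_distrib,
    Finset.sum_ite_eq', Finset.sum_ite_eq']
  simp
  ring

/-- few elements are in small colour classes -/
lemma small {X : Type} [DecidableEq X] {r a : ℕ} (V : Finset X) (f : X → Fin r) :
    a * (V.filter (fun x => ¬ V.card < a * (V.filter (fun x' => f x' = f x)).card)).card ≤
      r * V.card := by
  classical
  set D := V.filter (fun x => ¬ V.card < a * (V.filter (fun x' => f x' = f x)).card) with hD
  rw [Finset.card_eq_sum_card_fiberwise (f := f) (s := D) (t := Finset.univ)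
    (fun x _ => Finset.mem_coe.2 (Finset.mem_univ _)), Finset.mul_sum]
  calc ∑ j : Fin r, a * (D.filter (fun x => f x = j)).card ≤ ∑ j : Fin r, V.card := by
        apply Finset.sum_le_sum
        intro j _
        rcases (D.filter (fun x => f x = j)).eq_empty_or_nonempty with h | ⟨x, hx⟩
        · rw [h]; simp
        · rw [Finset.mem_filter, hD, Finset.mem_filter] at hx
          obtain ⟨⟨hxV, hx1⟩, hx2⟩ := hx
          push Not at hx1
          refine le_trans ?_ hx1
          apply Nat.mul_le_mul_left
          apply Finset.card_le_card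
          intro z hz
          rw [Finset.mem_filter, hD, Finset.mem_filter] at hz
          rw [Finset.mem_filter]
          exact ⟨hz.1.1, hz.2.trans hx2.symm⟩
    _ = r * V.card := by simp

end CNT

open CNT Finset in
/-- CNT -/
theorem t_CNT : S_CNT := by
  classical
  intro hNB r hr
  obtain ⟨θ, a, n₁, hθ, ha, hmain⟩ := hNB r hr
  refine ⟨a, n₁, ha, ?_⟩
  intro X Y _ _ χ L V W hV hbad hW
  obtain ⟨τ, hτ1, hτ2⟩ := hmain V.card hV
  have hθ0 : 0 < θ := by linarith
  have hr' : (2 : ℝ) ≤ r := by exact_mod_cast hr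
  set v := V.card with hv
  -- bad elements
  let bad : Y → Prop := fun y => ∃ x ∈ V, χ x y ∉ L x
  let i0 : Fin r := ⟨0, by omega⟩
  let ii : Y → Fin r := fun y => if h : bad y then χ h.choose y else i0
  have hii : ∀ y, bad y → ∃ x ∈ V, χ x y ∉ L x ∧ ii y = χ x y := by
    intro y h
    refine ⟨h.choose, h.choose_spec.1, h.choose_spec.2, ?_⟩
    simp only [ii, dif_pos h]
  let big : Y → X → Prop := fun y x => v < a * (V.filter (fun x' => χ x' y = χ x y)).card
  have hbigL : ∀ y ∈ W, ∀ x ∈ V, big y x → χ x y ∈ L x := by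
    intro y hy x hx hb
    by_contra hc
    exact absurd (hbad y hy x hx hc) (not_le.2 hb)
  have hbigi : ∀ y ∈ W, bad y → ∀ x, big y x → ii y ≠ χ x y := by
    intro y hy hyb x hb heq
    obtain ⟨x', hx', hx'L, hi⟩ := hii y hyb
    have h1 := hbad y hy x' hx' hx'L
    rw [← hi, heq] at h1
    exact absurd h1 (not_le.2 hb)
  -- the weights
  let g : Y → {x // x ∈ V} → Fin r → ℝ := fun y x j =>
    if bad y then (if big y x.1 then (if j = χ x.1 y then 0 else if j = ii y then 1 / θ else 1)
      else (if j = ii y then 1 / θ else 1)) else (if j = χ x.1 y then 0 else 1)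
  let T : Y → ({x // x ∈ V} → Fin r) → ℝ := fun y c =>
    (if bad y then θ ^ τ else 1) * ∏ x, g y x (c x)
  let P : Fin r → ({x // x ∈ V} → Fin r) → ℝ := fun i c =>
    ∏ x, (if c x = i then θ else 1)
  have hcardS : Fintype.card {x // x ∈ V} = v := Fintype.card_coe V
  have hg0 : ∀ y x j, 0 ≤ g y x j := by
    intro y x j
    simp only [g]
    split_ifs <;> positivity
  have hT0 : ∀ y c, 0 ≤ T y c := by
    intro y c
    simp only [T]
    apply mul_nonneg
    · split_ifs <;> positivity
    · exact Finset.prod_nonneg fun x _ => hg0 y x _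
  have hP0 : ∀ i c, 0 < P i c := by
    intro i c
    simp only [P]
    apply Finset.prod_pos
    intro x _
    split_ifs
    · exact hθ0
    · exact one_pos
  have hPsum : ∀ i, ∑ c, P i c = ((r : ℝ) - 1 + θ) ^ v := by
    intro i
    simp only [P]
    rw [prodsum (fun _ j => if j = i then θ else 1)]
    rw [Finset.prod_congr rfl fun x _ => sum1 i θ, Finset.prod_const, Finset.card_univ, hcardS]
  have hTsum : ∀ y ∈ W, ∑ c, T y c ≤ ((r : ℝ) - 1) ^ v := by
    intro y hy
    simp only [T]
    rw [← Finset.mul_sum, prodsum (g y)]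
    by_cases hyb : bad y
    · rw [if_pos hyb]
      set B := (V.filter (fun x => ¬ V.card < a * (V.filter (fun x' => χ x' y = χ x y)).card)).card
        with hB
      have hBv : B ≤ v := Finset.card_filter_le _ _
      have haB : a * B ≤ r * v := small V (fun x => χ x y)
      have hb : ∏ x, ∑ j, g y x j ≤ ((r : ℝ) - 2 + 1 / θ) ^ (v - B) * (r : ℝ) ^ B := by
        calc ∏ x, ∑ j, g y x j ≤ ∏ x : {x // x ∈ V},
              (if big y x.1 then ((r : ℝ) - 2 + 1 / θ) else (r : ℝ)) := by
              apply Finset.prod_le_prod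
              · intro x _
                exact Finset.sum_nonneg fun j _ => hg0 y x j
              · intro x _
                simp only [g, if_pos hyb]
                by_cases hbx : big y x.1
                · simp only [if_pos hbx]
                  rw [sum2 (ii y) (χ x.1 y) (hbigi y hy hyb x.1 hbx)]
                · simp only [if_neg hbx]
                  rw [sum1 (ii y)]
                  have : 1 / θ ≤ 1 := by
                    rw [div_le_one hθ0]; exact hθ.le
                  linarith
          _ = ((r : ℝ) - 2 + 1 / θ) ^ (v - B) * (r : ℝ) ^ B := by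
              have e : ∏ x : {x // x ∈ V}, (if big y x.1 then ((r : ℝ) - 2 + 1 / θ) else (r : ℝ)) =
                  ∏ x ∈ V, (if big y x then ((r : ℝ) - 2 + 1 / θ) else (r : ℝ)) := by
                rw [← Finset.prod_coe_sort V
                  (fun x => if big y x then ((r : ℝ) - 2 + 1 / θ) else (r : ℝ))]
              rw [e, Finset.prod_ite, Finset.prod_const, Finset.prod_const]
              have h2 : (V.filter (fun x => ¬ big y x)).card = B := rfl
              have h3 : (V.filter (fun x => big y x)).card = v - B := by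
                have := Finset.card_filter_add_card_filter_not (s := V) (fun x => big y x)
                omega
              rw [h2, h3]
      calc θ ^ τ * ∏ x, ∑ j, g y x j ≤
            θ ^ τ * (((r : ℝ) - 2 + 1 / θ) ^ (v - B) * (r : ℝ) ^ B) := by
            apply mul_le_mul_of_nonneg_left hb
            positivity
        _ = θ ^ τ * ((r : ℝ) - 2 + 1 / θ) ^ (v - B) * (r : ℝ) ^ B := by ring
        _ ≤ ((r : ℝ) - 1) ^ v := hτ2 B hBv haB
    · rw [if_neg hyb, one_mul]
      have : ∀ x : {x // x ∈ V}, ∑ j, g y x j = (r : ℝ) - 1 := by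
        intro x
        simp only [g, if_neg hyb]
        rw [sum1]
        ring
      rw [Finset.prod_congr rfl fun x _ => this x, Finset.prod_const, Finset.card_univ, hcardS]
  -- some word is good
  have hex : ∃ c : {x // x ∈ V} → Fin r, (∑ i, P i c) / θ ^ τ + ∑ y ∈ W, T y c < 1 := by
    by_contra hcon
    push Not at hcon
    have h1 : (r : ℝ) ^ v ≤ ∑ c : {x // x ∈ V} → Fin r,
        ((∑ i, P i c) / θ ^ τ + ∑ y ∈ W, T y c) := by
      calc (r : ℝ) ^ v = ∑ c : {x // x ∈ V} → Fin r, (1 : ℝ) := by
            rw [Finset.sum_const, Finset.card_univ, Fintype.card_fun, hcardS, Fintype.card_fin]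
            simp
        _ ≤ _ := Finset.sum_le_sum fun c _ => hcon c
    have h2 : ∑ c : {x // x ∈ V} → Fin r, ((∑ i, P i c) / θ ^ τ + ∑ y ∈ W, T y c) =
        (r * ((r : ℝ) - 1 + θ) ^ v) / θ ^ τ + ∑ y ∈ W, ∑ c, T y c := by
      rw [Finset.sum_add_distrib, ← Finset.sum_div, Finset.sum_comm,
        Finset.sum_congr rfl fun i _ => hPsum i, Finset.sum_const, Finset.card_univ,
        Fintype.card_fin, nsmul_eq_mul, Finset.sum_comm (s := Finset.univ) (t := W)]
    have h3 : ∑ y ∈ W, ∑ c, T y c ≤ W.card * ((r : ℝ) - 1) ^ v := by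
      calc ∑ y ∈ W, ∑ c, T y c ≤ ∑ y ∈ W, ((r : ℝ) - 1) ^ v := Finset.sum_le_sum hTsum
        _ = W.card * ((r : ℝ) - 1) ^ v := by rw [Finset.sum_const, nsmul_eq_mul]
    have h4 : (r * ((r : ℝ) - 1 + θ) ^ v) / θ ^ τ ≤ (r : ℝ) ^ v / 2 := by
      rw [div_le_div_iff₀ (by positivity) (by norm_num)]
      linarith
    have h5 : 2 * ((W.card : ℝ) * ((r : ℝ) - 1) ^ v) < (r : ℝ) ^ v := by
      have h := hW
      have h' : ((2 * (W.card * (r - 1) ^ v) : ℕ) : ℝ) < ((r ^ v : ℕ) : ℝ) := by exact_mod_cast h
      rw [Nat.cast_mul, Nat.cast_mul, Nat.cast_pow, Nat.cast_pow, Nat.cast_sub (by omega)] at h'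
      simpa using h'
    linarith
  obtain ⟨c, hc⟩ := hex
  have hTs0 : 0 ≤ ∑ y ∈ W, T y c := Finset.sum_nonneg fun y _ => hT0 y c
  have hPs0 : 0 ≤ (∑ i, P i c) / θ ^ τ := by
    apply div_nonneg
    · exact Finset.sum_nonneg fun i _ => (hP0 i c).le
    · positivity
  have hPi : ∀ i, P i c < θ ^ τ := by
    intro i
    have h1 : (∑ i, P i c) / θ ^ τ < 1 := by linarith
    rw [div_lt_one (by positivity)] at h1
    exact lt_of_le_of_lt
      (Finset.single_le_sum (f := fun i => P i c) (fun i _ => (hP0 i c).le) (Finset.mem_univ i)) h1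
  have hTy : ∀ y ∈ W, T y c < 1 := by
    intro y hy
    have h1 := Finset.single_le_sum (f := fun y => T y c) (fun y _ => hT0 y c) hy
    linarith
  refine ⟨fun x => if h : x ∈ V then c ⟨x, h⟩ else i0, ?_⟩
  intro y hy
  by_cases hyb : bad y
  · -- a hit on the big classes
    by_contra hno
    push Not at hno
    have hprod : ∏ x, g y x (c x) = ∏ x, (if c x = ii y then θ else 1)⁻¹ := by
      apply Finset.prod_congr rfl
      intro x _
      simp only [g, if_pos hyb]
      by_cases hbx : big y x.1
      · rw [if_pos hbx]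
        have hne : c x ≠ χ x.1 y := by
          intro h
          have h1 := hno x.1 x.2
          rw [dif_pos x.2] at h1
          exact h1 h (h ▸ hbigL y hy x.1 x.2 hbx)
        rw [if_neg hne]
        split_ifs
        · rw [one_div]
        · rw [inv_one]
      · rw [if_neg hbx]
        split_ifs
        · rw [one_div]
        · rw [inv_one]
    have h1 := hTy y hy
    simp only [T, if_pos hyb] at h1
    rw [hprod, Finset.prod_inv_distrib] at h1
    have h2 := hPi (ii y)
    have h3 := hP0 (ii y) c
    simp only [P] at h2 h3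
    rw [← div_eq_mul_inv, div_lt_one h3] at h1
    exact lt_irrefl _ (h1.trans h2)
  · by_contra hno
    push Not at hno
    have hgood : ∀ x ∈ V, χ x y ∈ L x := by
      intro x hx
      by_contra h
      exact hyb ⟨x, hx, h⟩
    have h1 := hTy y hy
    simp only [T, if_neg hyb, one_mul] at h1
    have hprod : ∏ x, g y x (c x) = 1 := by
      apply Finset.prod_eq_one
      intro x _
      simp only [g, if_neg hyb]
      have hne : c x ≠ χ x.1 y := by
        intro h
        have h1 := hno x.1 x.2
        rw [dif_pos x.2] at h1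
        exact h1 h (h ▸ hgood x.1 x.2)
      rw [if_neg hne]
    rw [hprod] at h1
    exact lt_irrefl _ h1

end Pool.Agent.K6.H73.TB
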