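import Pool.Agent.K6.H73.TB.Stm4
import Pool.Agent.K6.H73.TB.FIN

set_option autoImplicit false

namespace Pool.Agent.K6.H73.TB

open Pool.Agent.H948R3.TP Sum

/-- the constant bound up to the very threshold -/
def S_FIN4 : Prop := ∀ r : ℕ, 2 ≤ r → ∃ B C : ℕ, ∀ n m : ℕ, B ≤ n → n ≤ m →
  m * (r - 1) ^ (n - Nat.log 2 n ^ 3) < r ^ (n - Nat.log 2 n ^ 3) →
  tp r n m ≤ C

theorem two_pow_le (r : ℕ) (hr : 2 ≤ r) : 2 * (r - 1) ^ r ≤ r ^ r := by
  have hr2 : (2 : ℝ) ≤ r := by exact_mod_cast hr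
  have hr1 : (0 : ℝ) < (r : ℝ) - 1 := by linarith
  have h1 := one_add_mul_le_pow (a := 1 / ((r : ℝ) - 1)) (by
    have : 0 < 1 / ((r : ℝ) - 1) := by positivity
    linarith) r
  have h2 : (1 : ℝ) ≤ r * (1 / ((r : ℝ) - 1)) := by
    rw [mul_one_div, le_div_iff₀ hr1]; linarith
  have h3 : (1 : ℝ) + 1 / ((r : ℝ) - 1) = r / ((r : ℝ) - 1) := by
    field_simp
    ring
  rw [h3, div_pow] at h1
  have h4 : (2 : ℝ) ≤ (r : ℝ) ^ r / ((r : ℝ) - 1) ^ r := by linarith
  rw [le_div_iff₀ (by positivity)] at h4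
  have h5 : ((2 * (r - 1) ^ r : ℕ) : ℝ) ≤ ((r ^ r : ℕ) : ℝ) := by
    push_cast [Nat.cast_sub (by omega : 1 ≤ r)]
    exact h4
  exact_mod_cast h5

theorem t_FIN4 (hGL : S_GLU3) (hEX : S_EX2)
    (hCNT : ∀ r : ℕ, 2 ≤ r → ∃ a n₁ : ℕ, 1 ≤ a ∧ AVB r a n₁)
    (hSTR : ∀ r a n₁ : ℕ, AVB r a n₁ →
      ∀ (X Y : Type) [Fintype X] [Fintype Y] [DecidableEq X] [DecidableEq Y]
      (t N g : ℕ) (χ : X → Y → Fin r) (FX : Finset X) (FY E : Finset Y),
      2 ≤ r → 1 ≤ a → n₁ ≤ g → Fintype.card X < 2 ^ t →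
      FX.card + FY.card ≤ N → (∀ y, y ∉ E → Str χ (Fintype.card X + N) y) →
      g + N + r * (4 * (8 * a) + 16 * (8 * a) ^ 2 * t) ≤ Fintype.card X →
      2 * (8 * a) * (r * (4 * (8 * a) + 16 * (8 * a) ^ 2 * t)) + 8 * a ≤ g →
      2 * (Fintype.card Y * (r - 1) ^ g) < r ^ g →
      StrOut χ FX FY E (r * (4 * (8 * a))) (2 * Fintype.card X))
    (hC : S_COMB) (hP : S_PIG)
    (hR : S_ROUND) (hF : S_FIN) (hLOG : S_LOG) (hNUM : S_NUM) (hNUM3 : S_NUM3) : S_FIN4 := by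
  classical
  intro r hr
  obtain ⟨n₀, hn₀⟩ := hNUM r 1 hr le_rfl
  obtain ⟨a, n₃, ha1, hAVB⟩ := hCNT r hr
  obtain ⟨n₂, hn₂⟩ := hNUM3 r (8 * a)
  obtain ⟨n₄, hn₄⟩ := hLOG 3 3
  obtain ⟨C₁, hC₁⟩ := hF r (by omega)
  obtain ⟨n₁, hn₁⟩ := hLOG 3 C₁
  set B := n₀ + n₁ + n₂ + n₄ + 2 * n₃ + C₁ + 2 with hB
  refine ⟨B, 6 * r + r * (4 * (8 * a)), ?_⟩
  intro n m hnB hnm hm
  by_cases h4 : m ≤ 4 * n
  · -- nearly balanced
    refine (hC₁ n m (by omega) hnm ?_).trans (by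
      have : 0 ≤ r * (4 * (8 * a)) := Nat.zero_le _
      omega)
    have h5 := hn₁ n (by omega)
    refine le_trans ?_ h5
    apply Nat.pow_le_pow_left
    have h6 : Nat.log 2 m ≤ Nat.log 2 (4 * n) := Nat.log_mono_right h4
    have h7 : Nat.log 2 (4 * n) = Nat.log 2 n + 2 := by
      have hn0 : n ≠ 0 := by omega
      have e : 4 * n = n * 2 * 2 := by ring
      rw [e, Nat.log_mul_base (by norm_num) (by omega), Nat.log_mul_base (by norm_num) hn0]
    omega
  · push Not at h4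
    set t := Nat.log 2 n + 1 with ht
    set t₁ := Nat.log 2 (2 * r * n ^ 3) + 1 with ht₁
    set t₂ := Nat.log 2 (32 * r ^ 3 * t₁) + 1 with ht₂
    set N := (r + 8 * r * t₁) + ((r + 8 * r * t₂) + r) with hN
    obtain ⟨hk1, hk2, -⟩ := hn₀ n t t₁ t₂ N _ _ (by omega) ht ht₁ ht₂ hN rfl rfl
    obtain ⟨hk3, hk4⟩ := hn₂ n t t₁ t₂ N (by omega) ht ht₁ ht₂ hN
    have hk5 := hn₄ n (by omega)
    set L3 := Nat.log 2 n ^ 3 with hL3
    set h := r * (4 * (8 * a) + 16 * (8 * a) ^ 2 * t) with hh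
    have hk6 : 27 * L3 ≤ n := by
      refine le_trans ?_ hk5
      rw [mul_pow, hL3]
      exact Nat.mul_le_mul (by norm_num) (Nat.pow_le_pow_left (Nat.le_succ _) 3)
    have hh1 : 1 ≤ h := by
      rw [hh]
      exact Nat.mul_pos (by omega) (by omega)
    have hAh : 8 * a ≤ 2 * (8 * a) * h := by
      calc 8 * a = 8 * a * 1 := by ring
        _ ≤ 2 * (8 * a) * h := Nat.mul_le_mul (by omega) hh1
    have hhA : h ≤ 2 * (8 * a) * h := by
      calc h = 1 * h := by ring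
        _ ≤ 2 * (8 * a) * h := Nat.mul_le_mul_right _ (by omega)
    have hr4 : r ≤ 4 * r ^ 2 := by
      calc r = r * 1 := by ring
        _ ≤ r * (4 * r) := Nat.mul_le_mul_left _ (by omega)
        _ = 4 * r ^ 2 := by ring
    set g := n - L3 + r with hg
    have hmg : 2 * (m * (r - 1) ^ g) < r ^ g := by
      rw [hg, pow_add, pow_add]
      calc 2 * (m * ((r - 1) ^ (n - L3) * (r - 1) ^ r))
          = (m * (r - 1) ^ (n - L3)) * (2 * (r - 1) ^ r) := by ring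
        _ < r ^ (n - L3) * (2 * (r - 1) ^ r) :=
          Nat.mul_lt_mul_of_pos_right hm (by
            have : 0 < (r - 1) ^ r := Nat.pow_pos (by omega)
            omega)
        _ ≤ r ^ (n - L3) * r ^ r := Nat.mul_le_mul_left _ (two_pow_le r hr)
    have he1 : 32 * r ^ 3 * t₁ < 2 ^ t₂ := Nat.lt_pow_succ_log_self (by norm_num) _
    have ht1' : 2 * r * n ^ 3 < 2 ^ t₁ := Nat.lt_pow_succ_log_self (by norm_num) _
    have hnt : n < 2 ^ t := Nat.lt_pow_succ_log_self (by norm_num) _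
    have hn2 : 2 ≤ n := by omega
    have hnt1 : n < 2 ^ t₁ := by
      refine lt_of_le_of_lt ?_ ht1'
      calc n ≤ n ^ 3 := Nat.le_self_pow (by norm_num) n
        _ = 1 * n ^ 3 := by ring
        _ ≤ 2 * r * n ^ 3 := Nat.mul_le_mul_right _ (by omega)
    have hfin : tp r n m ≤ (r + (r + r)) + r * (4 * (8 * a)) + (r + (r + r)) := by
      apply tp_le
      intro χ
      obtain ⟨E, hE, hEs⟩ := hEX (Fin n) (Fin m) r (n + N) χ
      rw [Fintype.card_fin] at hE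
      have hE2 : E.card < 2 ^ t₁ := by
        refine lt_of_le_of_lt (hE.trans ?_) ht1'
        calc r * n ^ 2 * (n + N) ≤ r * n ^ 2 * (2 * n) := Nat.mul_le_mul_left _ (by omega)
          _ = 2 * r * n ^ 3 := by ring
      refine hGL (Fin n) (Fin m) r (r + (r + r)) (r * (4 * (8 * a))) (r + (r + r)) N (2 * n) χ E
        ?_ ?_ ?_
      · apply FIN.side hC hP hR (by omega) t₁ t₂ (by omega) (by omega) he1 χ Finset.univ E hE2
        rw [Finset.card_univ, Fintype.card_fin]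
        exact hk1
      · intro FX FY hFF
        have h5 := hSTR r a n₃ hAVB (Fin n) (Fin m) t N g χ FX FY E hr ha1
          (by omega)
          (by rw [Fintype.card_fin]; exact hnt) hFF
          (by rw [Fintype.card_fin]; exact hEs)
          (by rw [Fintype.card_fin, ← hh]; omega)
          (by rw [← hh]; omega)
          (by rw [Fintype.card_fin]; exact hmg)
        rw [Fintype.card_fin] at h5
        exact h5
      · intro P Z hPc
        rw [Fintype.card_fin] at hPc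
        refine ⟨_, FIN.side hC hP hR (by omega) t₁ t₂ (by omega) (by omega) he1 _ P Z ?_ ?_⟩
        · have : Z.card ≤ n := by
            have := Finset.card_le_univ Z
            rwa [Fintype.card_fin] at this
          omega
        · omega
    refine hfin.trans (le_of_eq ?_)
    ring

end Pool.Agent.K6.H73.TB
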