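import Pool.Agent.K6.H73.TB.Stm4

/-!
# Piece NB: real numbers
-/

set_option autoImplicit false

namespace Pool.Agent.K6.H73.TB

open Pool.Agent.H948R3.TP Sum

theorem t_NB : S_NB := by
  intro r hr
  have hr' : (2 : ℝ) ≤ r := by exact_mod_cast hr
  obtain ⟨R, hR⟩ : ∃ R : ℝ, R = r := ⟨_, rfl⟩
  rw [← hR] at hr'
  have hR0 : 0 < R := by linarith
  obtain ⟨θ, hθ⟩ : ∃ θ : ℝ, θ = 1 + 1 / (4 * R) := ⟨_, rfl⟩
  obtain ⟨α, hα⟩ : ∃ α : ℝ, α = 2 / (2 * R - 1) := ⟨_, rfl⟩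
  have h21 : 0 < 2 * R - 1 := by linarith
  have hα0 : 0 < α := by rw [hα]; exact div_pos two_pos h21
  have hθp : 0 < 1 / (4 * R) := by positivity
  have hθ1 : 1 < θ := by rw [hθ]; linarith
  have hθ0 : 0 < θ := by linarith
  have hinv : 1 - θ⁻¹ = 1 / (4 * R + 1) := by
    rw [hθ]
    field_simp
    ring
  have hL1 : 1 / (4 * R + 1) ≤ Real.log θ := by
    rw [← hinv]; exact Real.one_sub_inv_le_log_of_pos hθ0
  have hL2 : Real.log θ ≤ 1 / (4 * R) := by
    have := Real.log_le_sub_one_of_pos hθ0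
    rw [hθ] at this ⊢
    linarith
  have hL0 : 0 < Real.log θ := Real.log_pos hθ1
  obtain ⟨ρ, hρ⟩ : ∃ ρ : ℝ, ρ = R - 2 + 1 / θ := ⟨_, rfl⟩
  have hρ' : ρ = (R - 1) - 1 / (4 * R + 1) := by
    rw [hρ, ← hinv, one_div]; ring
  have h41 : 0 < 4 * R + 1 := by linarith
  have h41' : 1 / (4 * R + 1) < 1 := by
    rw [div_lt_one h41]; linarith
  have hρ0 : 0 < ρ := by rw [hρ']; linarith
  have hR1 : 0 < R - 1 := by linarith
  -- the first number
  have hx0 : 0 < R - 1 + θ := by linarith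
  have hδ₁ : 0 < α * Real.log θ - (Real.log (R - 1 + θ) - Real.log R) := by
    have h1 : Real.log (R - 1 + θ) - Real.log R ≤ (R - 1 + θ) / R - 1 := by
      rw [← Real.log_div hx0.ne' hR0.ne']
      exact Real.log_le_sub_one_of_pos (div_pos hx0 hR0)
    have h2 : (R - 1 + θ) / R - 1 = 1 / (4 * R ^ 2) := by
      rw [hθ]
      field_simp
      ring
    have h3 : 1 / (4 * R ^ 2) < α * (1 / (4 * R + 1)) := by
      rw [hα, div_mul_div_comm, div_lt_div_iff₀ (by positivity) (by positivity)]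
      nlinarith
    have h4 : α * (1 / (4 * R + 1)) ≤ α * Real.log θ := mul_le_mul_of_nonneg_left hL1 hα0.le
    linarith
  -- the second number
  have hδ₂ : 0 < Real.log (R - 1) - Real.log ρ - α * Real.log θ := by
    have h1 : Real.log ρ - Real.log (R - 1) ≤ ρ / (R - 1) - 1 := by
      rw [← Real.log_div hρ0.ne' hR1.ne']
      exact Real.log_le_sub_one_of_pos (div_pos hρ0 hR1)
    have h2 : ρ / (R - 1) - 1 = -(1 / ((4 * R + 1) * (R - 1))) := by
      rw [hρ']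
      field_simp
      ring
    have h3 : α * (1 / (4 * R)) < 1 / ((4 * R + 1) * (R - 1)) := by
      rw [hα, div_mul_div_comm, div_lt_div_iff₀ (by positivity) (by positivity)]
      nlinarith
    have h4 : α * Real.log θ ≤ α * (1 / (4 * R)) := mul_le_mul_of_nonneg_left hL2 hα0.le
    linarith
  obtain ⟨δ₁, hd1⟩ : ∃ δ₁ : ℝ, δ₁ = α * Real.log θ - (Real.log (R - 1 + θ) - Real.log R) := ⟨_, rfl⟩
  obtain ⟨δ₂, hd2⟩ : ∃ δ₂ : ℝ, δ₂ = Real.log (R - 1) - Real.log ρ - α * Real.log θ := ⟨_, rfl⟩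
  rw [← hd1] at hδ₁
  rw [← hd2] at hδ₂
  obtain ⟨κ, hκ⟩ : ∃ κ : ℝ, κ = Real.log R - Real.log ρ := ⟨_, rfl⟩
  have hκ0 : 0 ≤ κ := by
    rw [hκ, sub_nonneg]
    exact Real.log_le_log hρ0 (by rw [hρ']; linarith [div_pos one_pos h41])
  obtain ⟨a, ha⟩ := exists_nat_ge (2 * R * κ / δ₂)
  obtain ⟨n₁, hn1⟩ := exists_nat_ge (Real.log (2 * R) / δ₁)
  obtain ⟨n₂, hn2⟩ := exists_nat_ge (2 * Real.log θ / δ₂)
  refine ⟨θ, a + 1, max n₁ n₂, hθ1, by omega, fun v hv => ⟨⌈α * v⌉₊, ?_, ?_⟩⟩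
  · rw [← hR]
    have hτ1 : α * v ≤ ⌈α * v⌉₊ := Nat.le_ceil _
    have hv1 : (n₁ : ℝ) ≤ v := by exact_mod_cast (le_max_left _ _).trans hv
    have h1 : Real.log (2 * R) ≤ δ₁ * v := by
      have := (div_le_iff₀ hδ₁).1 (hn1.trans hv1)
      linarith
    have e1 : Real.log (2 * R * (R - 1 + θ) ^ v) = Real.log (2 * R) + v * Real.log (R - 1 + θ) := by
      have hp : (R - 1 + θ) ^ v ≠ 0 := (pow_pos hx0 v).ne'
      have hq : 2 * R ≠ 0 := by positivity
      rw [Real.log_mul hq hp, Real.log_pow]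
    have e2 : Real.log (θ ^ ⌈α * v⌉₊ * R ^ v) = ⌈α * v⌉₊ * Real.log θ + v * Real.log R := by
      have hp : θ ^ ⌈α * v⌉₊ ≠ 0 := (pow_pos hθ0 _).ne'
      have hq : R ^ v ≠ 0 := (pow_pos hR0 v).ne'
      rw [Real.log_mul hp hq, Real.log_pow, Real.log_pow]
    have h2 : α * v * Real.log θ ≤ ⌈α * v⌉₊ * Real.log θ := mul_le_mul_of_nonneg_right hτ1 hL0.le
    have h3 : δ₁ * v = α * v * Real.log θ - v * Real.log (R - 1 + θ) + v * Real.log R := by
      rw [hd1]; ring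
    rw [← Real.log_le_log_iff (by positivity) (by positivity), e1, e2]
    linarith
  · intro B hB haB
    rw [← hR, ← hρ]
    have hτ2 : (⌈α * v⌉₊ : ℝ) ≤ α * v + 1 := (Nat.ceil_lt_add_one (by positivity)).le
    have hv2 : (n₂ : ℝ) ≤ v := by exact_mod_cast (le_max_right _ _).trans hv
    have h1 : 2 * Real.log θ ≤ δ₂ * v := by
      have := (div_le_iff₀ hδ₂).1 (hn2.trans hv2)
      linarith
    have h2 : 2 * R * κ ≤ a * δ₂ := (div_le_iff₀ hδ₂).1 ha
    have h3 : ((a : ℝ) + 1) * B ≤ R * v := by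
      rw [hR]; exact_mod_cast haB
    have h4 : 2 * B * κ ≤ δ₂ * v := by
      have hB0 : (0 : ℝ) ≤ B := Nat.cast_nonneg _
      have h5 : R * (2 * B * κ) ≤ R * (δ₂ * v) := by
        have h6 : (B : ℝ) * (2 * R * κ) ≤ B * (a * δ₂) := mul_le_mul_of_nonneg_left h2 hB0
        have h7 : δ₂ * (((a : ℝ) + 1) * B) ≤ δ₂ * (R * v) := mul_le_mul_of_nonneg_left h3 hδ₂.le
        have h8 : 0 ≤ δ₂ * B := mul_nonneg hδ₂.le hB0
        nlinarith
      exact le_of_mul_le_mul_left h5 hR0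
    rw [← Real.log_le_log_iff (by positivity) (by positivity), Real.log_mul (by positivity)
      (by positivity), Real.log_mul (by positivity) (by positivity), Real.log_pow, Real.log_pow,
      Real.log_pow, Real.log_pow, Nat.cast_sub hB]
    have h9 : (⌈α * v⌉₊ : ℝ) * Real.log θ ≤ (α * v + 1) * Real.log θ :=
      mul_le_mul_of_nonneg_right hτ2 hL0.le
    have h10 : ((v : ℝ) - B) * Real.log ρ + B * Real.log R = v * Real.log ρ + B * κ := by
      rw [hκ]; ring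
    have h11 : δ₂ * v = v * Real.log (R - 1) - v * Real.log ρ - α * v * Real.log θ := by
      rw [hd2]; ring
    have h12 : (α * v + 1) * Real.log θ = α * v * Real.log θ + Real.log θ := by ring
    linarith

end Pool.Agent.K6.H73.TB
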