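import Pool.Agent.K6.H73.TB.Stm4
import Pool.Agent.K6.H73.TB.LEV

set_option autoImplicit false

namespace Pool.Agent.K6.H73.TB

open Pool.Agent.H948R3.TP Sum

namespace STR4

/-- the numbers -/
lemma pow_lt {r g v m w : ℕ} (hr : 2 ≤ r) (hm : 2 * (m * (r - 1) ^ g) < r ^ g) (hg : g ≤ v)
    (hw : w ≤ m) : 2 * (w * (r - 1) ^ v) < r ^ v := by
  obtain ⟨d, rfl⟩ := Nat.exists_eq_add_of_le hg
  have h1 : (r - 1) ^ d ≤ r ^ d := Nat.pow_le_pow_left (Nat.sub_le _ _) _
  have h2 : 0 < r ^ d := Nat.pow_pos (by omega)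
  calc 2 * (w * (r - 1) ^ (g + d)) ≤ 2 * (m * (r - 1) ^ (g + d)) :=
        Nat.mul_le_mul_left _ (Nat.mul_le_mul_right _ hw)
    _ = 2 * (m * (r - 1) ^ g) * (r - 1) ^ d := by rw [pow_add]; ring
    _ ≤ 2 * (m * (r - 1) ^ g) * r ^ d := Nat.mul_le_mul_left _ h1
    _ < r ^ g * r ^ d := Nat.mul_lt_mul_of_pos_right hm h2
    _ = r ^ (g + d) := (pow_add _ _ _).symm

/-- the bad pairs -/
lemma badp {a s s' v v' f h : ℕ} (ha : 1 ≤ a) (hs : ¬ v + 8 * a ≤ 8 * a * s) (hss : s' ≤ s)
    (hv : v ≤ v' + f) (hf : f ≤ h) (hh : 2 * (8 * a) * h + 8 * a ≤ v') : a * s' ≤ v' := by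
  have h1 : a * s' ≤ a * s := Nat.mul_le_mul_left a hss
  have h2 : h ≤ 2 * (8 * a) * h := Nat.le_mul_of_pos_left h (by omega)
  have h3 : 8 * a * s = 8 * (a * s) := by ring
  rw [h3] at hs
  omega

end STR4

open STR4 LEV in
theorem t_STR4 : S_STR4 := by
  classical
  intro hHUBS hHUBV hHFR hFOR r a n₁ hAVB X Y _ _ _ _ t N g χ FX FY E hr ha hn₁ ht hF hStr
    hbig hbig2 hcard
  set n := Fintype.card X with hn
  set h := r * (4 * (8 * a) + 16 * (8 * a) ^ 2 * t) with hh
  let H : Fin r → X → X → Prop := fun i x y => n + N ≤ com χ i x y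
  have hHsymm : ∀ i x y, H i x y → H i y x := by
    intro i x y hle
    refine hle.trans (le_of_eq ?_)
    unfold com
    congr 1
    ext z
    simp only [Finset.mem_filter, and_comm]
  have hcount : ∀ i x x', H i x x' → n ≤ ((Finset.univ \ FY).filter
      (fun z => χ x z = i ∧ χ x' z = i)).card := by
    intro i x x' hle
    have h4 : (Finset.univ.filter (fun z => χ x z = i ∧ χ x' z = i)) ⊆
        ((Finset.univ \ FY).filter (fun z => χ x z = i ∧ χ x' z = i)) ∪ FY := by
      intro z hz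
      by_cases hzF : z ∈ FY
      · exact Finset.mem_union_right _ hzF
      · apply Finset.mem_union_left
        rw [Finset.mem_filter] at hz ⊢
        exact ⟨Finset.mem_sdiff.2 ⟨Finset.mem_univ _, hzF⟩, hz.2⟩
    have h5 := (Finset.card_le_card h4).trans (Finset.card_union_le _ _)
    have hle' : n + N ≤ com χ i x x' := hle
    unfold com at hle'
    omega
  set V : Finset X := Finset.univ \ FX with hV
  have hVn : V.card ≤ n := Finset.card_le_univ _
  have hVn' : n ≤ V.card + N := by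
    have h9 : (Finset.univ : Finset X) ⊆ V ∪ FX := by
      intro x _
      by_cases hx : x ∈ FX <;> simp [hV, hx]
    have h10 := (Finset.card_le_card h9).trans (Finset.card_union_le _ _)
    rw [Finset.card_univ, ← hn] at h10
    omega
  have h8a : 1 ≤ 8 * a := by omega
  obtain ⟨R, W, hRW, hdisj, hWρ, hatt⟩ := hHUBV hHUBS X r (8 * a) t H V (U H (8 * a) V)
    (U_sub H (8 * a) V) hHsymm h8a (by omega) (lt_of_le_of_lt hVn ht) (big H (8 * a) V)
    (by rw [← hh]; omega)
  set F : Finset X := Finset.univ.biUnion fun i => R i ∪ W i with hFd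
  have hFcard : F.card ≤ h := by
    rw [hFd, hh]
    apply card_bi
    intro i
    exact (Finset.card_union_le _ _).trans (Nat.add_le_add (hRW i).2.2.1 (hRW i).2.2.2)
  have hFV : F ⊆ V := by
    intro x hx
    rw [hFd, Finset.mem_biUnion] at hx
    obtain ⟨i, -, hx⟩ := hx
    rcases Finset.mem_union.1 hx with h | h
    · exact U_sub H (8 * a) V i ((hRW i).1 h)
    · exact U_sub H (8 * a) V i ((hRW i).2.1 h)
  have hV1 : V.card ≤ (V \ F).card + F.card := by
    rw [Finset.card_sdiff_of_subset hFV]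
    omega
  have hg : g ≤ (V \ F).card := by omega
  set L : X → Finset (Fin r) := fun x => Finset.univ.filter (fun i => x ∈ U H (8 * a) V i) with hL
  have hLm : ∀ x i, i ∈ L x ↔ x ∈ U H (8 * a) V i := by
    intro x i
    simp [hL]
  obtain ⟨c, hc⟩ := hAVB X Y χ L (V \ F) (Finset.univ \ (E ∪ FY)) (hn₁.trans hg) (by
      intro y hy x hx hxL
      have hyE : y ∉ E := fun h => (Finset.mem_sdiff.1 hy).2 (Finset.mem_union_left _ h)
      have hxV : x ∈ V := (Finset.mem_sdiff.1 hx).1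
      have hnot : ¬ V.card + 8 * a ≤ 8 * a * (V.filter (fun x' => χ x' y = χ x y)).card := by
        intro hle
        apply hxL
        rw [hLm]
        refine mem_U.2 ⟨hxV, V.filter (fun x' => χ x' y = χ x y), Finset.filter_subset _ _,
          Finset.mem_filter.2 ⟨hxV, rfl⟩, ?_, hle⟩
        intro u hu v hv huv
        rw [Finset.mem_filter] at hu hv
        have h := hStr y hyE u v huv (hu.2.trans hv.2.symm)
        rw [hu.2] at h
        exact h
      refine badp ha hnot ?_ hV1 hFcard (hbig2.trans hg)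
      exact Finset.card_le_card (Finset.filter_subset_filter _ Finset.sdiff_subset))
    (pow_lt hr hcard hg (Finset.card_le_univ _))
  set K : Finset X := (V \ F).filter (fun x => c x ∈ L x) with hK
  have hKF : ∀ x ∈ K, ∀ j, x ∉ R j ∪ W j := by
    intro x hx j hxj
    have h1 := (Finset.mem_filter.1 hx).1
    rw [Finset.mem_sdiff] at h1
    exact h1.2 (by rw [hFd, Finset.mem_biUnion]; exact ⟨j, Finset.mem_univ _, hxj⟩)
  obtain ⟨c', hc', hfr⟩ := hHFR X r H R W K c hHsymm hdisj hWρ hKF (by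
    intro x hx
    exact hatt (c x) x ((hLm x (c x)).1 (Finset.mem_filter.1 hx).2) (hKF x hx))
  have hKV : K ∪ F ⊆ V :=
    Finset.union_subset ((Finset.filter_subset _ _).trans Finset.sdiff_subset) hFV
  obtain ⟨hRK, par, dep, rt, hrt1, hrt2, hpar⟩ := hfr
  obtain ⟨C, hC1, hC2, hC3, hC4, hC5, hC6⟩ := hFOR X Y r n χ (K ∪ F) (Finset.univ.biUnion R)
    (Finset.univ \ FY) c' par dep rt hRK
    (by rw [hn]; exact Finset.card_le_univ _) hrt1 hrt2
    (by
      intro x hx hxR
      obtain ⟨e1, e2, e3, e4, e5⟩ := hpar x hx hxR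
      exact ⟨e1, e2, e3, e4, hcount _ _ _ e5⟩)
  refine ⟨Finset.univ.biUnion R, C, c', card_bi R (4 * (8 * a)) (fun i => (hRW i).2.2.1), hC1,
    hC2, ?_, hC4, ?_⟩
  · intro ρ hρ
    rw [Finset.disjoint_left]
    intro v hv hv'
    have h4 := hC3 ρ hρ hv
    rcases v with x | y
    · rw [Finset.inl_mem_disjSum] at h4 hv'
      exact (Finset.mem_sdiff.1 (hKV h4)).2 hv'
    · rw [Finset.inr_mem_disjSum] at h4 hv'
      exact (Finset.mem_sdiff.1 h4).2 hv'
  · intro y hyE hyF
    right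
    have hyZ : y ∈ (Finset.univ \ (E ∪ FY) : Finset Y) := by
      rw [Finset.mem_sdiff, Finset.mem_union]
      exact ⟨Finset.mem_univ _, fun h => h.elim hyE hyF⟩
    obtain ⟨x, hxV, hx, hxL⟩ := hc y hyZ
    have hxK : x ∈ K := Finset.mem_filter.2 ⟨hxV, hxL⟩
    have hxK' : x ∈ K ∪ F := Finset.mem_union_left _ hxK
    exact ⟨rt x, hrt2 x hxK', x, hC5 x hxK', by rw [hC6 x hxK', hc' x hxK, hx]⟩

end Pool.Agent.K6.H73.TB
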