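import Pool.Agent.K6.H73.TB.All3
import Pool.Agent.K6.H73.TB.NB
import Pool.Agent.K6.H73.TB.CNT
import Pool.Agent.K6.H73.TB.STR4
import Pool.Agent.K6.H73.TB.FIN4

set_option autoImplicit false

namespace Pool.Agent.K6.H73.TB

open Pool.Agent.H948R3.TP

theorem p_FIN4 : S_FIN4 :=
  t_FIN4 (t_GLU3 t_GLUE) t_EX2 (t_CNT t_NB)
    (t_STR4 (t_HUBS (t_HUB t_ROO t_HIT)) t_HUBV t_HFR t_FOR)
    t_COMB t_PIG p_ROUND p_FIN t_LOG (t_NUM t_ARI t_LOG) t_NUM3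

/-- the constant bound in terms of real numbers -/
theorem bounded_range (r : ℕ) (hr : 2 ≤ r) :
    ∃ C : ℕ, ∀ n m : ℕ, C ≤ n → n ≤ m →
      (m : ℝ) < ((r : ℝ) / ((r : ℝ) - 1)) ^ (n - Nat.log 2 n ^ 3) →
      r ≤ tp r n m ∧ tp r n m ≤ C := by
  obtain ⟨B, C, hB⟩ := p_FIN4 r hr
  refine ⟨max (max B r) C, fun n m hn hnm hm => ⟨?_, (hB n m
    (((le_max_left _ _).trans (le_max_left _ _)).trans hn) hnm ?_).trans (le_max_right _ _)⟩⟩
  · have h4 := lower_simple (n := n) (m := m) (r := r) (by omega)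
      ((((le_max_right _ _).trans (le_max_left _ _)).trans hn).trans hnm)
    exact (Nat.le_add_right _ _).trans h4
  have hr2 : (2 : ℝ) ≤ r := by exact_mod_cast hr
  have hr1 : (0 : ℝ) < (r : ℝ) - 1 := by linarith
  rw [div_pow, lt_div_iff₀ (by positivity)] at hm
  have h2 : ((m * (r - 1) ^ (n - Nat.log 2 n ^ 3) : ℕ) : ℝ) < ((r ^ (n - Nat.log 2 n ^ 3) : ℕ) : ℝ) := by
    push_cast [Nat.cast_sub (by omega : 1 ≤ r)]
    exact hm
  exact_mod_cast h2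

end Pool.Agent.K6.H73.TB
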