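import Pool.Agent.K6.H73.TB.FIN4

set_option autoImplicit false

namespace Pool.Agent.K6.H73.TB

open Pool.Agent.H948R3.TP Sum

/-- the constant bound up to the very threshold -/
def S_FIN5 : Prop := ∀ r : ℕ, 2 ≤ r → ∃ B C K : ℕ, ∀ n m : ℕ, B ≤ n → n ≤ m →
  m * (r - 1) ^ (n - K * Nat.log 2 n) < r ^ (n - K * Nat.log 2 n) →
  tp r n m ≤ C

theorem num5 (r a : ℕ) (hr : 2 ≤ r) : ∃ K H : ℕ, ∀ n t t₁ t₂ N : ℕ, 2 ≤ n →
    t = Nat.log 2 n + 1 → t₁ = Nat.log 2 (2 * r * n ^ 3) + 1 →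
    t₂ = Nat.log 2 (32 * r ^ 3 * t₁) + 1 →
    N = (r + 8 * r * t₁) + ((r + 8 * r * t₂) + r) →
    r * (4 * (8 * a) + 16 * (8 * a) ^ 2 * t) ≤ H * Nat.log 2 n ∧
    N + r * (4 * (8 * a) + 16 * (8 * a) ^ 2 * t) + r ≤ K * Nat.log 2 n := by
  set H := r * (4 * (8 * a) + 16 * (8 * a) ^ 2 * 2) with hH
  set c₁ := 2 * r + 9 with hc₁
  set c₂ := 32 * r ^ 3 * c₁ + 1 with hc₂
  refine ⟨(r + 8 * r * c₁) + ((r + 8 * r * c₂) + r) + H + r, H, ?_⟩
  intro n t t₁ t₂ N hn ht ht₁ ht₂ hN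
  set l := Nat.log 2 n with hl
  have hl1 : 1 ≤ l := Nat.log_pos (by norm_num) hn
  have h1 : t ≤ 2 * l := by omega
  have h2 : t₁ ≤ c₁ * l := by
    have h3 : 2 * r * n ^ 3 < 2 ^ (2 * r + 3 * (l + 1)) := by
      have h4 : n < 2 ^ (l + 1) := Nat.lt_pow_succ_log_self (by norm_num) _
      have h5 : n ^ 3 < (2 ^ (l + 1)) ^ 3 := Nat.pow_lt_pow_left h4 (by norm_num)
      have h6 : 2 * r ≤ 2 ^ (2 * r) := (Nat.lt_two_pow_self).le
      calc 2 * r * n ^ 3 < 2 * r * (2 ^ (l + 1)) ^ 3 :=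
            Nat.mul_lt_mul_of_pos_left h5 (by omega)
        _ ≤ 2 ^ (2 * r) * (2 ^ (l + 1)) ^ 3 := Nat.mul_le_mul_right _ h6
        _ = 2 ^ (2 * r + 3 * (l + 1)) := by
            rw [← pow_mul, ← pow_add]
            congr 1
            ring
    have h7 : Nat.log 2 (2 * r * n ^ 3) < 2 * r + 3 * (l + 1) :=
      Nat.log_lt_of_lt_pow (by positivity) h3
    have h8 : 2 * r + 3 * (l + 1) ≤ c₁ * l := by
      rw [hc₁]
      nlinarith
    omega
  have h3 : t₂ ≤ c₂ * l := by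
    have h4 : Nat.log 2 (32 * r ^ 3 * t₁) ≤ 32 * r ^ 3 * t₁ := Nat.log_le_self _ _
    have h5 : 32 * r ^ 3 * t₁ ≤ 32 * r ^ 3 * (c₁ * l) := Nat.mul_le_mul_left _ h2
    calc t₂ ≤ 32 * r ^ 3 * (c₁ * l) + 1 := by omega
      _ ≤ 32 * r ^ 3 * (c₁ * l) + l := by omega
      _ = c₂ * l := by rw [hc₂]; ring
  have h4 : r * (4 * (8 * a) + 16 * (8 * a) ^ 2 * t) ≤ H * l := by
    calc r * (4 * (8 * a) + 16 * (8 * a) ^ 2 * t)
        ≤ r * (4 * (8 * a) * l + 16 * (8 * a) ^ 2 * (2 * l)) := by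
          apply Nat.mul_le_mul_left
          apply Nat.add_le_add
          · exact Nat.le_mul_of_pos_right _ hl1
          · exact Nat.mul_le_mul_left _ h1
      _ = H * l := by rw [hH]; ring
  refine ⟨h4, ?_⟩
  have h5 : 8 * r * t₁ ≤ 8 * r * c₁ * l := by
    calc 8 * r * t₁ ≤ 8 * r * (c₁ * l) := Nat.mul_le_mul_left _ h2
      _ = _ := by ring
  have h6 : 8 * r * t₂ ≤ 8 * r * c₂ * l := by
    calc 8 * r * t₂ ≤ 8 * r * (c₂ * l) := Nat.mul_le_mul_left _ h3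
      _ = _ := by ring
  have h7 : r ≤ r * l := Nat.le_mul_of_pos_right _ hl1
  calc N + r * (4 * (8 * a) + 16 * (8 * a) ^ 2 * t) + r
      ≤ ((r * l + 8 * r * c₁ * l) + ((r * l + 8 * r * c₂ * l) + r * l)) + H * l + r * l := by omega
    _ = _ := by ring

theorem t_FIN5 (hGL : S_GLU3) (hEX : S_EX2)
    (hCNT : ∀ r : ℕ, 2 ≤ r → ∃ a n₁ : ℕ, 1 ≤ a ∧ AVB r a n₁)
    (hSTR : ∀ r a n₁ : ℕ, AVB r a n₁ →
      ∀ (X Y : Type) [Fintype X] [Fintype Y] [DecidableEq X] [DecidableEq Y]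
      (t N g : ℕ) (χ : X → Y → Fin r) (FX : Finset X) (FY E : Finset Y),
      2 ≤ r → 1 ≤ a → n₁ ≤ g → Fintype.card X < 2 ^ t →
      FX.card + FY.card ≤ N → (∀ y, y ∉ E → Str χ (Fintype.card X + N) y) →
      g + N + r * (4 * (8 * a) + 16 * (8 * a) ^ 2 * t) ≤ Fintype.card X →
      2 * (8 * a) * (r * (4 * (8 * a) + 16 * (8 * a) ^ 2 * t)) + 8 * a ≤ g →
      2 * (Fintype.card Y * (r - 1) ^ g) < r ^ g →
      StrOut χ FX FY E (r * (4 * (8 * a))) (2 * Fintype.card X))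
    (hC : S_COMB) (hP : S_PIG)
    (hR : S_ROUND) (hF : S_FIN) (hLOG : S_LOG) (hNUM : S_NUM) : S_FIN5 := by
  classical
  intro r hr
  obtain ⟨n₀, hn₀⟩ := hNUM r 1 hr le_rfl
  obtain ⟨a, n₃, ha1, hAVB⟩ := hCNT r hr
  obtain ⟨K, H, hKH⟩ := num5 r a hr
  obtain ⟨n₄, hn₄⟩ := hLOG (2 * (8 * a) * H + 8 * a + K + n₃) 1
  obtain ⟨C₁, hC₁⟩ := hF r (by omega)
  obtain ⟨n₁, hn₁⟩ := hLOG 3 C₁
  set B := n₀ + n₁ + n₄ + C₁ + 2 with hB
  refine ⟨B, 6 * r + r * (4 * (8 * a)), K, ?_⟩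
  intro n m hnB hnm hm
  by_cases h4 : m ≤ 4 * n
  · -- nearly balanced
    refine (hC₁ n m (by omega) hnm ?_).trans (by
      have : 0 ≤ r * (4 * (8 * a)) := Nat.zero_le _
      omega)
    have h5 := hn₁ n (by omega)
    refine le_trans ?_ h5
    apply Nat.pow_le_pow_left
    have h6 : Nat.log 2 m ≤ Nat.log 2 (4 * n) := Nat.log_mono_right h4
    have h7 : Nat.log 2 (4 * n) = Nat.log 2 n + 2 := by
      have hn0 : n ≠ 0 := by omega
      have e : 4 * n = n * 2 * 2 := by ring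
      rw [e, Nat.log_mul_base (by norm_num) (by omega), Nat.log_mul_base (by norm_num) hn0]
    omega
  · push Not at h4
    set t := Nat.log 2 n + 1 with ht
    set t₁ := Nat.log 2 (2 * r * n ^ 3) + 1 with ht₁
    set t₂ := Nat.log 2 (32 * r ^ 3 * t₁) + 1 with ht₂
    set N := (r + 8 * r * t₁) + ((r + 8 * r * t₂) + r) with hN
    obtain ⟨hk1, hk2, -⟩ := hn₀ n t t₁ t₂ N _ _ (by omega) ht ht₁ ht₂ hN rfl rfl
    obtain ⟨hk3, hk4⟩ := hKH n t t₁ t₂ N (by omega) ht ht₁ ht₂ hN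
    have hk5 := hn₄ n (by omega)
    set L3 := K * Nat.log 2 n with hL3
    set h := r * (4 * (8 * a) + 16 * (8 * a) ^ 2 * t) with hh
    have hk6 : 2 * (8 * a) * h + 8 * a + L3 + n₃ ≤ n := by
      rw [pow_one] at hk5
      refine le_trans ?_ hk5
      have e1 : 2 * (8 * a) * h ≤ 2 * (8 * a) * (H * Nat.log 2 n) := Nat.mul_le_mul_left _ hk3
      calc 2 * (8 * a) * h + 8 * a + L3 + n₃
          ≤ 2 * (8 * a) * (H * Nat.log 2 n) + 8 * a + K * Nat.log 2 n + n₃ := by omega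
        _ ≤ (2 * (8 * a) * H) * (Nat.log 2 n + 1) + 8 * a * (Nat.log 2 n + 1) +
            K * (Nat.log 2 n + 1) + n₃ * (Nat.log 2 n + 1) := by
            have f1 : 2 * (8 * a) * (H * Nat.log 2 n) ≤ (2 * (8 * a) * H) * (Nat.log 2 n + 1) := by
              rw [← mul_assoc]
              exact Nat.mul_le_mul_left _ (Nat.le_succ _)
            have f2 : 8 * a ≤ 8 * a * (Nat.log 2 n + 1) := Nat.le_mul_of_pos_right _ (by omega)
            have f3 : K * Nat.log 2 n ≤ K * (Nat.log 2 n + 1) :=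
              Nat.mul_le_mul_left _ (Nat.le_succ _)
            have f4 : n₃ ≤ n₃ * (Nat.log 2 n + 1) := Nat.le_mul_of_pos_right _ (by omega)
            omega
        _ = _ := by ring
    set g := n - L3 + r with hg
    have hmg : 2 * (m * (r - 1) ^ g) < r ^ g := by
      rw [hg, pow_add, pow_add]
      calc 2 * (m * ((r - 1) ^ (n - L3) * (r - 1) ^ r))
          = (m * (r - 1) ^ (n - L3)) * (2 * (r - 1) ^ r) := by ring
        _ < r ^ (n - L3) * (2 * (r - 1) ^ r) :=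
          Nat.mul_lt_mul_of_pos_right hm (by
            have : 0 < (r - 1) ^ r := Nat.pow_pos (by omega)
            omega)
        _ ≤ r ^ (n - L3) * r ^ r := Nat.mul_le_mul_left _ (two_pow_le r hr)
    have he1 : 32 * r ^ 3 * t₁ < 2 ^ t₂ := Nat.lt_pow_succ_log_self (by norm_num) _
    have ht1' : 2 * r * n ^ 3 < 2 ^ t₁ := Nat.lt_pow_succ_log_self (by norm_num) _
    have hnt : n < 2 ^ t := Nat.lt_pow_succ_log_self (by norm_num) _
    have hn2 : 2 ≤ n := by omega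
    have hnt1 : n < 2 ^ t₁ := by
      refine lt_of_le_of_lt ?_ ht1'
      calc n ≤ n ^ 3 := Nat.le_self_pow (by norm_num) n
        _ = 1 * n ^ 3 := by ring
        _ ≤ 2 * r * n ^ 3 := Nat.mul_le_mul_right _ (by omega)
    have hfin : tp r n m ≤ (r + (r + r)) + r * (4 * (8 * a)) + (r + (r + r)) := by
      apply tp_le
      intro χ
      obtain ⟨E, hE, hEs⟩ := hEX (Fin n) (Fin m) r (n + N) χ
      rw [Fintype.card_fin] at hE
      have hE2 : E.card < 2 ^ t₁ := by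
        refine lt_of_le_of_lt (hE.trans ?_) ht1'
        calc r * n ^ 2 * (n + N) ≤ r * n ^ 2 * (2 * n) := Nat.mul_le_mul_left _ (by omega)
          _ = 2 * r * n ^ 3 := by ring
      refine hGL (Fin n) (Fin m) r (r + (r + r)) (r * (4 * (8 * a))) (r + (r + r)) N (2 * n) χ E
        ?_ ?_ ?_
      · apply FIN.side hC hP hR (by omega) t₁ t₂ (by omega) (by omega) he1 χ Finset.univ E hE2
        rw [Finset.card_univ, Fintype.card_fin]
        exact hk1
      · intro FX FY hFF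
        have h5 := hSTR r a n₃ hAVB (Fin n) (Fin m) t N g χ FX FY E hr ha1
          (by omega)
          (by rw [Fintype.card_fin]; exact hnt) hFF
          (by rw [Fintype.card_fin]; exact hEs)
          (by rw [Fintype.card_fin, ← hh]; omega)
          (by rw [← hh]; omega)
          (by rw [Fintype.card_fin]; exact hmg)
        rw [Fintype.card_fin] at h5
        exact h5
      · intro P Z hPc
        rw [Fintype.card_fin] at hPc
        refine ⟨_, FIN.side hC hP hR (by omega) t₁ t₂ (by omega) (by omega) he1 _ P Z ?_ ?_⟩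
        · have : Z.card ≤ n := by
            have := Finset.card_le_univ Z
            rwa [Fintype.card_fin] at this
          omega
        · omega
    refine hfin.trans (le_of_eq ?_)
    ring

end Pool.Agent.K6.H73.TB
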