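import Pool.Agent.K6.H73.TB.All4
import Pool.Agent.K6.H73.TB.FIN5

set_option autoImplicit false

namespace Pool.Agent.K6.H73.TB

open Pool.Agent.H948R3.TP

theorem p_FIN5 : S_FIN5 :=
  t_FIN5 (t_GLU3 t_GLUE) t_EX2 (t_CNT t_NB)
    (t_STR4 (t_HUBS (t_HUB t_ROO t_HIT)) t_HUBV t_HFR t_FOR)
    t_COMB t_PIG p_ROUND p_FIN t_LOG (t_NUM t_ARI t_LOG)

/-- the constant bound up to a polynomial factor below the threshold -/
theorem bounded_poly (r : ℕ) (hr : 2 ≤ r) :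
    ∃ C : ℕ, ∀ n m : ℕ, C ≤ n → n ≤ m →
      (m : ℝ) * (n : ℝ) ^ C ≤ ((r : ℝ) / ((r : ℝ) - 1)) ^ n →
      r ≤ tp r n m ∧ tp r n m ≤ C := by
  obtain ⟨B, C, K, hB⟩ := p_FIN5 r hr
  refine ⟨B + r + C + (K + 1) + 2, fun n m hn hnm hm => ⟨?_, (hB n m (by omega) hnm ?_).trans
    (by omega)⟩⟩
  · have h4 := lower_simple (n := n) (m := m) (r := r) (by omega) (by omega)
    exact (Nat.le_add_right _ _).trans h4
  set C' := B + r + C + (K + 1) + 2 with hC'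
  have hr2 : (2 : ℝ) ≤ r := by exact_mod_cast hr
  have hr1 : (0 : ℝ) < (r : ℝ) - 1 := by linarith
  set b : ℝ := (r : ℝ) / ((r : ℝ) - 1) with hb
  have hb1 : 1 ≤ b := by rw [hb, le_div_iff₀ hr1]; linarith
  have hb2 : b ≤ 2 := by rw [hb, div_le_iff₀ hr1]; linarith
  have hn2 : 2 ≤ n := by omega
  have hnR : (2 : ℝ) ≤ n := by exact_mod_cast hn2
  have hmR : (2 : ℝ) ≤ m := by exact_mod_cast (hn2.trans hnm)
  set l := Nat.log 2 n with hl
  have hln : 2 ^ l ≤ n := Nat.pow_log_le_self 2 (by omega)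
  have hlR : ((2 : ℝ) ^ l) ≤ n := by exact_mod_cast hln
  -- `m n ^ (K + 1) ≤ b ^ n`
  have h1 : (m : ℝ) * (n : ℝ) ^ (K + 1) ≤ b ^ n := by
    refine le_trans ?_ hm
    apply mul_le_mul_of_nonneg_left _ (by linarith)
    exact pow_le_pow_right₀ (by linarith) (by omega)
  have hKl : K * l ≤ n := by
    have h2 : (2 : ℝ) ^ (K * l) ≤ 2 ^ n := by
      calc (2 : ℝ) ^ (K * l) = (2 ^ l) ^ K := by rw [← pow_mul, mul_comm]
        _ ≤ (n : ℝ) ^ K := pow_le_pow_left₀ (by positivity) hlR K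
        _ ≤ (n : ℝ) ^ (K + 1) := pow_le_pow_right₀ (by linarith) (by omega)
        _ = 1 * (n : ℝ) ^ (K + 1) := by ring
        _ ≤ m * (n : ℝ) ^ (K + 1) := mul_le_mul_of_nonneg_right (by linarith) (by positivity)
        _ ≤ b ^ n := h1
        _ ≤ 2 ^ n := pow_le_pow_left₀ (by linarith) hb2 n
    exact (pow_le_pow_iff_right₀ (by norm_num : (1 : ℝ) < 2)).1 h2
  have h3 : (m : ℝ) < b ^ (n - K * l) := by
    have h4 : b ^ n = b ^ (n - K * l) * b ^ (K * l) := by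
      rw [← pow_add]
      congr 1
      omega
    have h5 : b ^ (K * l) ≤ (n : ℝ) ^ K := by
      calc b ^ (K * l) ≤ 2 ^ (K * l) := pow_le_pow_left₀ (by linarith) hb2 _
        _ = ((2 : ℝ) ^ l) ^ K := by rw [← pow_mul, mul_comm]
        _ ≤ (n : ℝ) ^ K := pow_le_pow_left₀ (by positivity) hlR K
    have hnK : 0 < (n : ℝ) ^ K := by positivity
    have h6 : (m : ℝ) * (n : ℝ) ^ (K + 1) ≤ b ^ (n - K * l) * (n : ℝ) ^ K := by
      refine h1.trans ?_
      rw [h4]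
      exact mul_le_mul_of_nonneg_left h5 (by positivity)
    have h7 : (m : ℝ) * n * (n : ℝ) ^ K ≤ b ^ (n - K * l) * (n : ℝ) ^ K := by
      refine le_trans (le_of_eq ?_) h6
      ring
    have h8 : (m : ℝ) * n ≤ b ^ (n - K * l) := le_of_mul_le_mul_right h7 hnK
    nlinarith
  rw [hb, div_pow, lt_div_iff₀ (by positivity)] at h3
  have h9 : ((m * (r - 1) ^ (n - K * l) : ℕ) : ℝ) < ((r ^ (n - K * l) : ℕ) : ℝ) := by
    push_cast [Nat.cast_sub (by omega : 1 ≤ r)]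
    exact h3
  exact_mod_cast h9

end Pool.Agent.K6.H73.TB
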