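import Pool.Agent.K6.H73.TB.Stm

set_option autoImplicit false

/-! Piece GLUE (helper13). -/

namespace Pool.Agent.K6.H73.TB

open Pool.Agent.H948R3.TP Sum

theorem t_GLUE : S_GLUE := by
  classical
  intro X Y ι _ r k χ C col hk hdisj hconn hatt
  have hf : ∀ v : X ⊕ Y, ∃ s : ι, (v ∈ C s) ∨
      ((∀ s', v ∉ C s') ∧ ∃ u ∈ C s, (colG χ (col s)).Adj v u) := by
    intro v
    by_cases h : ∃ s, v ∈ C s
    · obtain ⟨s, hs⟩ := h
      exact ⟨s, Or.inl hs⟩
    · rcases hatt v with h1 | ⟨s, u, hu, ha⟩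
      · exact absurd h1 h
      · exact ⟨s, Or.inr ⟨fun s' hs' => h ⟨s', hs'⟩, u, hu, ha⟩⟩
  choose f hf using hf
  have hsub : ∀ a, C a ⊆ {v | f v = a} := by
    intro a v hv
    rcases hf v with h | ⟨h, -⟩
    · by_contra hne
      exact Set.disjoint_left.1 (hdisj _ _ hne) h hv
    · exact absurd hv (h a)
  refine ⟨ι, inferInstance, f, hk, fun a ha => ⟨col a, ?_⟩⟩
  have hne : (C a).Nonempty := by
    obtain ⟨v, hv⟩ := ha
    rcases hf v with h | ⟨-, u, hu, -⟩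
    · exact ⟨v, hv ▸ h⟩
    · exact ⟨u, hv ▸ hu⟩
  have hc := hconn a hne
  obtain ⟨c0, hc0⟩ := hne
  have hle : C a ≤ {v | f v = a} := hsub a
  have hreach : ∀ v (hv : v ∈ C a), ((colG χ (col a)).induce {v | f v = a}).Reachable
      ⟨c0, hsub a hc0⟩ ⟨v, hsub a hv⟩ := by
    intro v hv
    exact (hc.preconnected ⟨c0, hc0⟩ ⟨v, hv⟩).map
      (SimpleGraph.induceHomOfLE (colG χ (col a)) hle).toHom
  rw [SimpleGraph.connected_iff_exists_forall_reachable]
  refine ⟨⟨c0, hsub a hc0⟩, ?_⟩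
  rintro ⟨v, hv⟩
  have hv' : f v = a := hv
  rcases hf v with h | ⟨-, u, hu, hadj⟩
  · exact hreach v (hv' ▸ h)
  · rw [hv'] at hu hadj
    refine (hreach u hu).trans (SimpleGraph.Adj.reachable ?_)
    exact hadj.symm

end Pool.Agent.K6.H73.TB
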