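import Pool.Agent.H948R3.TPGen

set_option autoImplicit false

/-!
Statements for: for every `r` there is `C` such that `tp_r (K_{n,m}) ≤ 6 r` whenever
`C ≤ n ≤ m` and `(log₂ m) ^ C ≤ n`.
-/

namespace Pool.Agent.K6.H73.TB

open Pool.Agent.H948R3.TP Sum

/-- `q` pairwise disjoint cores inside `P ⊔ Z`, with at most `N` elements together; a nonempty core
is connected in its colour; every `z ∈ Z` outside of `E` is in a core or joined in the colour of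
some core to an element `x : X` of that core -/
def SideCover {X Y : Type} [DecidableEq X] [DecidableEq Y] {r : ℕ} (χ : X → Y → Fin r)
    (P : Finset X) (Z E : Finset Y) (q N : ℕ) : Prop :=
  ∃ (C : Fin q → Finset (X ⊕ Y)) (col : Fin q → Fin r),
    (∀ s t, s ≠ t → Disjoint (C s) (C t)) ∧
    (∀ s, (C s).Nonempty → ((colG χ (col s)).induce (C s : Set (X ⊕ Y))).Connected) ∧
    (∀ s, C s ⊆ P.disjSum Z) ∧
    (Finset.univ.biUnion C).card ≤ N ∧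
    ∀ z ∈ Z, z ∉ E → (∃ s, (inr z : X ⊕ Y) ∈ C s) ∨
      ∃ s x, (inl x : X ⊕ Y) ∈ C s ∧ χ x z = col s

/-- the same with an exceptional set of at most `e` elements -/
def Side {X Y : Type} [DecidableEq X] [DecidableEq Y] {r : ℕ} (χ : X → Y → Fin r)
    (P : Finset X) (Z : Finset Y) (q N e : ℕ) : Prop :=
  ∃ E ⊆ Z, E.card ≤ e ∧ SideCover χ P Z E q N

/-- cores to which all other vertices are attached give a partition -/
def S_GLUE : Prop := ∀ (X Y ι : Type) [Fintype ι] (r k : ℕ) (χ : X → Y → Fin r)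
  (C : ι → Set (X ⊕ Y)) (col : ι → Fin r), Fintype.card ι ≤ k →
  (∀ s t, s ≠ t → Disjoint (C s) (C t)) →
  (∀ s, (C s).Nonempty → ((colG χ (col s)).induce (C s)).Connected) →
  (∀ v, (∃ s, v ∈ C s) ∨ ∃ s, ∃ u ∈ C s, (colG χ (col s)).Adj v u) →
  Part χ k

/-- the two sides together -/
def S_TWO : Prop := ∀ (X Y : Type) [Fintype X] [Fintype Y] [DecidableEq X] [DecidableEq Y]
  (r q q' N N' : ℕ) (χ : X → Y → Fin r),
  Side χ Finset.univ Finset.univ q N 0 →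
  (∀ (P : Finset Y) (Z : Finset X), Fintype.card Y ≤ P.card + N →
    Side (fun y x => χ x y) P Z q' N' 0) →
  Part χ (q + q')

/-- one cover after the other -/
def S_COMB : Prop := ∀ (X Y : Type) [DecidableEq X] [DecidableEq Y]
  (r q q' N N' e e' : ℕ) (χ : X → Y → Fin r) (P : Finset X) (Z : Finset Y),
  Side χ P Z q N e →
  (∀ P' ⊆ P, ∀ Z' ⊆ Z, P.card ≤ P'.card + N → Z'.card ≤ e → Side χ P' Z' q' N' e') →
  Side χ P Z (q + q') (N + N') e'

/-- few vertices are covered by `r` stars whose centres have the same pattern -/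
def S_PIG : Prop := ∀ (X Y : Type) [DecidableEq X] [DecidableEq Y]
  (r : ℕ) (χ : X → Y → Fin r) (P : Finset X) (Z : Finset Y), 1 ≤ r →
  r ^ Z.card * r ≤ P.card → Side χ P Z r r 0

/-- choice of a large set `S`, of a set `A` of good colours with roots; the other colours are
sparse on `S` -/
def S_SEL : Prop := ∀ (X : Type) [DecidableEq X] (r d : ℕ) (H : Fin r → X → X → Prop)
  [∀ i x, DecidablePred (H i x)] (P : Finset X),
  1 ≤ d → P.Nonempty → (∀ i x, ¬ H i x x) →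
  ∃ (A : Finset (Fin r)) (S : Finset X) (root : Fin r → X), S ⊆ P ∧
    P.card ≤ d ^ r * S.card ∧
    (∀ i ∈ A, root i ∈ P ∧ root i ∉ S ∧ ∀ y ∈ S, H i (root i) y) ∧
    (∀ i ∈ A, ∀ j ∈ A, root i = root j → i = j) ∧
    ∀ j, j ∉ A → ∀ x ∈ S, d * (S.filter (H j x)).card ≤ S.card

/-- an independent set for sparse relations -/
def S_IND : Prop := ∀ (X : Type) [DecidableEq X] (r s : ℕ) (H : Fin r → X → X → Prop)
  [∀ i x, DecidablePred (H i x)] (B : Finset (Fin r)) (S : Finset X),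
  (∀ i x y, H i x y → H i y x) →
  (∀ j ∈ B, ∀ x ∈ S, 2 * r * s * (S.filter (H j x)).card ≤ S.card) → 2 * s ≤ S.card →
  ∃ T ⊆ S, T.card = s ∧ ∀ j ∈ B, ∀ x ∈ T, ∀ y ∈ T, x ≠ y → ¬ H j x y

/-- few exceptional vertices -/
def S_EXC : Prop := ∀ (X Y : Type) [DecidableEq X] [DecidableEq Y] (r s k : ℕ)
  (χ : X → Y → Fin r) (T : Finset X) (Z : Finset Y) (B : Finset (Fin r)),
  1 ≤ r → 4 * r ≤ s → T.card = s →
  (∀ j ∈ B, ∀ x ∈ T, ∀ y ∈ T, x ≠ y →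
    (Z.filter (fun z => χ x z = j ∧ χ y z = j)).card ≤ k) →
  (Z.filter (fun z => s < 2 * (T.filter (fun x => χ x z ∈ B)).card)).card ≤ 8 * r ^ 2 * k

/-- greedy choice of centres with colours -/
def S_GRE : Prop := ∀ (X Y : Type) [DecidableEq X] [DecidableEq Y] (r t : ℕ)
  (χ : X → Y → Fin r) (T : Finset X) (W : Finset Y) (A : Finset (Fin r)),
  1 ≤ r → W.card < 2 ^ t → 16 * r * t ≤ T.card →
  (∀ z ∈ W, T.card ≤ 2 * (T.filter (fun x => χ x z ∈ A)).card) →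
  ∃ (K : Finset X) (c : X → Fin r), K ⊆ T ∧ K.card ≤ 4 * r * t ∧ (∀ x ∈ K, c x ∈ A) ∧
    ∀ z ∈ W, ∃ x ∈ K, χ x z = c x

/-- connectors -/
def S_CON : Prop := ∀ (X Y : Type) [DecidableEq X] [DecidableEq Y] (r k : ℕ)
  (χ : X → Y → Fin r) (P : Finset X) (Z : Finset Y) (A : Finset (Fin r)) (root : Fin r → X)
  (K : Finset X) (c : X → Fin r), K ⊆ P → K.card ≤ k →
  (∀ i ∈ A, root i ∈ P ∧ root i ∉ K) →
  (∀ i ∈ A, ∀ j ∈ A, root i = root j → i = j) →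
  (∀ x ∈ K, c x ∈ A ∧
    k ≤ (Z.filter (fun z => χ (root (c x)) z = c x ∧ χ x z = c x)).card) →
  ∃ C : Fin r → Finset (X ⊕ Y),
    (∀ i j, i ≠ j → Disjoint (C i) (C j)) ∧
    (∀ i, (C i).Nonempty → ((colG χ i).induce (C i : Set (X ⊕ Y))).Connected) ∧
    (∀ i, C i ⊆ P.disjSum Z) ∧
    (Finset.univ.biUnion C).card ≤ r + 2 * k ∧
    ∀ x ∈ K, (inl x : X ⊕ Y) ∈ C (c x)

/-- one round -/
def S_ROUND : Prop := ∀ (X Y : Type) [DecidableEq X] [DecidableEq Y] (r t : ℕ)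
  (χ : X → Y → Fin r) (P : Finset X) (Z : Finset Y), 1 ≤ r → 1 ≤ t → Z.card < 2 ^ t →
  (32 * r ^ 2 * t) ^ (r + 1) ≤ P.card →
  Side χ P Z r (r + 8 * r * t) (32 * r ^ 3 * t)

/-- the arithmetic: with `t₁ = log₂ m + 1` and `t₂ = log₂ (32 r³ t₁) + 1` -/
def S_ARI : Prop := ∀ r : ℕ, 1 ≤ r → ∃ C : ℕ, ∀ n m t₁ t₂ : ℕ, C ≤ n → n ≤ m →
  Nat.log 2 m ^ C ≤ n → t₁ = Nat.log 2 m + 1 → t₂ = Nat.log 2 (32 * r ^ 3 * t₁) + 1 →
  (32 * r ^ 2 * t₁) ^ (r + 1) + (32 * r ^ 2 * t₂) ^ (r + 1) + r ^ (32 * r ^ 3 * t₂) * r +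
    2 * ((r + 8 * r * t₁) + (r + 8 * r * t₂) + r) ≤ n

end Pool.Agent.K6.H73.TB
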