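import Pool.Agent.K6.H73.TB.Stm

set_option autoImplicit false

/-!
Statements for: for every `r ≥ 2` and `δ > 0` there is `C` such that `tp_r (K_{n,m}) ≤ C` whenever
`n ≤ m ≤ (r / (r - 1)) ^ ((1 - δ) n)`.
-/

namespace Pool.Agent.K6.H73.TB

open Pool.Agent.H948R3.TP Sum

/-- the number of common neighbours in colour `i` -/
def com {X Y : Type} [Fintype Y] {r : ℕ} (χ : X → Y → Fin r) (i : Fin r) (x x' : X) : ℕ :=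
  (Finset.univ.filter (fun z => χ x z = i ∧ χ x' z = i)).card

/-- any two neighbours of `y` in the same colour have many common neighbours in this colour -/
def Str {X Y : Type} [Fintype Y] {r : ℕ} (χ : X → Y → Fin r) (q : ℕ) (y : Y) : Prop :=
  ∀ x x', x ≠ x' → χ x y = χ x' y → q ≤ com χ (χ x y) x x'

/-- few vertices are not structured -/
def S_EX2 : Prop := ∀ (X Y : Type) [Fintype X] [Fintype Y] (r q : ℕ) (χ : X → Y → Fin r),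
  ∃ E : Finset Y, E.card ≤ r * Fintype.card X ^ 2 * q ∧ ∀ y, y ∉ E → Str χ q y

/-- hitting sets -/
def S_HIT : Prop := ∀ (X ι : Type) [DecidableEq X] (V : Finset X) (I : Finset ι)
  (S : ι → Finset X) (y t : ℕ), 1 ≤ y → I.card < 2 ^ t →
  (∀ i ∈ I, S i ⊆ V ∧ V.card ≤ y * (S i).card ∧ (S i).Nonempty) →
  ∃ W ⊆ I.biUnion S, W.card ≤ y * t ∧ ∀ i ∈ I, ∃ w ∈ W, w ∈ S i

/-- few roots so that every large set meets the set of a root in many elements -/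
def S_ROO : Prop := ∀ (X : Type) [DecidableEq X] (n b : ℕ) (U : Finset X) (Nb : X → Finset X),
  1 ≤ b → U.card ≤ n → (∀ x ∈ U, Nb x ⊆ U ∧ n ≤ b * (Nb x).card) →
  ∃ R ⊆ U, R.card ≤ 2 * b ∧ ∀ x ∈ U, x ∈ R ∨ ∃ ρ ∈ R, n ≤ 4 * b ^ 2 * (Nb x ∩ Nb ρ).card

/-- roots and middle vertices for one relation -/
def S_HUB : Prop := ∀ (X : Type) [Fintype X] [DecidableEq X] (a t : ℕ) (H : X → X → Prop)
  (U F : Finset X), (∀ x y, H x y → H y x) → 1 ≤ a → 1 ≤ Fintype.card X →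
  Fintype.card X < 2 ^ t →
  (∀ x ∈ U, ∃ B ⊆ U, Fintype.card X ≤ a * B.card ∧ ∀ y ∈ B, H x y) →
  2 * a * F.card ≤ Fintype.card X →
  ∃ R W : Finset X, R ⊆ U \ F ∧ W ⊆ U \ F ∧ R.card ≤ 4 * a ∧ W.card ≤ 16 * a ^ 2 * t ∧
    (∀ w ∈ W, ∃ ρ ∈ R, H w ρ) ∧ ∀ x ∈ U, x ∉ F → x ∈ R ∨ ∃ w ∈ W, H x w

/-- roots and middle vertices for all colours -/
def S_HUBS : Prop := ∀ (X : Type) [Fintype X] [DecidableEq X] (r a t : ℕ)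
  (H : Fin r → X → X → Prop) (U : Fin r → Finset X),
  (∀ i x y, H i x y → H i y x) → 1 ≤ a → 1 ≤ Fintype.card X → Fintype.card X < 2 ^ t →
  (∀ i, ∀ x ∈ U i, ∃ B ⊆ U i, Fintype.card X ≤ a * B.card ∧ ∀ y ∈ B, H i x y) →
  2 * a * (r * (4 * a + 16 * a ^ 2 * t)) ≤ Fintype.card X →
  ∃ R W : Fin r → Finset X,
    (∀ i, R i ⊆ U i ∧ W i ⊆ U i ∧ (R i).card ≤ 4 * a ∧ (W i).card ≤ 16 * a ^ 2 * t) ∧
    (∀ i j, i ≠ j → Disjoint (R i ∪ W i) (R j ∪ W j)) ∧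
    (∀ i, ∀ w ∈ W i, ∃ ρ ∈ R i, H i w ρ) ∧
    ∀ i, ∀ x ∈ U i, (∀ j, x ∉ R j ∪ W j) → ∃ w ∈ W i, H i x w

/-- choice of colours from lists -/
def S_AVG : Prop := ∀ (X Y : Type) [DecidableEq X] [DecidableEq Y] (r g : ℕ)
  (χ : X → Y → Fin r) (L : X → Finset (Fin r)) (V : Finset X) (W : Finset Y), 1 ≤ r →
  (∀ x ∈ V, (L x).Nonempty) →
  (∀ y ∈ W, g ≤ (V.filter (fun x => χ x y ∈ L x)).card) →
  W.card * (r - 1) ^ g < r ^ g →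
  ∃ c : X → Fin r, (∀ x ∈ V, c x ∈ L x) ∧ ∀ y ∈ W, ∃ x ∈ V, c x = χ x y

/-- connectors for a forest -/
def S_FOR : Prop := ∀ (X Y : Type) [DecidableEq X] [DecidableEq Y] (r k : ℕ)
  (χ : X → Y → Fin r) (K R : Finset X) (Zc : Finset Y) (c : X → Fin r) (par : X → X)
  (dep : X → ℕ) (rt : X → X), R ⊆ K → K.card ≤ k →
  (∀ ρ ∈ R, rt ρ = ρ) → (∀ x ∈ K, rt x ∈ R) →
  (∀ x ∈ K, x ∉ R → par x ∈ K ∧ dep (par x) < dep x ∧ rt (par x) = rt x ∧ c (par x) = c x ∧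
    k ≤ (Zc.filter (fun z => χ (par x) z = c x ∧ χ x z = c x)).card) →
  ∃ C : X → Finset (X ⊕ Y),
    (∀ ρ ∈ R, ∀ σ ∈ R, ρ ≠ σ → Disjoint (C ρ) (C σ)) ∧
    (∀ ρ ∈ R, ((colG χ (c ρ)).induce (C ρ : Set (X ⊕ Y))).Connected) ∧
    (∀ ρ ∈ R, C ρ ⊆ K.disjSum Zc) ∧
    (R.biUnion C).card ≤ 2 * k ∧
    (∀ x ∈ K, (inl x : X ⊕ Y) ∈ C (rt x)) ∧ ∀ x ∈ K, c (rt x) = c x

/-- cores avoiding `FX ⊔ FY` to which all `y` outside of `E` and `FY` are attached -/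
def StrOut {X Y : Type} [DecidableEq X] [DecidableEq Y] {r : ℕ} (χ : X → Y → Fin r)
    (FX : Finset X) (FY E : Finset Y) (q M : ℕ) : Prop :=
  ∃ (R : Finset X) (C : X → Finset (X ⊕ Y)) (col : X → Fin r), R.card ≤ q ∧
    (∀ ρ ∈ R, ∀ σ ∈ R, ρ ≠ σ → Disjoint (C ρ) (C σ)) ∧
    (∀ ρ ∈ R, ((colG χ (col ρ)).induce (C ρ : Set (X ⊕ Y))).Connected) ∧
    (∀ ρ ∈ R, Disjoint (C ρ) (FX.disjSum FY)) ∧
    (R.biUnion C).card ≤ M ∧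
    ∀ y, y ∉ E → y ∉ FY → (∃ ρ ∈ R, (inr y : X ⊕ Y) ∈ C ρ) ∨
      ∃ ρ ∈ R, ∃ x, (inl x : X ⊕ Y) ∈ C ρ ∧ χ x y = col ρ

/-- the structured part -/
def S_STR : Prop := ∀ (X Y : Type) [Fintype X] [Fintype Y] [DecidableEq X] [DecidableEq Y]
  (r a t N g : ℕ) (χ : X → Y → Fin r) (FX : Finset X) (FY E : Finset Y),
  1 ≤ r → 1 ≤ a → Fintype.card X < 2 ^ t → 2 * a ≤ Fintype.card X →
  FX.card + FY.card ≤ N → (∀ y, y ∉ E → Str χ (Fintype.card X + N) y) →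
  4 * a * (r * (8 * a + 64 * a ^ 2 * t)) ≤ Fintype.card X →
  a * (g + N + r * (8 * a + 64 * a ^ 2 * t)) + r * Fintype.card X ≤ a * Fintype.card X →
  Fintype.card Y * (r - 1) ^ g < r ^ g →
  StrOut χ FX FY E (r * (8 * a)) (2 * Fintype.card X)

/-- the three families of cores together -/
def S_GLU3 : Prop := ∀ (X Y : Type) [Fintype X] [Fintype Y] [DecidableEq X] [DecidableEq Y]
  (r q₁ q₂ q₃ N M : ℕ) (χ : X → Y → Fin r) (E : Finset Y),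
  Side χ Finset.univ E q₁ N 0 →
  (∀ (FX : Finset X) (FY : Finset Y), FX.card + FY.card ≤ N → StrOut χ FX FY E q₂ M) →
  (∀ (P : Finset Y) (Z : Finset X), Fintype.card Y ≤ P.card + (N + M) →
    ∃ N', Side (fun y x => χ x y) P Z q₃ N' 0) →
  Part χ (q₁ + q₂ + q₃)

/-- powers of the logarithm are small -/
def S_LOG : Prop := ∀ A C : ℕ, ∃ n₀ : ℕ, ∀ n : ℕ, n₀ ≤ n → (A * (Nat.log 2 n + 1)) ^ C ≤ n

/-- the arithmetic -/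
def S_NUM : Prop := ∀ r D : ℕ, 2 ≤ r → 1 ≤ D → ∃ n₀ : ℕ, ∀ n t t₁ t₂ N h a : ℕ, n₀ ≤ n →
  t = Nat.log 2 n + 1 → t₁ = Nat.log 2 (2 * r * n ^ 3) + 1 →
  t₂ = Nat.log 2 (32 * r ^ 3 * t₁) + 1 →
  N = (r + 8 * r * t₁) + ((r + 8 * r * t₂) + r) → a = 2 * r * D →
  h = r * (8 * a + 64 * a ^ 2 * t) →
  (32 * r ^ 2 * t₁) ^ (r + 1) + (32 * r ^ 2 * t₂) ^ (r + 1) + r ^ (32 * r ^ 3 * t₂) * r +
    ((r + 8 * r * t₁) + (r + 8 * r * t₂)) ≤ n ∧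
  N ≤ n ∧ 4 * a * h ≤ n ∧ 2 * a ≤ n ∧
  ∃ g : ℕ, (D - 1) * n + 1 ≤ D * g ∧ a * (g + N + h) + r * n ≤ a * n

end Pool.Agent.K6.H73.TB
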