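import Pool.Agent.K6.H73.TB.Stm2

set_option autoImplicit false

/-!
Statements for: for every `r ≥ 2` and large `n ≤ m < (r / (r - 1)) ^ (n - (log₂ n) ^ 3)` one has
`tp_r (K_{n,m}) ≤ 6 r + 16 r ^ 3 (log₂ n + 1)`.
-/

namespace Pool.Agent.K6.H73.TB

open Pool.Agent.H948R3.TP Sum

/-- a forest on the coloured elements of `K` with the roots `R` -/
def Frst {X : Type} {r : ℕ} (H : Fin r → X → X → Prop) (K R : Finset X) (c : X → Fin r) : Prop :=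
  R ⊆ K ∧ ∃ (par : X → X) (dep : X → ℕ) (rt : X → X),
    (∀ ρ ∈ R, rt ρ = ρ) ∧ (∀ x ∈ K, rt x ∈ R) ∧
    ∀ x ∈ K, x ∉ R → par x ∈ K ∧ dep (par x) < dep x ∧ rt (par x) = rt x ∧ c (par x) = c x ∧
      H (c x) (par x) x

/-- UNF: union of two forests -/
def S_UNF : Prop := ∀ (X : Type) [DecidableEq X] (r : ℕ) (H : Fin r → X → X → Prop)
  (K₁ R₁ K₂ R₂ : Finset X) (c₁ c₂ : X → Fin r), Disjoint K₁ K₂ →
  Frst H K₁ R₁ c₁ → Frst H K₂ R₂ c₂ →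
  Frst H (K₁ ∪ K₂) (R₁ ∪ R₂) (fun x => if x ∈ K₁ then c₁ x else c₂ x)

/-- GRD: greedy choice of colours from lists without loss. Induction on `V.card`. If
`V.card ≤ r * β` or `Z = ∅` take `K = ∅`. Otherwise some `x ∈ V` has at most `Z.card / r` elements
`y ∈ Z` with `χ x y ∉ L x` (double counting), hence some `i ∈ L x` has
`Z.card ≤ r * (Z.filter (χ x · = i)).card` (if `L x` is not everything it has at most `r - 1` elements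
and covers at least `(1 - 1 / r) Z.card` elements). Remove `x` and these `y`. -/
def S_GRD : Prop := ∀ (X Y : Type) [DecidableEq X] [DecidableEq Y] (r β : ℕ)
  (χ : X → Y → Fin r) (L : X → Finset (Fin r)) (V : Finset X) (Z : Finset Y), 2 ≤ r →
  (∀ y ∈ Z, (V.filter (fun x => χ x y ∉ L x)).card ≤ β) →
  ∃ (K : Finset X) (c : X → Fin r) (Z' : Finset Y), K ⊆ V ∧ Z' ⊆ Z ∧
    ((V \ K).card ≤ r * β ∨ Z' = ∅) ∧ (∀ x ∈ K, c x ∈ L x) ∧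
    (∀ y ∈ Z, y ∉ Z' → ∃ x ∈ K, χ x y = c x) ∧
    Z'.card * r ^ K.card ≤ Z.card * (r - 1) ^ K.card

/-- HUBV: `S_HUBS` for the elements of a subset `V` (apply `S_HUBS` to the subtype) -/
def S_HUBV : Prop := S_HUBS → ∀ (X : Type) [DecidableEq X] (r a t : ℕ)
  (H : Fin r → X → X → Prop) (V : Finset X) (U : Fin r → Finset X), (∀ i, U i ⊆ V) →
  (∀ i x y, H i x y → H i y x) → 1 ≤ a → 1 ≤ V.card → V.card < 2 ^ t →
  (∀ i, ∀ x ∈ U i, ∃ B ⊆ U i, V.card ≤ a * B.card ∧ ∀ y ∈ B, H i x y) →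
  2 * a * (r * (4 * a + 16 * a ^ 2 * t)) ≤ V.card →
  ∃ R W : Fin r → Finset X,
    (∀ i, R i ⊆ U i ∧ W i ⊆ U i ∧ (R i).card ≤ 4 * a ∧ (W i).card ≤ 16 * a ^ 2 * t) ∧
    (∀ i j, i ≠ j → Disjoint (R i ∪ W i) (R j ∪ W j)) ∧
    (∀ i, ∀ w ∈ W i, ∃ ρ ∈ R i, H i w ρ) ∧
    ∀ i, ∀ x ∈ U i, (∀ j, x ∉ R j ∪ W j) → ∃ w ∈ W i, H i x w

/-- HFR: the forest given by roots, hubs and other elements attached to hubs -/
def S_HFR : Prop := ∀ (X : Type) [DecidableEq X] (r : ℕ) (H : Fin r → X → X → Prop)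
  (R W : Fin r → Finset X) (K : Finset X) (c : X → Fin r),
  (∀ i x y, H i x y → H i y x) →
  (∀ i j, i ≠ j → Disjoint (R i ∪ W i) (R j ∪ W j)) →
  (∀ i, ∀ w ∈ W i, ∃ ρ ∈ R i, H i w ρ) → (∀ x ∈ K, ∀ j, x ∉ R j ∪ W j) →
  (∀ x ∈ K, ∃ w ∈ W (c x), H (c x) x w) →
  ∃ c' : X → Fin r, (∀ x ∈ K, c' x = c x) ∧
    Frst H (K ∪ Finset.univ.biUnion fun i => R i ∪ W i) (Finset.univ.biUnion R) c'

/-- LEV: one level. `U i` is the union of the sets `S ⊆ V` which contain a given point, are cliques of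
`H i` and satisfy `V.card + a ≤ a * S.card`; `L x = {i | x ∈ U i}`; use `S_HUBV`, then `S_GRD` on
`V` without the roots and hubs with `β = r * (V.card + a) / a`, then `S_HFR`. For `y ∈ Z` the set
`{x ∈ V | χ x y = i}` is a clique of `H i`, so it is in `U i` or it has less than `V.card / a + 1`
elements. -/
def S_LEV : Prop := S_HUBS → S_HUBV → S_GRD → S_HFR → ∀ (X Y : Type) [DecidableEq X] [DecidableEq Y]
  (r a t : ℕ) (χ : X → Y → Fin r) (H : Fin r → X → X → Prop) (V : Finset X) (Z : Finset Y),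
  2 ≤ r → 1 ≤ a → (∀ i x y, H i x y → H i y x) → 1 ≤ V.card → V.card < 2 ^ t →
  (∀ y ∈ Z, ∀ x ∈ V, ∀ x' ∈ V, x ≠ x' → χ x y = χ x' y → H (χ x y) x x') →
  2 * a * (r * (4 * a + 16 * a ^ 2 * t)) ≤ V.card →
  ∃ (K R : Finset X) (c : X → Fin r) (Z' : Finset Y) (g : ℕ), K ⊆ V ∧ Z' ⊆ Z ∧ Frst H K R c ∧
    R.card ≤ r * (4 * a) ∧ (∀ y ∈ Z, y ∉ Z' → ∃ x ∈ K, χ x y = c x) ∧
    (a * (V \ K).card ≤ r * (r * (V.card + a)) ∨ Z' = ∅) ∧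
    K.card ≤ g + r * (4 * a + 16 * a ^ 2 * t) ∧ Z'.card * r ^ g ≤ Z.card * (r - 1) ^ g

/-- ITR: iteration of LEV, induction on `j`; `(V \ K).card ≤ V.card / 2` since `4 r² ≤ a` and
`4 r² ≤ s < V.card` -/
def S_ITR : Prop := S_HUBS → S_HUBV → S_GRD → S_HFR → S_LEV → S_UNF →
  ∀ (X Y : Type) [DecidableEq X] [DecidableEq Y]
  (r a t s : ℕ) (χ : X → Y → Fin r) (H : Fin r → X → X → Prop), 2 ≤ r → 4 * r ^ 2 ≤ a →
  (∀ i x y, H i x y → H i y x) → 4 * r ^ 2 ≤ s → 2 * a * (r * (4 * a + 16 * a ^ 2 * t)) ≤ s →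
  ∀ (j : ℕ) (V : Finset X) (Z : Finset Y), V.card < 2 ^ t → V.card ≤ 2 ^ j * s →
  (∀ y ∈ Z, ∀ x ∈ V, ∀ x' ∈ V, x ≠ x' → χ x y = χ x' y → H (χ x y) x x') →
  ∃ (K R : Finset X) (c : X → Fin r) (Z' : Finset Y), K ⊆ V ∧ Z' ⊆ Z ∧ Frst H K R c ∧
    R.card ≤ j * (r * (4 * a)) ∧ (∀ y ∈ Z, y ∉ Z' → ∃ x ∈ K, χ x y = c x) ∧
    (Z' = ∅ ∨ ∃ g : ℕ, V.card ≤ g + (s + j * (r * (4 * a + 16 * a ^ 2 * t))) ∧
      Z'.card * r ^ g ≤ Z.card * (r - 1) ^ g)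

/-- STR3: the structured part. `S_ITR` with `H i x x' := Fintype.card X + N ≤ com χ i x x'`,
`V = univ \ FX`, `Z = univ \ (E ∪ FY)`; `Z'` is empty as `Z'.card * r ^ g' ≤ m (r - 1) ^ g' < r ^ g'`
for some `g' ≥ g`; then `S_FOR` with `Zc = univ \ FY` and `k = Fintype.card X`. -/
def S_STR3 : Prop := S_HUBS → S_HUBV → S_GRD → S_HFR → S_LEV → S_UNF → S_ITR → S_FOR →
  ∀ (X Y : Type) [Fintype X] [Fintype Y] [DecidableEq X] [DecidableEq Y]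
  (r a t N g s j : ℕ) (χ : X → Y → Fin r) (FX : Finset X) (FY E : Finset Y),
  2 ≤ r → 4 * r ^ 2 ≤ a → Fintype.card X < 2 ^ t → 4 * r ^ 2 ≤ s →
  2 * a * (r * (4 * a + 16 * a ^ 2 * t)) ≤ s → Fintype.card X ≤ 2 ^ j * s →
  FX.card + FY.card ≤ N → (∀ y, y ∉ E → Str χ (Fintype.card X + N) y) →
  g + N + s + j * (r * (4 * a + 16 * a ^ 2 * t)) ≤ Fintype.card X →
  Fintype.card Y * (r - 1) ^ g < r ^ g →
  StrOut χ FX FY E (j * (r * (4 * a))) (2 * Fintype.card X)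

/-- NUM3: arithmetic -/
def S_NUM3 : Prop := ∀ r a : ℕ, ∃ n₀ : ℕ, ∀ n t t₁ t₂ N : ℕ, n₀ ≤ n →
  t = Nat.log 2 n + 1 → t₁ = Nat.log 2 (2 * r * n ^ 3) + 1 →
  t₂ = Nat.log 2 (32 * r ^ 3 * t₁) + 1 →
  N = (r + 8 * r * t₁) + ((r + 8 * r * t₂) + r) →
  N + (4 * r ^ 2 + 2 * a * (r * (4 * a + 16 * a ^ 2 * t))) + t * (r * (4 * a + 16 * a ^ 2 * t)) + 1 ≤
    Nat.log 2 n ^ 3 ∧ Nat.log 2 n ^ 3 ≤ n

end Pool.Agent.K6.H73.TB
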