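import Pool.Agent.K6.H73.TB.Stm3

set_option autoImplicit false

/-!
Statements for: for every `r ≥ 2` there is `C` such that `tp_r (K_{n,m}) ≤ C` for all
`C ≤ n ≤ m < (r / (r - 1)) ^ (n - (log₂ n) ^ 3)`.
-/

namespace Pool.Agent.K6.H73.TB

open Pool.Agent.H948R3.TP Sum

/-- choice of colours from lists without loss: if the pairs `(x, y)` with `χ x y ∉ L x` lie in colour
classes of `y` with at most `V.card / a` elements -/
def AVB (r a n₁ : ℕ) : Prop := ∀ (X Y : Type) [DecidableEq X] [DecidableEq Y]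
  (χ : X → Y → Fin r) (L : X → Finset (Fin r)) (V : Finset X) (W : Finset Y), n₁ ≤ V.card →
  (∀ y ∈ W, ∀ x ∈ V, χ x y ∉ L x →
    a * (V.filter (fun x' => χ x' y = χ x y)).card ≤ V.card) →
  2 * (W.card * (r - 1) ^ V.card) < r ^ V.card →
  ∃ c : X → Fin r, ∀ y ∈ W, ∃ x ∈ V, c x = χ x y ∧ c x ∈ L x

/-- NB: real numbers. `θ = 1 + 1 / (4 r)`, `α = 2 / (2 r - 1)`, `τ = ⌈α v⌉`. By
`1 - 1 / θ ≤ log θ ≤ θ - 1` and `log (1 + u) ≤ u` one has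
`δ₁ = α log θ - log ((r - 1 + θ) / r) > 0` (as `θ < α r`) and
`δ₂ = - α log θ - log ((r - 2 + 1 / θ) / (r - 1)) > 0` (as `θ < 1 / (α (r - 1))`). First part: true
for `log (2 r) ≤ δ₁ v`. Second part: the logarithm of left / right is at most
`- δ₂ v + log θ + B κ` with `κ = log (r / (r - 2 + 1 / θ))`, `B ≤ r v / a`; take `a ≥ 2 r κ / δ₂` and
`v ≥ 2 log θ / δ₂`. -/
def S_NB : Prop := ∀ r : ℕ, 2 ≤ r → ∃ (θ : ℝ) (a n₁ : ℕ), 1 < θ ∧ 1 ≤ a ∧ ∀ v : ℕ, n₁ ≤ v →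
  ∃ τ : ℕ, 2 * (r : ℝ) * ((r : ℝ) - 1 + θ) ^ v ≤ θ ^ τ * (r : ℝ) ^ v ∧
    ∀ B : ℕ, B ≤ v → a * B ≤ r * v →
      θ ^ τ * ((r : ℝ) - 2 + 1 / θ) ^ (v - B) * (r : ℝ) ^ B ≤ ((r : ℝ) - 1) ^ v

/-- CNT: counting. Sum over all `c : {x // x ∈ V} → Fin r` of
`F c = ∑ i, θ ^ #ᵢ c / θ ^ τ + ∑ y ∈ W bad, [c misses y on G y] θ ^ τ / θ ^ #_{i(y)} c +
∑ y ∈ W not bad, [c misses y on V]`; here `#ᵢ c` is the number of `x` with `c x = i`, `y` is bad if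
some `x ∈ V` has `χ x y ∉ L x` and then `i(y) = χ x y` for such an `x`, and
`G y = {x ∈ V | V.card < a * (class of χ x y).card}`, so that `(V \ G y).card = B` with
`a * B ≤ r * V.card` and `χ x y ≠ i(y)` on `G y`. By `Finset.prod_univ_sum` the three sums are
`r (r - 1 + θ) ^ v / θ ^ τ`, at most `θ ^ τ (r - 2 + 1 / θ) ^ (v - B) r ^ B` for each bad `y` (factor at
`x ∈ G y` is `r - 2 + 1 / θ`, outside `r - 1 + 1 / θ ≤ r`), and `(r - 1) ^ v` for each other `y`. So the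
total is less than `r ^ v`, some `c` has `F c < 1`; hence `#ᵢ c < τ` for all `i`, no bad `y` is missed
on `G y`, no other `y` is missed. -/
def S_CNT : Prop := S_NB → ∀ r : ℕ, 2 ≤ r → ∃ a n₁ : ℕ, 1 ≤ a ∧ AVB r a n₁

/-- STR4: the structured part with one level. `V = univ \ FX`, `A = 8 a`, `U i` = points in a clique
`S ⊆ V` of `H i` with `V.card + A ≤ A * S.card`, `L x = {i | x ∈ U i}`, `S_HUBV` with `A`,
`V' = V` without roots and hubs, `AVB` for `V'` and `W = univ \ (E ∪ FY)`,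
`K = {x ∈ V' | c x ∈ L x}`, `S_HFR`, `S_FOR` (as in LEV.lean and STR3.lean). -/
def S_STR4 : Prop := S_HUBS → S_HUBV → S_HFR → S_FOR → ∀ r a n₁ : ℕ, AVB r a n₁ →
  ∀ (X Y : Type) [Fintype X] [Fintype Y] [DecidableEq X] [DecidableEq Y]
  (t N g : ℕ) (χ : X → Y → Fin r) (FX : Finset X) (FY E : Finset Y),
  2 ≤ r → 1 ≤ a → n₁ ≤ g → Fintype.card X < 2 ^ t →
  FX.card + FY.card ≤ N → (∀ y, y ∉ E → Str χ (Fintype.card X + N) y) →
  g + N + r * (4 * (8 * a) + 16 * (8 * a) ^ 2 * t) ≤ Fintype.card X →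
  2 * (8 * a) * (r * (4 * (8 * a) + 16 * (8 * a) ^ 2 * t)) + 8 * a ≤ g →
  2 * (Fintype.card Y * (r - 1) ^ g) < r ^ g →
  StrOut χ FX FY E (r * (4 * (8 * a))) (2 * Fintype.card X)

end Pool.Agent.K6.H73.TB
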